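import Pool.Agent.Helper931.Basic

set_option autoImplicit false

namespace Pool.Agent.H931

open Set

/-- sum of `e` along the path labelled by a word (read from right to left) -/
def wsum {ι K V : Type} [Group K] [MulAction K V] (x : ι → K) (e : ι × Bool → V → ℤ) :
    List (ι × Bool) → V → ℤ
  | [], _ => 0
  | (l :: w), v => e l (ev x w • v) + wsum x e w v

/-- the permutation attached to a generator -/
def cocPerm {ι K V : Type} [Group K] [MulAction K V] (x : ι → K) (e : ι × Bool → V → ℤ) (i : ι) :
    Equiv.Perm (V × ℤ) where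
  toFun p := (x i • p.1, p.2 + e (i, true) p.1)
  invFun p := ((x i)⁻¹ • p.1, p.2 - e (i, true) ((x i)⁻¹ • p.1))
  left_inv := by rintro ⟨v, m⟩; simp
  right_inv := by rintro ⟨v, m⟩; simp

lemma cocPerm_ltr {ι K V : Type} [Group K] [MulAction K V] (x : ι → K) (e : ι × Bool → V → ℤ)
    (he : ∀ i v, e (i, false) (x i • v) = - e (i, true) v) (l : ι × Bool) (v : V) (m : ℤ) :
    ltr (cocPerm x e) l (v, m) = (ltr x l • v, m + e l v) := by
  rcases l with ⟨i, b⟩
  cases b
  · have h1 := he i ((x i)⁻¹ • v)
    rw [smul_inv_smul] at h1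
    show ((x i)⁻¹ • v, m - e (i, true) ((x i)⁻¹ • v)) = ((x i)⁻¹ • v, m + e (i, false) v)
    rw [h1, sub_eq_add_neg]
  · rfl

lemma cocPerm_ev {ι K V : Type} [Group K] [MulAction K V] (x : ι → K) (e : ι × Bool → V → ℤ)
    (he : ∀ i v, e (i, false) (x i • v) = - e (i, true) v) (w : List (ι × Bool)) (v : V) (m : ℤ) :
    ev (cocPerm x e) w (v, m) = (ev x w • v, m + wsum x e w v) := by
  induction w with
  | nil => simp [wsum]
  | cons l w ih =>
    rw [ev_cons, Equiv.Perm.mul_apply, ih, cocPerm_ltr x e he, ev_cons, mul_smul]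
    simp only [wsum, Prod.mk.injEq, true_and]
    ring

theorem exists_cocycle {ι K V : Type} [Group K] [MulAction K V] (x : ι → K) (n : ℕ)
    (hp : Pres x n) (hg : Gens x) (e : ι × Bool → V → ℤ)
    (he : ∀ i v, e (i, false) (x i • v) = - e (i, true) v)
    (hrel : ∀ w : List (ι × Bool), w.length ≤ n → ev x w = 1 → ∀ v, wsum x e w v = 0) :
    ∃ c : K → V → ℤ, (∀ g h v, c (g * h) v = c g (h • v) + c h v) ∧
      ∀ l v, c (ltr x l) v = e l v := by
  obtain ⟨F, hF⟩ := hp (Equiv.Perm (V × ℤ)) (cocPerm x e) (by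
    intro w hw hw1
    apply Equiv.ext
    rintro ⟨v, m⟩
    rw [cocPerm_ev x e he, hw1, hrel w hw hw1]
    simp)
  have hFl : ∀ l, F (ltr x l) = ltr (cocPerm x e) l := by
    rintro ⟨i, b⟩
    cases b
    · simp [hF]
    · simp [hF]
  have hFe : ∀ w, F (ev x w) = ev (cocPerm x e) w := by
    intro w
    induction w with
    | nil => simp
    | cons l w ih => rw [ev_cons, ev_cons, map_mul, hFl, ih]
  have hFg : ∀ g v m, F g (v, m) = (g • v, m + (F g (v, 0)).2) := by
    intro g v m
    obtain ⟨w, rfl⟩ := hg g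
    rw [hFe, cocPerm_ev x e he, cocPerm_ev x e he]
    simp
  refine ⟨fun g v => (F g (v, 0)).2, ?_, ?_⟩
  · intro g h v
    simp only
    rw [map_mul, Equiv.Perm.mul_apply, hFg h v 0, hFg g (h • v)]
    simp only [zero_add]
    ring
  · intro l v
    simp only
    rw [hFl, cocPerm_ltr x e he]
    simp

theorem exists_cut_cocycle {ι K V : Type} [Group K] [MulAction K V] (x : ι → K) (n : ℕ)
    (hp : Pres x n) (hg : Gens x) (A σ : Set V)
    (tri : ∀ v, ball x n v ⊆ A ∨ ball x n v ⊆ Aᶜ ∨ ball x n v ⊆ σ ∨ Disjoint (ball x n v) σ) :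
    ∃ c : K → V → ℤ, (∀ g h v, c (g * h) v = c g (h • v) + c h v) ∧
      (∀ l v, v ∈ σ → ltr x l • v ∈ σ → c (ltr x l) v = ind A (ltr x l • v) - ind A v) ∧
      (∀ l v, ¬ (v ∈ σ ∧ ltr x l • v ∈ σ) → c (ltr x l) v = 0) := by
  classical
  set e : ι × Bool → V → ℤ := fun l v =>
    if v ∈ σ ∧ ltr x l • v ∈ σ then ind A (ltr x l • v) - ind A v else 0 with hedef
  have he : ∀ i v, e (i, false) (x i • v) = - e (i, true) v := by
    intro i v
    simp only [hedef, ltr_true, ltr_false, inv_smul_smul]
    by_cases h : v ∈ σ ∧ x i • v ∈ σ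
    · rw [if_pos h, if_pos ⟨h.2, h.1⟩]; ring
    · rw [if_neg h, if_neg (fun hh => h ⟨hh.2, hh.1⟩)]; ring
  have hball : ∀ w : List (ι × Bool), w.length ≤ n → ∀ v : V, ev x w • v ∈ ball x n v :=
    fun w hw v => ⟨w, hw, rfl⟩
  have hzero : ∀ v, (∀ l w, (l :: w : List (ι × Bool)).length ≤ n → e l (ev x w • v) = 0) →
      ∀ w : List (ι × Bool), w.length ≤ n → wsum x e w v = 0 := by
    intro v hv w
    induction w with
    | nil => intro _; rfl
    | cons l w ih =>
      intro hw
      simp only [wsum]
      rw [hv l w hw, ih (by simp at hw; omega)]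
      ring
  have hrel : ∀ w : List (ι × Bool), w.length ≤ n → ev x w = 1 → ∀ v, wsum x e w v = 0 := by
    intro w hw hw1 v
    rcases tri v with h | h | h | h
    · apply hzero v _ w hw
      intro l w' hw'
      have h1 := h (hball w' (by simp at hw'; omega) v)
      have h2 := h (hball (l :: w') hw' v)
      rw [ev_cons, mul_smul] at h2
      simp only [hedef]
      rw [ind_of_mem h1, ind_of_mem h2]
      simp
    · apply hzero v _ w hw
      intro l w' hw'
      have h1 := h (hball w' (by simp at hw'; omega) v)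
      have h2 := h (hball (l :: w') hw' v)
      rw [ev_cons, mul_smul] at h2
      simp only [hedef]
      rw [ind_of_notMem h1, ind_of_notMem h2]
      simp
    · have key : ∀ w : List (ι × Bool), w.length ≤ n → wsum x e w v = ind A (ev x w • v) - ind A v := by
        intro w
        induction w with
        | nil => intro _; simp [wsum]
        | cons l w ih =>
          intro hw
          have h1 := h (hball w (by simp at hw; omega) v)
          have h2 := h (hball (l :: w) hw v)
          rw [ev_cons, mul_smul] at h2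
          have h3 : e l (ev x w • v) = ind A (ltr x l • ev x w • v) - ind A (ev x w • v) := by
            simp only [hedef]
            rw [if_pos ⟨h1, h2⟩]
          simp only [wsum]
          rw [h3, ih (by simp at hw; omega), ev_cons, mul_smul]
          ring
      rw [key w hw, hw1]
      simp
    · apply hzero v _ w hw
      intro l w' hw'
      have h1 : ev x w' • v ∉ σ := Set.disjoint_left.1 h (hball w' (by simp at hw'; omega) v)
      simp only [hedef]
      rw [if_neg (fun hh => h1 hh.1)]
  obtain ⟨c, hc1, hc2⟩ := exists_cocycle x n hp hg e he hrel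
  refine ⟨c, hc1, ?_, ?_⟩
  · intro l v h1 h2
    rw [hc2]
    simp only [hedef]
    rw [if_pos ⟨h1, h2⟩]
  · intro l v h
    rw [hc2]
    simp only [hedef]
    rw [if_neg h]

end Pool.Agent.H931
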