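import Pool.Agent.Helper931.Basic

set_option autoImplicit false

namespace Pool.Agent.H931

open Set

theorem pingpong {G α : Type} [Group G] [MulAction G α] (S : Set α) (hS : S.Nonempty)
    (a b₁ b₂ : G)
    (ha : ∀ s, s ∉ S → a • s ∈ S) (ha' : ∀ s, s ∉ S → a⁻¹ • s ∈ S)
    (hb₁ : ∀ s ∈ S, b₁ • s ∉ S) (hb₂ : ∀ s ∈ S, b₂ • s ∉ S)
    (hb₁₂ : ∀ s ∈ S, (b₁⁻¹ * b₂) • s ∉ S) :
    ∃ f : FreeGroup (Fin 2) →* G, Function.Injective f := by
  obtain ⟨b, hb0, hb1⟩ : ∃ b : Fin 2 → G, b 0 = b₁ ∧ b 1 = b₂ := ⟨![b₁, b₂], rfl, rfl⟩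
  have hbS : ∀ i, ∀ s ∈ S, b i • s ∉ S := by
    intro i
    fin_cases i
    · rw [show b ((fun i => i) ⟨0, by norm_num⟩) = b₁ from hb0]; exact hb₁
    · rw [show b ((fun i => i) ⟨1, by norm_num⟩) = b₂ from hb1]; exact hb₂
  -- the two translates are disjoint
  have hdis : ∀ i j, i ≠ j → ∀ s, (b i)⁻¹ • s ∈ S → (b j)⁻¹ • s ∈ S → False := by
    have key : ∀ s, b₁⁻¹ • s ∈ S → b₂⁻¹ • s ∈ S → False := by
      intro s h1 h2
      apply hb₁₂ _ h2
      rw [mul_smul, smul_inv_smul]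
      exact h1
    intro i j hij s h1 h2
    fin_cases i <;> fin_cases j
    · exact hij rfl
    · exact key s (by simpa [hb0] using h1) (by simpa [hb1] using h2)
    · exact key s (by simpa [hb0] using h2) (by simpa [hb1] using h1)
    · exact hij rfl
  -- points of a translate are not in S
  have hout : ∀ i s, (b i)⁻¹ • s ∈ S → s ∉ S := by
    intro i s h1
    have := hbS i _ h1
    rwa [smul_inv_smul] at this
  let c : Fin 2 → G := fun i => a * (b i * a * (b i)⁻¹)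
  let X : Fin 2 → Set α := fun i => {p | (b i)⁻¹ • (a⁻¹ • p) ∈ S}
  let Y : Fin 2 → Set α := fun i => {p | (b i)⁻¹ • ((b i * a * (b i)⁻¹) • p) ∉ S}
  -- Y i is contained in the translate
  have hY1 : ∀ i p, p ∈ Y i → (b i)⁻¹ • p ∈ S := by
    intro i p hp
    have h1 : (b i)⁻¹ • ((b i * a * (b i)⁻¹) • p) ∉ S := hp
    rw [mul_smul, mul_smul, inv_smul_smul] at h1
    by_contra h2
    exact h1 (ha _ h2)
  have hX1 : ∀ i p, p ∈ X i → p ∈ S := by
    intro i p hp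
    have h1 : (b i)⁻¹ • (a⁻¹ • p) ∈ S := hp
    have h2 := ha _ (hout i _ h1)
    rwa [smul_inv_smul] at h2
  refine ⟨FreeGroup.lift c, FreeGroup.injective_lift_of_ping_pong c X Y ?_ ?_ ?_ ?_ ?_ ?_⟩
  · intro i
    obtain ⟨s, hs⟩ := hS
    refine ⟨a • (b i • s), ?_⟩
    show (b i)⁻¹ • (a⁻¹ • (a • (b i • s))) ∈ S
    rw [inv_smul_smul, inv_smul_smul]
    exact hs
  · intro i j hij
    rw [Function.onFun, Set.disjoint_left]
    intro p h1 h2
    exact hdis i j hij _ h1 h2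
  · intro i j hij
    rw [Function.onFun, Set.disjoint_left]
    intro p h1 h2
    exact hdis i j hij _ (hY1 i p h1) (hY1 j p h2)
  · intro i j
    rw [Set.disjoint_left]
    intro p h1 h2
    exact hout j p (hY1 j p h2) (hX1 i p h1)
  · rintro i _ ⟨p, hp, rfl⟩
    show (b i)⁻¹ • (a⁻¹ • (c i • p)) ∈ S
    have h1 : (b i)⁻¹ • ((b i * a * (b i)⁻¹) • p) ∈ S := by
      by_contra h2
      exact hp h2
    have h3 : a⁻¹ • (c i • p) = (b i * a * (b i)⁻¹) • p := by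
      show a⁻¹ • ((a * (b i * a * (b i)⁻¹)) • p) = _
      rw [mul_smul, inv_smul_smul]
    rw [h3]
    exact h1
  · rintro i _ ⟨p, hp, rfl⟩
    show (b i)⁻¹ • ((b i * a * (b i)⁻¹) • ((c⁻¹ i) • p)) ∉ S
    have h1 : (b i)⁻¹ • (a⁻¹ • p) ∉ S := hp
    have h3 : (b i * a * (b i)⁻¹) • ((c⁻¹ i) • p) = a⁻¹ • p := by
      have : c⁻¹ i = (b i * a * (b i)⁻¹)⁻¹ * a⁻¹ := by
        show (a * (b i * a * (b i)⁻¹))⁻¹ = _
        rw [mul_inv_rev]
      rw [this, mul_smul (b i * a * (b i)⁻¹)⁻¹, smul_inv_smul]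
    rw [h3]
    exact h1

end Pool.Agent.H931
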