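import Pool.Agent.Helper931.A1
import Pool.Agent.Helper931.A3

set_option autoImplicit false

namespace Pool.Agent.H931

open Set

theorem eng_pp {K : Type} [Group K] (hF : NoF2 K) (𝔄 𝔅 C : Subgroup K) (N : K → ℤ)
    (h01 : ∀ g, N g = 0 ∨ N g = 1)
    (hA : ∀ a ∈ 𝔄, a ∉ C → ∀ g, N g = 1 → N (g * a) = 0)
    (hB : ∀ b ∈ 𝔅, b ∉ C → ∀ g, N g = 0 → N (g * b) = 1)
    (b0 : K) (hb0 : b0 ∈ 𝔅) (hb0C : b0 ∉ C) (a1 : K) (ha1 : a1 ∈ 𝔄) (ha1C : a1 ∉ C)
    (hCA : C ≤ 𝔄) (hfg : C.FG) : 𝔄.FG := by
  have key : ∀ a2 ∈ 𝔄, a2 ∈ C ∨ a1⁻¹ * a2 ∈ C := by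
    intro a2 ha2
    by_contra hcon
    push Not at hcon
    obtain ⟨h1, h2⟩ := hcon
    apply hF
    let inst : MulAction K K :=
      { smul := fun k g => g * k⁻¹
        one_smul := fun g => by
          show g * (1 : K)⁻¹ = g
          simp
        mul_smul := fun k l g => by
          show g * (k * l)⁻¹ = (g * l⁻¹) * k⁻¹
          rw [mul_inv_rev, mul_assoc] }
    have hS : ({g : K | N g = 1}).Nonempty := by
      rcases h01 1 with h | h
      · exact ⟨1 * b0, hB b0 hb0 hb0C 1 h⟩
      · exact ⟨1, h⟩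
    have hinvB : b0⁻¹ ∈ 𝔅 ∧ b0⁻¹ ∉ C := ⟨𝔅.inv_mem hb0, fun h => hb0C (by simpa using C.inv_mem h)⟩
    have hAinv : ∀ a ∈ 𝔄, a ∉ C → ∀ g, N g = 1 → N (g * a⁻¹) = 0 := by
      intro a ha haC g hg
      exact hA a⁻¹ (𝔄.inv_mem ha) (fun h => haC (by simpa using C.inv_mem h)) g hg
    have hnS : ∀ g : K, g ∉ {g : K | N g = 1} → N g = 0 := by
      intro g hg
      rcases h01 g with h | h
      · exact h
      · exact absurd h hg
    refine @pingpong K K _ inst {g : K | N g = 1} hS b0 a1 a2 ?_ ?_ ?_ ?_ ?_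
    · intro s hs
      show N (s * b0⁻¹) = 1
      exact hB _ hinvB.1 hinvB.2 s (hnS s hs)
    · intro s hs
      show N (s * (b0⁻¹)⁻¹) = 1
      rw [inv_inv]
      exact hB _ hb0 hb0C s (hnS s hs)
    · intro s hs hcon
      have e1 : N (s * a1⁻¹) = 1 := hcon
      have e2 := hAinv a1 ha1 ha1C s hs
      omega
    · intro s hs hcon
      have e1 : N (s * a2⁻¹) = 1 := hcon
      have e2 := hAinv a2 ha2 h1 s hs
      omega
    · intro s hs hcon
      have e1 : N (s * (a1⁻¹ * a2)⁻¹) = 1 := hcon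
      have e2 := hAinv (a1⁻¹ * a2) (𝔄.mul_mem (𝔄.inv_mem ha1) ha2) h2 s hs
      omega
  have heq : 𝔄 = C ⊔ Subgroup.closure {a1} := by
    apply le_antisymm
    · intro a ha
      rcases key a ha with h | h
      · exact Subgroup.mem_sup_left h
      · have e1 : a = a1 * (a1⁻¹ * a) := by group
        rw [e1]
        exact Subgroup.mul_mem _
          (Subgroup.mem_sup_right (Subgroup.subset_closure (Set.mem_singleton a1)))
          (Subgroup.mem_sup_left h)
    · apply sup_le hCA
      rw [Subgroup.closure_le]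
      rintro y rfl
      exact ha1
  rw [heq]
  exact hfg.sup ⟨{a1}, by simp⟩

section eng
variable {ι K V : Type} [Group K] [MulAction K V] {x : ι → K}

/-- the abstract data of the engine -/
structure EngData (x : ι → K) (A σ : Set V) (q : V) (N : K → ℤ) : Prop where
  P1 : ∀ g, Reach x σ q g → N g = ind A (g • q)
  P2 : ∀ (l : ι × Bool) (g : K), ¬ (Reach x σ q g ∧ Reach x σ q (ltr x l * g)) →
    N (ltr x l * g) = N g

theorem eng_N3 {σ : Set V} {q : V} (hq : q ∈ σ) {k : K} (hk : k • q = q)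
    (hkC : k ∉ loops x σ q) {g : K} (hg : Reach x σ q g) : ¬ Reach x σ q (g * k) := by
  intro h
  apply hkC
  rw [mem_loops hq]
  refine ⟨?_, hk⟩
  have h1 : Reach x σ (g • q) g⁻¹ := hg.inv
  have h2 : (g * k) • q = g • q := by rw [mul_smul, hk]
  have h3 := h.mul (h := g⁻¹) (by rw [h2]; exact h1)
  simpa using h3

theorem eng_N4 {n : ℕ} (hn : 1 ≤ n) {A σ : Set V} {q : V} {N : K → ℤ} (hq : q ∈ σ)
    (D : EngData x A σ q N)
    (tri : ∀ v, ball x n v ⊆ A ∨ ball x n v ⊆ Aᶜ ∨ ball x n v ⊆ σ) {g : K}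
    (hg : Reach x (A ∪ σ) q g) : Reach x σ q g ∨ N g = 0 := by
  induction hg with
  | one _ => exact Or.inl (Reach.one hq)
  | step l g hgr hm ih =>
    by_cases h1 : Reach x σ q (ltr x l * g)
    · exact Or.inl h1
    · right
      rw [D.P2 l g (fun h => h1 h.2)]
      rcases ih with h2 | h2
      · have h3 : (ltr x l * g) • q ∉ σ := fun h => h1 (Reach.step l g h2 h)
        have h4 : (ltr x l * g) • q ∈ A := by
          rcases hm with h | h
          · exact h
          · exact absurd h h3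
        have h5 : (ltr x l * g) • q ∈ ball x n (g • q) := by
          rw [mul_smul]
          exact ltr_smul_mem_ball hn l (g • q)
        have h6 : g • q ∈ A := by
          rcases tri (g • q) with h | h | h
          · exact h (mem_ball_self n _)
          · exact absurd h4 (h h5)
          · exact absurd (h h5) h3
        rw [D.P1 g h2, ind_of_mem h6]
      · exact h2

theorem eng_N4b {n : ℕ} (hn : 1 ≤ n) {A σ : Set V} {q : V} {N : K → ℤ} (hq : q ∈ σ)
    (D : EngData x A σ q N)
    (tri : ∀ v, ball x n v ⊆ A ∨ ball x n v ⊆ Aᶜ ∨ ball x n v ⊆ σ) {a : K}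
    (ha : a ∈ loops x (A ∪ σ) q) (haC : a ∉ loops x σ q) {g : K}
    (hg : Reach x σ q g) : N (g * a) = 0 := by
  have haq : a • q = q := by
    have := loops_le_stab (x := x) (A ∪ σ) q ha
    simpa using this
  induction hg with
  | one _ =>
    rw [one_mul]
    have h1 := ((mem_loops (x := x) (T := A ∪ σ) (q := q) (Or.inr hq)).mp ha).1
    rcases eng_N4 hn hq D tri h1 with h | h
    · exact absurd ((mem_loops (x := x) hq).mpr ⟨h, haq⟩) haC
    · exact h
  | step l g hgr hm ih =>
    rw [mul_assoc, D.P2 l (g * a) (fun h => eng_N3 hq haq haC hgr h.1)]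
    exact ih

theorem eng_N5 {n : ℕ} (hn : 1 ≤ n) (hg : Gens x) {A σ : Set V} {q : V} {N : K → ℤ} (hq : q ∈ σ)
    (D : EngData x A σ q N)
    (tri : ∀ v, ball x n v ⊆ A ∨ ball x n v ⊆ Aᶜ ∨ ball x n v ⊆ σ) {a : K}
    (ha : a ∈ loops x (A ∪ σ) q) (haC : a ∉ loops x σ q) (g : K)
    (hgN : N g = 1 ∨ Reach x σ q g) : N (g * a) = 0 := by
  obtain ⟨w, rfl⟩ := hg g
  induction w with
  | nil =>
    rw [ev_nil]
    exact eng_N4b hn hq D tri ha haC (Reach.one hq)
  | cons l w ih =>
    rw [ev_cons] at hgN ⊢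
    by_cases h1 : Reach x σ q (ltr x l * ev x w)
    · exact eng_N4b hn hq D tri ha haC h1
    · have h2 : N (ltr x l * ev x w) = 1 := hgN.resolve_right h1
      have h3 : N (ev x w) = 1 := by
        rw [← D.P2 l (ev x w) (fun h => h1 h.2)]
        exact h2
      have h4 := ih (Or.inl h3)
      by_cases h5 : Reach x σ q (ev x w * a) ∧ Reach x σ q (ltr x l * (ev x w * a))
      · exfalso
        have hainv : a⁻¹ ∈ loops x (A ∪ σ) q := Subgroup.inv_mem _ ha
        have hainvC : a⁻¹ ∉ loops x σ q := fun h => haC (by simpa using Subgroup.inv_mem _ h)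
        have h6 := eng_N4b hn hq D tri hainv hainvC h5.2
        have h7 : ltr x l * (ev x w * a) * a⁻¹ = ltr x l * ev x w := by group
        rw [h7] at h6
        omega
      · rw [mul_assoc, D.P2 l (ev x w * a) h5]
        exact h4

end eng

theorem engine {ι K V : Type} [Group K] [MulAction K V] (x : ι → K) (n : ℕ) (hn : 1 ≤ n)
    (hp : Pres x n) (hg : Gens x) (hF : NoF2 K) (A σ : Set V) (q : V) (hq : q ∈ σ)
    (tri : ∀ v, ball x n v ⊆ A ∨ ball x n v ⊆ Aᶜ ∨ ball x n v ⊆ σ)
    (hfg : (loops x σ q).FG) :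
    (loops x (A ∪ σ) q ≤ loops x σ q) ∨ (loops x (Aᶜ ∪ σ) q ≤ loops x σ q) ∨
      ((loops x (A ∪ σ) q).FG ∧ (loops x (Aᶜ ∪ σ) q).FG) := by
  set σt : Set K := {g | Reach x σ q g} with hσt
  set At : Set K := {g | g • q ∈ A} with hAt
  have hball : ∀ g k : K, k ∈ ball x n g → k • q ∈ ball x n (g • q) := by
    rintro g k ⟨w, hw, rfl⟩
    refine ⟨w, hw, ?_⟩
    rw [smul_eq_mul, mul_smul]
  have htri : ∀ g : K, ball x n g ⊆ At ∨ ball x n g ⊆ Atᶜ ∨ ball x n g ⊆ σt ∨
      Disjoint (ball x n g) σt := by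
    intro g
    rcases tri (g • q) with h | h | h
    · exact Or.inl fun k hk => h (hball g k hk)
    · exact Or.inr (Or.inl fun k hk => h (hball g k hk))
    · have hiff : ∀ w : List (ι × Bool), w.length ≤ n →
          (Reach x σ q g ↔ Reach x σ q (ev x w * g)) := by
        intro w
        induction w with
        | nil => intro _; simp
        | cons l w ih =>
          intro hw
          have hw' : w.length ≤ n := by simp at hw; omega
          rw [ih hw', ev_cons, mul_assoc]
          have hm1 : (ltr x l * (ev x w * g)) • q ∈ σ := by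
            apply h
            refine ⟨l :: w, hw, ?_⟩
            rw [ev_cons, ← mul_smul, mul_assoc]
          have hm2 : (ev x w * g) • q ∈ σ := by
            apply h
            exact ⟨w, hw', by rw [← mul_smul]⟩
          constructor
          · intro hr
            exact Reach.step l _ hr hm1
          · intro hr
            have e1 : ltr x (linv l) * (ltr x l * (ev x w * g)) = ev x w * g := by
              rw [ltr_linv, inv_mul_cancel_left]
            have := Reach.step (linv l) _ hr (by rw [e1]; exact hm2)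
            rwa [e1] at this
      by_cases hgr : Reach x σ q g
      · right; right; left
        rintro k ⟨w, hw, rfl⟩
        exact (hiff w hw).mp hgr
      · right; right; right
        rw [Set.disjoint_left]
        rintro k ⟨w, hw, rfl⟩ hk
        exact hgr ((hiff w hw).mpr hk)
  obtain ⟨c, c1, c2, c3⟩ := exists_cut_cocycle (V := K) x n hp hg At σt htri
  have hind : ∀ g : K, ind At g = ind A (g • q) := by
    intro g
    rcases ind_cases A (g • q) with ⟨h1, h2⟩ | ⟨h1, h2⟩
    · rw [h1, ind_of_mem (show g ∈ At from h2)]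
    · rw [h1, ind_of_notMem (show g ∉ At from h2)]
  set N : K → ℤ := fun g => c g 1 + ind A q with hN
  have hc1 : c 1 1 = 0 := by
    have := c1 1 1 1
    simp at this
    exact this
  have hN1 : N 1 = ind A q := by simp [hN, hc1]
  have hNstep : ∀ (l : ι × Bool) (g : K), N (ltr x l * g) = c (ltr x l) g + N g := by
    intro l g
    simp only [hN]
    rw [c1]
    simp
    ring
  have hP1 : ∀ g, Reach x σ q g → N g = ind A (g • q) := by
    intro g hgr
    induction hgr with
    | one _ => rw [hN1, one_smul]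
    | step l g hgr hm ih =>
      have h1 : ltr x l • g ∈ σt := Reach.step l g hgr hm
      rw [hNstep, c2 l g hgr h1, ih, hind, hind, smul_eq_mul]
      ring
  have hP2 : ∀ (l : ι × Bool) (g : K), ¬ (Reach x σ q g ∧ Reach x σ q (ltr x l * g)) →
      N (ltr x l * g) = N g := by
    intro l g h
    rw [hNstep, c3 l g h, zero_add]
  have hind01 : ∀ (B : Set V) (v : V), ind B v = 0 ∨ ind B v = 1 := by
    intro B v
    rcases ind_cases B v with h | h
    · exact Or.inl h.1
    · exact Or.inr h.1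
  have h01 : ∀ g, N g = 0 ∨ N g = 1 := by
    intro g
    obtain ⟨w, rfl⟩ := hg g
    induction w with
    | nil => rw [ev_nil, hN1]; exact hind01 A q
    | cons l w ih =>
      rw [ev_cons]
      by_cases h : Reach x σ q (ev x w) ∧ Reach x σ q (ltr x l * ev x w)
      · rw [hP1 _ h.2]
        exact hind01 _ _
      · rw [hP2 l _ h]
        exact ih
  have D : EngData x A σ q N := ⟨hP1, hP2⟩
  have hindc : ∀ v : V, ind Aᶜ v = 1 - ind A v := by
    intro v
    rcases ind_cases A v with ⟨h1, h2⟩ | ⟨h1, h2⟩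
    · rw [h1, ind_of_notMem (by simpa using h2)]; rfl
    · rw [h1, ind_of_mem (by simpa using h2)]; rfl
  have D' : EngData x Aᶜ σ q (fun g => 1 - N g) := by
    refine ⟨?_, ?_⟩
    · intro g hgr
      rw [hP1 g hgr, hindc]
    · intro l g h
      rw [hP2 l g h]
  have tri' : ∀ v, ball x n v ⊆ Aᶜ ∨ ball x n v ⊆ Aᶜᶜ ∨ ball x n v ⊆ σ := by
    intro v
    rw [compl_compl]
    rcases tri v with h | h | h
    · exact Or.inr (Or.inl h)
    · exact Or.inl h
    · exact Or.inr (Or.inr h)
  have hA : ∀ a ∈ loops x (A ∪ σ) q, a ∉ loops x σ q → ∀ g, N g = 1 → N (g * a) = 0 :=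
    fun a ha haC g hgN => eng_N5 hn hg hq D tri ha haC g (Or.inl hgN)
  have hB : ∀ b ∈ loops x (Aᶜ ∪ σ) q, b ∉ loops x σ q → ∀ g, N g = 0 → N (g * b) = 1 := by
    intro b hb hbC g hgN
    have := eng_N5 hn hg hq D' tri' hb hbC g (Or.inl (by omega))
    omega
  by_cases hAC : loops x (A ∪ σ) q ≤ loops x σ q
  · exact Or.inl hAC
  by_cases hBC : loops x (Aᶜ ∪ σ) q ≤ loops x σ q
  · exact Or.inr (Or.inl hBC)
  right; right
  rw [SetLike.not_le_iff_exists] at hAC hBC
  obtain ⟨a1, ha1, ha1C⟩ := hAC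
  obtain ⟨b0, hb0, hb0C⟩ := hBC
  constructor
  · exact eng_pp hF _ (loops x (Aᶜ ∪ σ) q) (loops x σ q) N h01 hA hB b0 hb0 hb0C a1 ha1 ha1C
      (loops_mono Set.subset_union_right q) hfg
  · refine eng_pp hF _ (loops x (A ∪ σ) q) (loops x σ q) (fun g => 1 - N g) ?_ ?_ ?_
      a1 ha1 ha1C b0 hb0 hb0C (loops_mono Set.subset_union_right q) hfg
    · intro g
      rcases h01 g with h | h <;> omega
    · intro b hb hbC g h
      have := hB b hb hbC g (by omega)
      omega
    · intro a ha haC g h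
      have := hA a ha haC g (by omega)
      omega

end Pool.Agent.H931
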