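import Pool.Agent.Helper931.Basic

set_option autoImplicit false

namespace Pool.Agent.H931

open Set

theorem loops_fg {ι K V : Type} [Finite ι] [Group K] [MulAction K V] (x : ι → K)
    (T : Set V) (hT : T.Finite) (q : V) : (loops x T q).FG := by
  classical
  rw [Subgroup.fg_iff]
  by_cases hq : q ∈ T
  · obtain ⟨h, hh⟩ : ∃ h : V → K, h = fun v => if v = q then 1 else
        if hv : ∃ k, Reach x T q k ∧ k • q = v then hv.choose else 1 := ⟨_, rfl⟩
    have hq1 : h q = 1 := by rw [hh]; simp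
    have hP : ∀ v, (∃ k, Reach x T q k ∧ k • q = v) → Reach x T q (h v) ∧ h v • q = v := by
      intro v hv
      by_cases hvq : v = q
      · subst hvq
        rw [hq1]
        exact ⟨Reach.one hq, one_smul _ _⟩
      · have : h v = hv.choose := by
          rw [hh]
          simp only [if_neg hvq]
          rw [dif_pos hv]
        rw [this]
        exact hv.choose_spec
    set S : Set K := {k | ∃ (v : V) (l : ι × Bool), v ∈ T ∧ (∃ k', Reach x T q k' ∧ k' • q = v) ∧
      ltr x l • v ∈ T ∧ k = (h (ltr x l • v))⁻¹ * (ltr x l * h v)} with hS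
    have hSfin : S.Finite := by
      have h1 : (T ×ˢ (Set.univ : Set (ι × Bool))).Finite := hT.prod Set.finite_univ
      apply (h1.image (fun p : V × (ι × Bool) =>
        (h (ltr x p.2 • p.1))⁻¹ * (ltr x p.2 * h p.1))).subset
      rintro k ⟨v, l, hv, -, -, rfl⟩
      exact ⟨(v, l), ⟨hv, Set.mem_univ _⟩, rfl⟩
    refine ⟨S, ?_, hSfin⟩
    apply le_antisymm
    · rw [Subgroup.closure_le]
      rintro k ⟨v, l, hv, hr, hlv, rfl⟩
      obtain ⟨h1, h2⟩ := hP v hr
      have h3 : (ltr x l * h v) • q = ltr x l • v := by rw [mul_smul, h2]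
      have h4 : Reach x T q (ltr x l * h v) := Reach.step l _ h1 (by rw [h3]; exact hlv)
      obtain ⟨h5, h6⟩ := hP (ltr x l • v) ⟨_, h4, h3⟩
      show _ ∈ loops x T q
      rw [mem_loops hq]
      constructor
      · apply h4.mul
        have h7 := h5.inv
        rw [h6] at h7
        rw [h3]
        exact h7
      · rw [mul_smul, h3, inv_smul_eq_iff, h6]
    · have hclaim : ∀ g, Reach x T q g → (h (g • q))⁻¹ * g ∈ Subgroup.closure S := by
        intro g hg
        induction hg with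
        | one _ =>
          rw [one_smul, hq1]
          simp
        | step l g hr hm ih =>
          have e : (h ((ltr x l * g) • q))⁻¹ * (ltr x l * g) =
              ((h (ltr x l • (g • q)))⁻¹ * (ltr x l * h (g • q))) * ((h (g • q))⁻¹ * g) := by
            rw [mul_smul]
            group
          rw [e]
          apply Subgroup.mul_mem _ _ ih
          apply Subgroup.subset_closure
          exact ⟨g • q, l, hr.mem, ⟨g, hr, rfl⟩, by rw [← mul_smul]; exact hm, rfl⟩
      rintro g (rfl | ⟨hr, hgq⟩)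
      · exact Subgroup.one_mem _
      · have := hclaim g hr
        rw [hgq, hq1] at this
        simpa using this
  · refine ⟨∅, ?_, Set.finite_empty⟩
    rw [Subgroup.closure_empty]
    apply le_antisymm bot_le
    rintro g (rfl | ⟨hr, -⟩)
    · exact Subgroup.one_mem _
    · exact absurd hr.mem_start hq

theorem conn_side {ι K V : Type} [Group K] [MulAction K V] (x : ι → K) (n : ℕ) (hn : 1 ≤ n)
    (hg : Gens x) (A σ : Set V) (q : V) (hq : q ∈ σ)
    (hconn : ∀ v ∈ σ, ∃ g : K, Reach x σ q g ∧ g • q = v)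
    (tri : ∀ v, ball x n v ⊆ A ∨ ball x n v ⊆ Aᶜ ∨ ball x n v ⊆ σ) :
    ∀ g : K, g • q ∈ A ∪ σ → ∃ h : K, Reach x (A ∪ σ) q h ∧ h • q = g • q := by
  intro g
  obtain ⟨w, rfl⟩ := hg g
  induction w with
  | nil =>
    intro _
    exact ⟨1, Reach.one (Or.inr hq), rfl⟩
  | cons l w ih =>
    intro hm
    rw [ev_cons] at hm ⊢
    by_cases hv : ev x w • q ∈ A ∪ σ
    · obtain ⟨h, h1, h2⟩ := ih hv
      refine ⟨ltr x l * h, Reach.step l h h1 ?_, ?_⟩
      · rw [mul_smul, h2, ← mul_smul]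
        exact hm
      · rw [mul_smul, h2, ← mul_smul]
    · have hself := mem_ball_self (x := x) n (ev x w • q)
      have hlb := ltr_smul_mem_ball (x := x) hn l (ev x w • q)
      have hσ : (ltr x l * ev x w) • q ∈ σ := by
        rcases tri (ev x w • q) with h | h | h
        · exact absurd (Or.inl (h hself)) hv
        · rcases hm with h' | h'
          · rw [mul_smul] at h'
            exact absurd h' (h hlb)
          · exact h'
        · exact absurd (Or.inr (h hself)) hv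
      obtain ⟨g', h1, h2⟩ := hconn _ hσ
      exact ⟨g', h1.mono Set.subset_union_right, h2⟩

theorem A4_step {ι K V : Type} [Group K] [MulAction K V] (x : ι → K) (n : ℕ) (hn : 1 ≤ n)
    (A B σ : Set V) (q : V) (hq : q ∈ σ)
    (hconn : ∀ v ∈ σ, ∃ g : K, Reach x σ q g ∧ g • q = v)
    (tri : ∀ v, ball x n v ⊆ A ∨ ball x n v ⊆ B ∨ ball x n v ⊆ σ)
    (hAB : ∀ v ∈ B, v ∉ A) (M : Subgroup K) (hM : loops x (B ∪ σ) q ≤ M) (l : ι × Bool) (g : K)
    (S1 : g • q ∈ A ∪ σ → ∃ h : K, Reach x (A ∪ σ) q h ∧ h • q = g • q ∧ h⁻¹ * g ∈ M)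
    (S2 : g • q ∈ B ∪ σ → ∃ h : K, Reach x (B ∪ σ) q h ∧ h • q = g • q ∧ h⁻¹ * g ∈ M) :
    (ltr x l * g) • q ∈ A ∪ σ → ∃ h : K, Reach x (A ∪ σ) q h ∧ h • q = (ltr x l * g) • q ∧
      h⁻¹ * (ltr x l * g) ∈ M := by
  intro hm
  by_cases hv : g • q ∈ A ∪ σ
  · obtain ⟨h, h1, h2, h3⟩ := S1 hv
    refine ⟨ltr x l * h, Reach.step l h h1 ?_, ?_, ?_⟩
    · rw [mul_smul, h2, ← mul_smul]
      exact hm
    · rw [mul_smul, h2, ← mul_smul]
    · have e : (ltr x l * h)⁻¹ * (ltr x l * g) = h⁻¹ * g := by group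
      rw [e]
      exact h3
  · have hself := mem_ball_self (x := x) n (g • q)
    have hlb := ltr_smul_mem_ball (x := x) hn l (g • q)
    have hB : ball x n (g • q) ⊆ B := by
      rcases tri (g • q) with h | h | h
      · exact absurd (Or.inl (h hself)) hv
      · exact h
      · exact absurd (Or.inr (h hself)) hv
    have hσ : (ltr x l * g) • q ∈ σ := by
      rcases hm with h' | h'
      · rw [mul_smul] at h'
        exact absurd h' (hAB _ (hB hlb))
      · exact h'
    obtain ⟨h, h1, h2, h3⟩ := S2 (Or.inl (hB hself))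
    have h4 : (ltr x l * h) • q = (ltr x l * g) • q := by rw [mul_smul, h2, ← mul_smul]
    have h5 : Reach x (B ∪ σ) q (ltr x l * h) :=
      Reach.step l h h1 (by rw [h4]; exact Or.inr hσ)
    obtain ⟨h', k1, k2⟩ := hconn _ hσ
    have k3 : Reach x (B ∪ σ) q (h'⁻¹ * (ltr x l * h)) := by
      apply h5.mul
      have k4 := (k1.mono (T' := B ∪ σ) Set.subset_union_right).inv
      rw [k2] at k4
      rw [h4]
      exact k4
    have k5 : (h'⁻¹ * (ltr x l * h)) • q = q := by
      rw [mul_smul, h4, inv_smul_eq_iff, k2]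
    have k6 : h'⁻¹ * (ltr x l * h) ∈ M := hM ((mem_loops (show q ∈ B ∪ σ from Or.inr hq)).2 ⟨k3, k5⟩)
    refine ⟨h', k1.mono Set.subset_union_right, k2, ?_⟩
    have e : h'⁻¹ * (ltr x l * g) = (h'⁻¹ * (ltr x l * h)) * (h⁻¹ * g) := by group
    rw [e]
    exact M.mul_mem k6 h3

theorem stab_le_sup {ι K V : Type} [Group K] [MulAction K V] (x : ι → K) (n : ℕ) (hn : 1 ≤ n)
    (hg : Gens x) (A σ : Set V) (q : V) (hq : q ∈ σ)
    (hconn : ∀ v ∈ σ, ∃ g : K, Reach x σ q g ∧ g • q = v)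
    (tri : ∀ v, ball x n v ⊆ A ∨ ball x n v ⊆ Aᶜ ∨ ball x n v ⊆ σ) :
    MulAction.stabilizer K q ≤ loops x (A ∪ σ) q ⊔ loops x (Aᶜ ∪ σ) q := by
  obtain ⟨M, hMdef⟩ : ∃ M : Subgroup K, M = loops x (A ∪ σ) q ⊔ loops x (Aᶜ ∪ σ) q := ⟨_, rfl⟩
  have hM1 : loops x (A ∪ σ) q ≤ M := by rw [hMdef]; exact le_sup_left
  have hM2 : loops x (Aᶜ ∪ σ) q ≤ M := by rw [hMdef]; exact le_sup_right
  rw [← hMdef]
  have hclaim : ∀ w : List (ι × Bool),
      (ev x w • q ∈ A ∪ σ → ∃ h : K, Reach x (A ∪ σ) q h ∧ h • q = ev x w • q ∧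
        h⁻¹ * ev x w ∈ M) ∧
      (ev x w • q ∈ Aᶜ ∪ σ → ∃ h : K, Reach x (Aᶜ ∪ σ) q h ∧ h • q = ev x w • q ∧
        h⁻¹ * ev x w ∈ M) := by
    intro w
    induction w with
    | nil =>
      refine ⟨fun _ => ⟨1, Reach.one (Or.inr hq), rfl, ?_⟩,
        fun _ => ⟨1, Reach.one (Or.inr hq), rfl, ?_⟩⟩
      · simp
      · simp
    | cons l w ih =>
      obtain ⟨S1, S2⟩ := ih
      rw [ev_cons]
      constructor
      · exact A4_step x n hn A Aᶜ σ q hq hconn tri (fun v hv => hv) M hM2 l _ S1 S2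
      · refine A4_step x n hn Aᶜ A σ q hq hconn ?_ (fun v hv hv' => hv' hv) M hM1 l _ S2 S1
        intro v
        rcases tri v with h | h | h
        · exact Or.inr (Or.inl h)
        · exact Or.inl h
        · exact Or.inr (Or.inr h)
  intro g hgs
  have hgq : g • q = q := hgs
  obtain ⟨w, rfl⟩ := hg g
  obtain ⟨h, h1, h2, h3⟩ := (hclaim w).1 (by rw [hgq]; exact Or.inr hq)
  rw [hgq] at h2
  have h4 : h ∈ M := hM1 ((mem_loops (show q ∈ A ∪ σ from Or.inr hq)).2 ⟨h1, h2⟩)
  have e : ev x w = h * (h⁻¹ * ev x w) := by group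
  rw [e]
  exact M.mul_mem h4 h3

end Pool.Agent.H931
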