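import Pool.Agent.Helper931.A4
import Pool.Agent.Helper931.A2

set_option autoImplicit false

namespace Pool.Agent.H931

open Set

theorem Reach_shift {ι K W : Type} [Group K] [MulAction K W] {x : ι → K} {T : Set W} {v : W}
    (s : W → W) (hs : ∀ (g : K) (w : W), s (g • w) = g • s w) (hsT : ∀ w ∈ T, s w ∈ T)
    {g : K} (h : Reach x T v g) : Reach x T (s v) g := by
  induction h with
  | one h => exact Reach.one (hsT _ h)
  | step l g _ hm ih =>
    refine Reach.step l g ih ?_
    rw [← hs]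
    exact hsT _ hm

theorem shift_lemma {ι K W : Type} [Group K] [MulAction K W] (x : ι → K) (hg : Gens x)
    (T : Set W) (q' : W) (hq : q' ∈ T)
    (s : W → W) (hs : ∀ (g : K) (w : W), s (g • w) = g • s w) (hsT : ∀ w ∈ T, s w ∈ T)
    (hlarge : ∀ w : W, ∃ k0 : ℕ, ∀ k ≥ k0, s^[k] w ∈ T) (h : K) (hh : Reach x T q' h)
    (hhq : h • q' = s q')
    (C : Subgroup K) (hC : loops x T q' ≤ C) (g : K) (hgq : g • q' = q') :
    g ∈ C ⊔ Subgroup.zpowers h := by
  have hsk : ∀ (k : ℕ) (g : K) (w : W), s^[k] (g • w) = g • s^[k] w := by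
    intro k
    induction k with
    | zero => intro g w; rfl
    | succ k ih => intro g w; rw [Function.iterate_succ_apply, Function.iterate_succ_apply, hs, ih]
  have hskT : ∀ (k : ℕ), ∀ w ∈ T, s^[k] w ∈ T := by
    intro k
    induction k with
    | zero => intro w hw; exact hw
    | succ k ih => intro w hw; rw [Function.iterate_succ_apply]; exact ih _ (hsT _ hw)
  have hpow : ∀ k : ℕ, Reach x T q' (h ^ k) ∧ h ^ k • q' = s^[k] q' := by
    intro k
    induction k with
    | zero => exact ⟨by rw [pow_zero]; exact Reach.one hq, by rw [pow_zero, one_smul]; rfl⟩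
    | succ k ih =>
      refine ⟨?_, ?_⟩
      · rw [pow_succ']
        refine Reach.mul ih.1 ?_
        rw [ih.2]
        exact Reach_shift (s^[k]) (hsk k) (hskT k) hh
      · rw [pow_succ', mul_smul, ih.2, ← hsk, hhq, Function.iterate_succ_apply]
  have hword : ∀ (w : List (ι × Bool)) (v : W), ∃ k0 : ℕ, ∀ k ≥ k0,
      Reach x T (s^[k] v) (ev x w) := by
    intro w v
    induction w with
    | nil =>
      obtain ⟨k0, hk0⟩ := hlarge v
      exact ⟨k0, fun k hk => by rw [ev_nil]; exact Reach.one (hk0 k hk)⟩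
    | cons l w ih =>
      obtain ⟨k1, hk1⟩ := ih
      obtain ⟨k2, hk2⟩ := hlarge ((ltr x l * ev x w) • v)
      refine ⟨max k1 k2, fun k hk => ?_⟩
      rw [ev_cons]
      refine Reach.step l _ (hk1 k (le_trans (le_max_left _ _) hk)) ?_
      rw [← hsk]
      exact hk2 k (le_trans (le_max_right _ _) hk)
  obtain ⟨w, rfl⟩ := hg g
  obtain ⟨k0, hk0⟩ := hword w q'
  have h1 := hk0 k0 le_rfl
  have h2 := hpow k0
  rw [← h2.2] at h1
  have h3 : Reach x T q' (ev x w * h ^ k0) := h2.1.mul h1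
  have h4 : (ev x w * h ^ k0) • q' = h ^ k0 • q' := by
    rw [mul_smul, h2.2, ← hsk, hgq]
  have h5 : Reach x T q' ((h ^ k0)⁻¹ * (ev x w * h ^ k0)) := by
    refine h3.mul ?_
    rw [h4]
    exact h2.1.inv
  have h6 : ((h ^ k0)⁻¹ * (ev x w * h ^ k0)) ∈ C := by
    apply hC
    right
    refine ⟨h5, ?_⟩
    rw [mul_smul, h4, inv_smul_smul]
  have h7 : ev x w = h ^ k0 * ((h ^ k0)⁻¹ * (ev x w * h ^ k0)) * (h ^ k0)⁻¹ := by group
  have hz : h ^ k0 ∈ C ⊔ Subgroup.zpowers h :=
    (le_sup_right : Subgroup.zpowers h ≤ C ⊔ Subgroup.zpowers h) (Subgroup.npow_mem_zpowers h k0)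
  rw [h7]
  exact Subgroup.mul_mem _ (Subgroup.mul_mem _ hz ((le_sup_left : C ≤ _) h6))
    (Subgroup.inv_mem _ hz)

/-- the action on the cyclic cover -/
@[reducible] def covAct {K V : Type} [Group K] [MulAction K V] (c : K → V → ℤ)
    (hc : ∀ g h v, c (g * h) v = c g (h • v) + c h v) : MulAction K (V × ℤ) where
  smul g w := (g • w.1, w.2 + c g w.1)
  one_smul w := by
    have h1 : c 1 w.1 = 0 := by
      have := hc 1 1 w.1
      rw [one_smul, one_mul] at this
      linarith
    show ((1 : K) • w.1, w.2 + c 1 w.1) = w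
    rw [h1, one_smul, add_zero]
  mul_smul g h w := by
    show ((g * h) • w.1, w.2 + c (g * h) w.1) = (g • h • w.1, w.2 + c h w.1 + c g (h • w.1))
    rw [hc, mul_smul]
    congr 1
    ring

theorem c_word {ι K V : Type} [Group K] [MulAction K V] (x : ι → K) (c : K → V → ℤ)
    (hc : ∀ g h v, c (g * h) v = c g (h • v) + c h v) (v : V) (n : ℕ) (f : V → ℤ)
    (hf : ∀ l, ∀ u ∈ ball x n v, ltr x l • u ∈ ball x n v →
      c (ltr x l) u = f (ltr x l • u) - f u) :
    ∀ w : List (ι × Bool), w.length ≤ n → c (ev x w) v = f (ev x w • v) - f v := by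
  intro w
  induction w with
  | nil =>
    intro _
    have := hc 1 1 v
    rw [one_smul, one_mul] at this
    rw [ev_nil, one_smul]
    linarith
  | cons l w ih =>
    intro hl
    rw [List.length_cons] at hl
    have h1 := ih (by omega)
    rw [ev_cons, hc, h1, hf l (ev x w • v) ⟨w, by omega, rfl⟩
      ⟨l :: w, by rw [List.length_cons]; exact hl, by rw [ev_cons, mul_smul]⟩, mul_smul]
    ring

theorem nonsep {ι K V : Type} [Finite ι] [Group K] [MulAction K V] (x : ι → K) (n : ℕ)
    (hn : 1 ≤ n) (hp : Pres x n) (hg : Gens x) (hF : NoF2 K) (A σ : Set V) (q : V) (hq : q ∈ σ)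
    (hfin : σ.Finite)
    (hconn : ∀ v ∈ σ, ∃ g : K, Reach x σ q g ∧ g • q = v)
    (tri : ∀ v, ball x n v ⊆ A ∨ ball x n v ⊆ Aᶜ ∨ ball x n v ⊆ σ ∨ Disjoint (ball x n v) σ)
    (c : K → V → ℤ) (hc : ∀ g h v, c (g * h) v = c g (h • v) + c h v)
    (hc1 : ∀ l v, v ∈ σ → ltr x l • v ∈ σ → c (ltr x l) v = ind A (ltr x l • v) - ind A v)
    (hc0 : ∀ l v, ¬ (v ∈ σ ∧ ltr x l • v ∈ σ) → c (ltr x l) v = 0)
    (t : K) (ht : t • q = q) (hct : c t q ≠ 0) : (MulAction.stabilizer K q).FG := by
  let _ : MulAction K (V × ℤ) := covAct c hc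
  have sm1 : ∀ (g : K) (w : V × ℤ), (g • w).1 = g • w.1 := fun _ _ => rfl
  have sm2 : ∀ (g : K) (w : V × ℤ), (g • w).2 = w.2 + c g w.1 := fun _ _ => rfl
  have smk : ∀ (g : K) (v : V) (m : ℤ), g • ((v, m) : V × ℤ) = (g • v, m + c g v) :=
    fun _ _ _ => rfl
  have c1 : ∀ v, c 1 v = 0 := by
    intro v
    have := hc 1 1 v
    rw [one_smul, one_mul] at this
    linarith
  have cinv : ∀ g : K, g • q = q → c g⁻¹ q = - c g q := by
    intro g hgq
    have h1 := hc g g⁻¹ q
    have h2 : g⁻¹ • q = q := by rw [inv_smul_eq_iff, hgq]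
    rw [mul_inv_cancel, c1, h2] at h1
    linarith
  -- the generator of the image
  obtain ⟨d, hd, t0, ht0, hct0, hdiv⟩ : ∃ d : ℤ, 0 < d ∧ ∃ t0 : K, t0 • q = q ∧ c t0 q = d ∧
      ∀ g : K, g • q = q → ∃ j : ℤ, c g q = j * d := by
    let H : AddSubgroup ℤ :=
      { carrier := {z | ∃ g : K, g • q = q ∧ c g q = z}
        zero_mem' := ⟨1, one_smul _ _, c1 q⟩
        add_mem' := by
          rintro a b ⟨g, hg1, hg2⟩ ⟨h, hh1, hh2⟩
          exact ⟨g * h, by rw [mul_smul, hh1, hg1], by rw [hc, hh1, hg2, hh2]⟩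
        neg_mem' := by
          rintro a ⟨g, hg1, hg2⟩
          exact ⟨g⁻¹, by rw [inv_smul_eq_iff, hg1], by rw [cinv g hg1, hg2]⟩ }
    obtain ⟨a, ha⟩ := Int.subgroup_cyclic H
    have haH : a ∈ H := by rw [ha]; exact AddSubgroup.subset_closure rfl
    have hall : ∀ z ∈ H, ∃ j : ℤ, z = j * a := by
      intro z hz
      rw [ha, AddSubgroup.mem_closure_singleton] at hz
      obtain ⟨j, hj⟩ := hz
      exact ⟨j, by rw [← hj, smul_eq_mul]⟩
    have ha0 : a ≠ 0 := by
      rintro rfl
      obtain ⟨j, hj⟩ := hall (c t q) ⟨t, ht, rfl⟩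
      exact hct (by rw [hj]; ring)
    obtain ⟨t1, ht1, ht1'⟩ := haH
    rcases lt_or_gt_of_ne ha0 with hneg | hpos
    · refine ⟨-a, by omega, t1⁻¹, by rw [inv_smul_eq_iff, ht1], by rw [cinv t1 ht1, ht1'], ?_⟩
      intro g hgq
      obtain ⟨j, hj⟩ := hall (c g q) ⟨g, hgq, rfl⟩
      exact ⟨-j, by rw [hj]; ring⟩
    · exact ⟨a, hpos, t1, ht1, ht1', fun g hgq => hall (c g q) ⟨g, hgq, rfl⟩⟩
  let A' : Set (V × ℤ) := {w | w.2 ≤ 0}
  let σ' : Set (V × ℤ) := {w | w.1 ∈ σ ∧ w.2 = ind A w.1}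
  let q' : V × ℤ := (q, ind A q)
  have hq' : q' ∈ σ' := ⟨hq, rfl⟩
  have tri' : ∀ v' : V × ℤ, ball x n v' ⊆ A' ∨ ball x n v' ⊆ A'ᶜ ∨ ball x n v' ⊆ σ' := by
    rintro ⟨v, m⟩
    have key : ∀ f : V → ℤ, (∀ l, ∀ u ∈ ball x n v, ltr x l • u ∈ ball x n v →
        c (ltr x l) u = f (ltr x l • u) - f u) →
        ∀ u' ∈ ball x n ((v, m) : V × ℤ), u'.1 ∈ ball x n v ∧ u'.2 = m + f u'.1 - f v := by
      rintro f hf u' ⟨w, hw, rfl⟩
      refine ⟨⟨w, hw, rfl⟩, ?_⟩
      rw [sm1, sm2]
      show m + c (ev x w) v = m + f (ev x w • v) - f v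
      rw [c_word x c hc v n f hf w hw]
      ring
    have hconst : ∀ f : V → ℤ, (∀ l, ∀ u ∈ ball x n v, ltr x l • u ∈ ball x n v →
        c (ltr x l) u = f (ltr x l • u) - f u) → (∀ u ∈ ball x n v, f u = f v) →
        ball x n ((v, m) : V × ℤ) ⊆ A' ∨ ball x n ((v, m) : V × ℤ) ⊆ A'ᶜ := by
      intro f hf hfc
      by_cases hm : m ≤ 0
      · left
        intro u' hu'
        have h1 := key f hf u' hu'
        have h2 := hfc _ h1.1
        show u'.2 ≤ 0
        rw [h1.2, h2]
        linarith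
      · right
        intro u' hu'
        have h1 := key f hf u' hu'
        have h2 := hfc _ h1.1
        show ¬ (u'.2 ≤ 0)
        rw [h1.2, h2]
        intro h3
        apply hm
        linarith
    have hvb : v ∈ ball x n v := mem_ball_self n v
    have caseA : (∀ u ∈ ball x n v, ind A u = ind A v) →
        ball x n ((v, m) : V × ℤ) ⊆ A' ∨ ball x n ((v, m) : V × ℤ) ⊆ A'ᶜ := by
      intro hcst
      apply hconst (ind A) _ hcst
      intro l u hu hlu
      by_cases hb : u ∈ σ ∧ ltr x l • u ∈ σ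
      · exact hc1 l u hb.1 hb.2
      · rw [hc0 l u hb, hcst _ hu, hcst _ hlu]
        ring
    rcases tri v with h | h | h | h
    · have := caseA (fun u hu => by rw [ind_of_mem (h hu), ind_of_mem (h hvb)])
      rcases this with h' | h'
      · exact Or.inl h'
      · exact Or.inr (Or.inl h')
    · have := caseA (fun u hu => by rw [ind_of_notMem (h hu), ind_of_notMem (h hvb)])
      rcases this with h' | h'
      · exact Or.inl h'
      · exact Or.inr (Or.inl h')
    · have hf : ∀ l, ∀ u ∈ ball x n v, ltr x l • u ∈ ball x n v →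
          c (ltr x l) u = ind A (ltr x l • u) - ind A u := fun l u hu hlu => hc1 l u (h hu) (h hlu)
      have hk := key (ind A) hf
      rcases lt_trichotomy m (ind A v) with hm | hm | hm
      · left
        intro u' hu'
        have h1 := hk u' hu'
        show u'.2 ≤ 0
        rcases ind_cases A u'.1 with ⟨h2, _⟩ | ⟨h2, _⟩ <;> rw [h1.2, h2] <;> omega
      · right; right
        intro u' hu'
        have h1 := hk u' hu'
        refine ⟨h h1.1, ?_⟩
        rw [h1.2, hm]
        ring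
      · right; left
        intro u' hu'
        have h1 := hk u' hu'
        show ¬ (u'.2 ≤ 0)
        rcases ind_cases A u'.1 with ⟨h2, _⟩ | ⟨h2, _⟩ <;> rw [h1.2, h2] <;> omega
    · have := hconst (fun _ => 0) (fun l u hu hlu => by
        rw [hc0 l u (fun hb => Set.disjoint_left.1 h hu hb.1)]; simp) (fun _ _ => rfl)
      rcases this with h' | h'
      · exact Or.inl h'
      · exact Or.inr (Or.inl h')
  have tri'' : ∀ v' : V × ℤ, ball x n v' ⊆ A'ᶜ ∨ ball x n v' ⊆ A'ᶜᶜ ∨ ball x n v' ⊆ σ' := by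
    intro v'
    rw [compl_compl]
    rcases tri' v' with h | h | h
    · exact Or.inr (Or.inl h)
    · exact Or.inl h
    · exact Or.inr (Or.inr h)
  have hfin' : σ'.Finite := by
    apply (hfin.image (fun v => ((v, ind A v) : V × ℤ))).subset
    rintro ⟨v, m⟩ ⟨h1, h2⟩
    exact ⟨v, h1, by show (v, ind A v) = (v, m); rw [show m = ind A v from h2]⟩
  have hreach : ∀ g : K, Reach x σ q g → Reach x σ' q' g ∧ g • q' = (g • q, ind A (g • q)) := by
    intro g hg'
    induction hg' with
    | one h => exact ⟨Reach.one hq', by rw [one_smul, one_smul]⟩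
    | step l g hr hm ih =>
      have hst : (ltr x l * g) • q' = ((ltr x l * g) • q, ind A ((ltr x l * g) • q)) := by
        rw [mul_smul, ih.2, smk, mul_smul, hc1 l (g • q) hr.mem (by rw [← mul_smul]; exact hm)]
        congr 1
        ring
      refine ⟨Reach.step l g ih.1 ?_, hst⟩
      rw [hst]
      exact ⟨hm, rfl⟩
  have hconn' : ∀ v' ∈ σ', ∃ g : K, Reach x σ' q' g ∧ g • q' = v' := by
    rintro ⟨v, m⟩ ⟨h1, h2⟩
    obtain ⟨g, hg1, hg2⟩ := hconn v h1
    obtain ⟨h3, h4⟩ := hreach g hg1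
    refine ⟨g, h3, ?_⟩
    rw [h4, hg2]
    rw [show m = ind A v from h2]
  have hCfg : (loops x σ' q').FG := loops_fg x σ' hfin' q'
  have stab_iff : ∀ g : K, g • q' = q' ↔ (g • q = q ∧ c g q = 0) := by
    intro g
    show g • ((q, ind A q) : V × ℤ) = (q, ind A q) ↔ _
    rw [smk, Prod.mk.injEq]
    constructor
    · rintro ⟨h1, h2⟩; exact ⟨h1, by linarith⟩
    · rintro ⟨h1, h2⟩; exact ⟨h1, by rw [h2]; ring⟩
  have czpow : ∀ h : K, h • q = q → ∀ j : ℤ, h ^ j • q = q ∧ c (h ^ j) q = j * c h q := by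
    intro h hhq
    have hnat : ∀ j : ℕ, h ^ j • q = q ∧ c (h ^ j) q = j * c h q := by
      intro j
      induction j with
      | zero => exact ⟨by rw [pow_zero, one_smul], by rw [pow_zero, c1]; simp⟩
      | succ j ih =>
        refine ⟨by rw [pow_succ, mul_smul, hhq, ih.1], ?_⟩
        rw [pow_succ, hc, hhq, ih.2]
        push_cast
        ring
    intro j
    obtain ⟨k, rfl | rfl⟩ := j.eq_nat_or_neg
    · rw [zpow_natCast]
      exact hnat k
    · rw [zpow_neg, zpow_natCast]
      refine ⟨by rw [inv_smul_eq_iff, (hnat k).1], ?_⟩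
      rw [cinv _ (hnat k).1, (hnat k).2]
      ring
  have final : ∀ (X : Subgroup K) (h : K), X.FG → X ≤ MulAction.stabilizer K q → h • q = q →
      (c h q = d ∨ c h q = -d) → (∀ g : K, g • q' = q' → g ∈ X ⊔ Subgroup.zpowers h) →
      (MulAction.stabilizer K q).FG := by
    intro X h hX hXs hhq hch hall
    have heq : MulAction.stabilizer K q = X ⊔ Subgroup.zpowers h := by
      apply le_antisymm
      · intro g hgm
        have hgq : g • q = q := hgm
        obtain ⟨j, hj⟩ := hdiv g hgq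
        obtain ⟨i, hi⟩ : ∃ i : ℤ, c g q + i * c h q = 0 := by
          rcases hch with h1 | h1
          · exact ⟨-j, by rw [hj, h1]; ring⟩
          · exact ⟨j, by rw [hj, h1]; ring⟩
        have h1 := czpow h hhq i
        have h2 : (g * h ^ i) • q' = q' := by
          rw [stab_iff]
          refine ⟨by rw [mul_smul, h1.1, hgq], ?_⟩
          rw [hc, h1.1, h1.2, hi]
        have h3 := hall _ h2
        have h4 : h ^ i ∈ X ⊔ Subgroup.zpowers h :=
          (le_sup_right : Subgroup.zpowers h ≤ _) ⟨i, rfl⟩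
        have h5 : g = (g * h ^ i) * (h ^ i)⁻¹ := by group
        rw [h5]
        exact Subgroup.mul_mem _ h3 (Subgroup.inv_mem _ h4)
      · apply sup_le hXs
        rw [Subgroup.zpowers_le]
        exact hhq
    rw [heq]
    apply Subgroup.FG.sup hX
    rw [Subgroup.zpowers_eq_closure]
    exact ⟨{h}, by simp⟩
  have hle_stab : ∀ T : Set (V × ℤ), loops x T q' ≤ MulAction.stabilizer K q := by
    intro T g hg'
    have h1 := loops_le_stab T q' hg'
    have h2 : g • q' = q' := h1
    exact ((stab_iff g).1 h2).1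
  have hind01 : ∀ v, 0 ≤ ind A v ∧ ind A v ≤ 1 := by
    intro v
    rcases ind_cases A v with ⟨h1, _⟩ | ⟨h1, _⟩ <;> rw [h1] <;> norm_num
  rcases engine x n hn hp hg hF A' σ' q' hq' tri' hCfg with hβ | hγ | ⟨hα1, hα2⟩
  · -- shifts down
    have hpt : (t0⁻¹ : K) • q' = (q, ind A q - d) := by
      show (t0⁻¹ : K) • ((q, ind A q) : V × ℤ) = _
      rw [smk, cinv t0 ht0, hct0]
      congr 1
      rw [inv_smul_eq_iff, ht0]
    have hmem : (t0⁻¹ : K) • q' ∈ A' ∪ σ' := by
      left
      rw [hpt]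
      show ind A q - d ≤ 0
      have := (hind01 q).2
      omega
    obtain ⟨h, hh1, hh2⟩ := conn_side x n hn hg A' σ' q' hq' hconn' tri' _ hmem
    rw [hpt] at hh2
    have hh3 : h • q = q ∧ c h q = -d := by
      have : h • ((q, ind A q) : V × ℤ) = (q, ind A q - d) := hh2
      rw [smk, Prod.mk.injEq] at this
      exact ⟨this.1, by linarith [this.2]⟩
    apply final (loops x σ' q') h hCfg (hle_stab σ') hh3.1 (Or.inr hh3.2)
    have hit : ∀ (k : ℕ) (w : V × ℤ), (fun w : V × ℤ => (w.1, w.2 - d))^[k] w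
        = (w.1, w.2 - k * d) := by
      intro k
      induction k with
      | zero => intro w; simp
      | succ k ih =>
        intro w
        rw [Function.iterate_succ_apply, ih]
        show (w.1, w.2 - d - k * d) = (w.1, w.2 - ((k + 1 : ℕ) : ℤ) * d)
        congr 1
        push_cast
        ring
    apply shift_lemma x hg (A' ∪ σ') q' (Or.inr hq') (fun w => (w.1, w.2 - d))
    · intro g w
      show (g • w.1, w.2 + c g w.1 - d) = (g • w.1, w.2 - d + c g w.1)
      congr 1
      ring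
    · rintro w (hw | hw)
      · left
        have : w.2 ≤ 0 := hw
        show w.2 - d ≤ 0
        omega
      · left
        have h1 : w.2 = ind A w.1 := hw.2
        have h2 := (hind01 w.1).2
        show w.2 - d ≤ 0
        omega
    · intro w
      refine ⟨w.2.toNat, fun k hk => ?_⟩
      left
      rw [hit]
      show w.2 - k * d ≤ 0
      have h1 : w.2 ≤ w.2.toNat := Int.self_le_toNat _
      have h2 : (w.2.toNat : ℤ) ≤ k := by exact_mod_cast hk
      have h3 : (k : ℤ) ≤ k * d := le_mul_of_one_le_right (by positivity) (by omega)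
      omega
    · exact hh1
    · exact hh2
    · exact hβ
  · -- shifts up
    have hpt : t0 • q' = (q, ind A q + d) := by
      show t0 • ((q, ind A q) : V × ℤ) = _
      rw [smk, hct0, ht0]
    have hmem : t0 • q' ∈ A'ᶜ ∪ σ' := by
      left
      rw [hpt]
      show ¬ (ind A q + d ≤ 0)
      have := (hind01 q).1
      omega
    obtain ⟨h, hh1, hh2⟩ := conn_side x n hn hg A'ᶜ σ' q' hq' hconn' tri'' _ hmem
    rw [hpt] at hh2
    have hh3 : h • q = q ∧ c h q = d := by
      have : h • ((q, ind A q) : V × ℤ) = (q, ind A q + d) := hh2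
      rw [smk, Prod.mk.injEq] at this
      exact ⟨this.1, by linarith [this.2]⟩
    apply final (loops x σ' q') h hCfg (hle_stab σ') hh3.1 (Or.inl hh3.2)
    have hit : ∀ (k : ℕ) (w : V × ℤ), (fun w : V × ℤ => (w.1, w.2 + d))^[k] w
        = (w.1, w.2 + k * d) := by
      intro k
      induction k with
      | zero => intro w; simp
      | succ k ih =>
        intro w
        rw [Function.iterate_succ_apply, ih]
        show (w.1, w.2 + d + k * d) = (w.1, w.2 + ((k + 1 : ℕ) : ℤ) * d)
        congr 1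
        push_cast
        ring
    apply shift_lemma x hg (A'ᶜ ∪ σ') q' (Or.inr hq') (fun w => (w.1, w.2 + d))
    · intro g w
      show (g • w.1, w.2 + c g w.1 + d) = (g • w.1, w.2 + d + c g w.1)
      congr 1
      ring
    · rintro w (hw | hw)
      · left
        have : ¬ (w.2 ≤ 0) := hw
        show ¬ (w.2 + d ≤ 0)
        omega
      · left
        have h1 : w.2 = ind A w.1 := hw.2
        have h2 := (hind01 w.1).1
        show ¬ (w.2 + d ≤ 0)
        omega
    · intro w
      refine ⟨(1 - w.2).toNat, fun k hk => ?_⟩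
      left
      rw [hit]
      show ¬ (w.2 + k * d ≤ 0)
      have h1 : 1 - w.2 ≤ (1 - w.2).toNat := Int.self_le_toNat _
      have h2 : ((1 - w.2).toNat : ℤ) ≤ k := by exact_mod_cast hk
      have h3 : (k : ℤ) ≤ k * d := le_mul_of_one_le_right (by positivity) (by omega)
      omega
    · exact hh1
    · exact hh2
    · exact hγ
  · have hsup := stab_le_sup x n hn hg A' σ' q' hq' hconn' tri'
    apply final (loops x (A' ∪ σ') q' ⊔ loops x (A'ᶜ ∪ σ') q') t0 (Subgroup.FG.sup hα1 hα2)
      (sup_le (hle_stab _) (hle_stab _)) ht0 (Or.inl hct0)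
    intro g hgq
    exact Subgroup.mem_sup_left (hsup hgq)

end Pool.Agent.H931
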