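import Mathlib

set_option autoImplicit false

namespace Pool.Agent.H931

open Set

/-- the value of a letter -/
def ltr {ι K : Type} [Group K] (x : ι → K) (l : ι × Bool) : K := cond l.2 (x l.1) (x l.1)⁻¹

/-- the value of a word -/
def ev {ι K : Type} [Group K] (x : ι → K) (w : List (ι × Bool)) : K := (w.map (ltr x)).prod

/-- `Reach x T v g`: some word with value `g` labels a path from `v` staying inside `T`
(read from right to left). -/
inductive Reach {ι K V : Type} [Group K] [MulAction K V] (x : ι → K) (T : Set V) (v : V) :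
    K → Prop
  | one : v ∈ T → Reach x T v 1
  | step (l : ι × Bool) (g : K) : Reach x T v g → (ltr x l * g) • v ∈ T →
      Reach x T v (ltr x l * g)

/-- ball of radius `n` in the Schreier graph -/
def ball {ι K V : Type} [Group K] [MulAction K V] (x : ι → K) (n : ℕ) (v : V) : Set V :=
  {u | ∃ w : List (ι × Bool), w.length ≤ n ∧ ev x w • v = u}

/-- all relations of length at most `n` suffice -/
def Pres {ι K : Type} [Group K] (x : ι → K) (n : ℕ) : Prop :=
  ∀ (G : Type) [Group G] (f : ι → G),
    (∀ w : List (ι × Bool), w.length ≤ n → ev x w = 1 → ev f w = 1) →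
    ∃ F : K →* G, ∀ i, F (x i) = f i

/-- every element is the value of a word -/
def Gens {ι K : Type} [Group K] (x : ι → K) : Prop := ∀ g : K, ∃ w : List (ι × Bool), ev x w = g

def NoF2 (K : Type) [Group K] : Prop :=
  ¬ ∃ f : FreeGroup (Fin 2) →* K, Function.Injective f

/-- indicator of the complement, integer valued -/
noncomputable def ind {V : Type} (A : Set V) (v : V) : ℤ := by
  classical exact if v ∈ A then 0 else 1

section
variable {ι K V : Type} [Group K] [MulAction K V] (x : ι → K)

@[simp] lemma ltr_true (i : ι) : ltr x (i, true) = x i := rfl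
@[simp] lemma ltr_false (i : ι) : ltr x (i, false) = (x i)⁻¹ := rfl
@[simp] lemma ev_nil : ev x [] = 1 := rfl
@[simp] lemma ev_cons (l : ι × Bool) (w : List (ι × Bool)) : ev x (l :: w) = ltr x l * ev x w := by
  simp [ev]
lemma ev_append (w w' : List (ι × Bool)) : ev x (w ++ w') = ev x w * ev x w' := by
  simp [ev]

/-- the inverse letter -/
def linv (l : ι × Bool) : ι × Bool := (l.1, !l.2)

lemma ltr_linv (l : ι × Bool) : ltr x (linv l) = (ltr x l)⁻¹ := by
  rcases l with ⟨i, b⟩
  cases b <;> simp [linv, ltr]

lemma ind_of_mem {V : Type} {A : Set V} {v : V} (h : v ∈ A) : ind A v = 0 := by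
  simp [ind, h]
lemma ind_of_notMem {V : Type} {A : Set V} {v : V} (h : v ∉ A) : ind A v = 1 := by
  simp [ind, h]
lemma ind_cases {V : Type} (A : Set V) (v : V) : (ind A v = 0 ∧ v ∈ A) ∨ (ind A v = 1 ∧ v ∉ A) := by
  by_cases h : v ∈ A
  · exact Or.inl ⟨ind_of_mem h, h⟩
  · exact Or.inr ⟨ind_of_notMem h, h⟩

variable {x}

lemma Reach.mem {T : Set V} {v : V} {g : K} (h : Reach x T v g) : g • v ∈ T := by
  cases h with
  | one h => simpa using h
  | step l g _ h => exact h

lemma Reach.mem_start {T : Set V} {v : V} {g : K} (h : Reach x T v g) : v ∈ T := by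
  induction h with
  | one h => exact h
  | step l g _ _ ih => exact ih

lemma Reach.mul {T : Set V} {v : V} {g h : K} (hg : Reach x T v g) (hh : Reach x T (g • v) h) :
    Reach x T v (h * g) := by
  induction hh with
  | one _ => simpa using hg
  | step l k _ hk ih =>
    rw [mul_assoc]
    refine Reach.step l _ ih ?_
    rw [← mul_assoc, mul_smul]
    exact hk

lemma Reach.single {T : Set V} {v : V} (l : ι × Bool) (hv : v ∈ T) (h : ltr x l • v ∈ T) :
    Reach x T v (ltr x l) := by
  have := Reach.step (x := x) (T := T) (v := v) l 1 (Reach.one hv) (by simpa using h)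
  simpa using this

lemma Reach.inv {T : Set V} {v : V} {g : K} (hg : Reach x T v g) : Reach x T (g • v) g⁻¹ := by
  induction hg with
  | one h => simpa using Reach.one (x := x) (T := T) (v := v) h
  | step l k hk hm ih =>
    rw [mul_inv_rev]
    have h1 : Reach x T ((ltr x l * k) • v) (ltr x (linv l)) := by
      apply Reach.single
      · exact hm
      · rw [ltr_linv, mul_smul, inv_smul_smul]
        exact hk.mem
    have h2 : (ltr x (linv l)) • ((ltr x l * k) • v) = k • v := by
      rw [ltr_linv, mul_smul, inv_smul_smul]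
    have h3 := h1.mul (h := k⁻¹) (by rw [h2]; exact ih)
    rwa [ltr_linv] at h3

lemma Reach.mono {T T' : Set V} (hT : T ⊆ T') {v : V} {g : K} (hg : Reach x T v g) :
    Reach x T' v g := by
  induction hg with
  | one h => exact Reach.one (hT h)
  | step l k _ hm ih => exact Reach.step l k ih (hT hm)

/-- loops at `q` inside `T` (plus the identity) -/
def loops (x : ι → K) (T : Set V) (q : V) : Subgroup K where
  carrier := {g | g = 1 ∨ (Reach x T q g ∧ g • q = q)}
  one_mem' := Or.inl rfl
  mul_mem' := by
    rintro a b (rfl | ⟨ha, ha'⟩) (rfl | ⟨hb, hb'⟩)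
    · left; simp
    · right; simpa using ⟨hb, hb'⟩
    · right; simpa using ⟨ha, ha'⟩
    · right
      refine ⟨?_, by rw [mul_smul, hb', ha']⟩
      exact hb.mul (by rw [hb']; exact ha)
  inv_mem' := by
    rintro a (rfl | ⟨ha, ha'⟩)
    · left; simp
    · right
      refine ⟨?_, by rw [inv_smul_eq_iff, ha']⟩
      have := ha.inv
      rwa [ha'] at this

lemma mem_loops {T : Set V} {q : V} (hq : q ∈ T) {g : K} :
    g ∈ loops x T q ↔ Reach x T q g ∧ g • q = q := by
  constructor
  · rintro (rfl | h)
    · exact ⟨Reach.one hq, by simp⟩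
    · exact h
  · intro h
    exact Or.inr h

lemma loops_mono {T T' : Set V} (hT : T ⊆ T') (q : V) : loops x T q ≤ loops x T' q := by
  rintro g (rfl | ⟨h, h'⟩)
  · exact Or.inl rfl
  · exact Or.inr ⟨h.mono hT, h'⟩

lemma loops_le_stab (T : Set V) (q : V) : loops x T q ≤ MulAction.stabilizer K q := by
  rintro g (rfl | ⟨_, h'⟩)
  · simp
  · simpa using h'

lemma mem_ball_self (n : ℕ) (v : V) : v ∈ ball x n v := ⟨[], by simp, by simp⟩

lemma ltr_smul_mem_ball {n : ℕ} (hn : 1 ≤ n) (l : ι × Bool) (v : V) : ltr x l • v ∈ ball x n v :=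
  ⟨[l], by simpa using hn, by simp⟩

end

end Pool.Agent.H931
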