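import Pool.Agent.Helper931.Basic

set_option autoImplicit false

namespace Pool.Agent.H931

open Set

/-- the coset space of `L` embeds into the integers with bounded displacement -/
def Bdd {ι K : Type} [Group K] (x : ι → K) (R : ℕ) (L : Subgroup K) : Prop :=
  ∃ pos : K ⧸ L → ℤ, Function.Injective pos ∧
    ∀ (i : ι) (v : K ⧸ L), |pos (x i • v) - pos v| ≤ R

end Pool.Agent.H931
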