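import Pool.Agent.Helper931.EA

set_option autoImplicit false

namespace Pool.Agent.H931

open Set

section toolkit
variable {P : ∀ (G : Type) [Group G], Prop} (hP : EAClass P)
include hP

theorem EAClass.of_inj {G G' : Type} [Group G] [Group G'] (f : G →* G')
    (hf : Function.Injective f) (h : P G') : P G := by
  exact hP.iso _ _ (MonoidHom.ofInjective hf).symm (hP.sub G' f.range h)

theorem EAClass.of_surj {G G' : Type} [Group G] [Group G'] (f : G →* G')
    (hf : Function.Surjective f) (h : P G) : P G' := by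
  exact hP.iso _ _ (QuotientGroup.quotientKerEquivOfSurjective f hf) (hP.quot G f.ker h)

theorem EAClass.of_ker {G G' : Type} [Group G] [Group G'] (f : G →* G')
    (h1 : P ↥f.ker) (h2 : P ↥f.range) : P G := by
  exact hP.ext G f.ker h1 (hP.iso _ _ (QuotientGroup.quotientKerEquivRange f).symm h2)

theorem EAClass.prod {A B : Type} [Group A] [Group B] (hA : P A) (hB : P B) : P (A × B) := by
  apply hP.of_ker (MonoidHom.fst A B)
  · apply hP.of_inj ((MonoidHom.snd A B).comp (MonoidHom.fst A B).ker.subtype) _ hB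
    rintro ⟨⟨a, b⟩, h⟩ ⟨⟨a', b'⟩, h'⟩ hh
    have ha : a = 1 := h
    have ha' : a' = 1 := h'
    have hb : b = b' := hh
    subst ha; subst ha'; subst hb
    rfl
  · exact hP.sub A _ hA

theorem EAClass.pi {I : Type} [Finite I] (Q : I → Type) [∀ i, Group (Q i)]
    (h : ∀ i, P (Q i)) : P (∀ i, Q i) := by
  have key : ∀ (I : Type) [Finite I] (Q : I → Type) [∀ i, Group (Q i)], (∀ i, P (Q i)) → P (∀ i, Q i) := by
    intro I _
    apply Finite.induction_empty_option
      (P := fun I : Type => ∀ (Q : I → Type) [∀ i, Group (Q i)], (∀ i, P (Q i)) → P (∀ i, Q i))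
    · intro α β e ih Q _ hQ
      have h1 := ih (fun a => Q (e a)) (fun a => hQ (e a))
      apply hP.of_inj (MonoidHom.mk' (fun g : ∀ b, Q b => (fun a => g (e a) : ∀ a, Q (e a))) (fun _ _ => rfl)) _ h1
      intro g g' hg
      funext b
      obtain ⟨a, rfl⟩ := e.surjective b
      exact congrFun hg a
    · intro Q _ _
      apply hP.comm
      intro a b
      funext i
      exact i.elim
    · intro α _ ih Q _ hQ
      have h1 := hP.prod (hQ none) (ih (fun a => Q (some a)) (fun a => hQ (some a)))
      apply hP.of_inj (MonoidHom.mk' (fun g : ∀ b, Q b =>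
        ((g none, fun a => g (some a)) : Q none × (∀ a, Q (some a)))) (fun _ _ => rfl)) _ h1
      intro g g' hg
      have e1 : g none = g' none := congrArg Prod.fst hg
      have e2 := congrArg Prod.snd hg
      funext b
      cases b with
      | none => exact e1
      | some a => exact congrFun e2 a
  exact key I Q h

theorem EAClass.range_perm {I G : Type} [Group G] (f : G →* Equiv.Perm I)
    (hfin : ∀ g, {i | f g i ≠ i}.Finite) : P ↥f.range := by
  classical
  apply hP.loc
  intro S hS
  obtain ⟨T, hT⟩ := hS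
  have hfin' : ∀ g : ↥f.range, {i | g.1 i ≠ i}.Finite := by
    rintro ⟨g, a, rfl⟩
    exact hfin a
  set Y : Set I := ⋃ t ∈ T, {i | t.1 i ≠ i} with hY
  have hYfin : Y.Finite := T.finite_toSet.biUnion (fun t _ => hfin' t)
  have hout : ∀ g ∈ S, ∀ i ∉ Y, g.1 i = i := by
    intro g hg
    rw [← hT] at hg
    induction hg using Subgroup.closure_induction with
    | mem t ht =>
      intro i hi
      by_contra hne
      apply hi
      rw [hY]
      exact Set.mem_biUnion (x := t) ht hne
    | one => intro i _; rfl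
    | mul a b _ _ ha hb =>
      intro i hi
      have : (a * b).1 i = a.1 (b.1 i) := rfl
      rw [this, hb i hi, ha i hi]
    | inv a _ ha =>
      intro i hi
      have : (a⁻¹).1 i = a.1⁻¹ i := rfl
      rw [this, Equiv.Perm.inv_eq_iff_eq, ha i hi]
  have hmem : ∀ g ∈ S, ∀ i ∈ Y, g.1 i ∈ Y := by
    intro g hg i hi
    by_contra hne
    have h1 := hout g hg _ hne
    have h2 := g.1.injective h1
    rw [h2] at hne
    exact hne hi
  have : Finite Y := hYfin.to_subtype
  have : Finite ↥S := by
    apply Finite.of_injective (fun g : ↥S => fun y : Y => (⟨g.1.1 y.1, hmem g.1 g.2 y.1 y.2⟩ : Y))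
    intro g g' hg
    apply Subtype.ext
    apply Subtype.ext
    apply Equiv.ext
    intro i
    by_cases hi : i ∈ Y
    · have := congrFun hg ⟨i, hi⟩
      exact congrArg Subtype.val this
    · rw [hout g.1 g.2 i hi, hout g'.1 g'.2 i hi]
  exact hP.fin ↥S

theorem EAClass.range_pi {I G : Type} [Group G] (Q : I → Type) [∀ i, Group (Q i)]
    (h : ∀ i, P (Q i)) (f : G →* (∀ i, Q i)) (hfin : ∀ g, {i | f g i ≠ 1}.Finite) :
    P ↥f.range := by
  classical
  apply hP.loc
  intro S hS
  obtain ⟨T, hT⟩ := hS
  have hfin' : ∀ g : ↥f.range, {i | g.1 i ≠ 1}.Finite := by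
    rintro ⟨g, a, rfl⟩
    exact hfin a
  set Y : Set I := ⋃ t ∈ T, {i | t.1 i ≠ 1} with hY
  have hYfin : Y.Finite := T.finite_toSet.biUnion (fun t _ => hfin' t)
  have hout : ∀ g ∈ S, ∀ i ∉ Y, g.1 i = 1 := by
    intro g hg
    rw [← hT] at hg
    induction hg using Subgroup.closure_induction with
    | mem t ht =>
      intro i hi
      by_contra hne
      apply hi
      rw [hY]
      exact Set.mem_biUnion (x := t) ht hne
    | one => intro i _; rfl
    | mul a b _ _ ha hb =>
      intro i hi
      have : (a * b).1 i = a.1 i * b.1 i := rfl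
      rw [this, hb i hi, ha i hi, mul_one]
    | inv a _ ha =>
      intro i hi
      have : (a⁻¹).1 i = (a.1 i)⁻¹ := rfl
      rw [this, ha i hi, inv_one]
  have : Finite Y := hYfin.to_subtype
  have hpi := hP.pi (fun y : Y => Q y.1) (fun y => h y.1)
  apply hP.of_inj (MonoidHom.mk' (fun g : ↥S => (fun y : Y => g.1.1 y.1 : ∀ y : Y, Q y.1)) (fun _ _ => rfl)) _ hpi
  intro g g' hg
  apply Subtype.ext
  apply Subtype.ext
  funext i
  by_cases hi : i ∈ Y
  · exact congrFun hg ⟨i, hi⟩
  · rw [hout g.1 g.2 i hi, hout g'.1 g'.2 i hi]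

end toolkit

end Pool.Agent.H931
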