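import Pool.Agent.Helper931.C1a

set_option autoImplicit false

namespace Pool.Agent.H931

open Set

theorem mem_conj_iff {G : Type} [Group G] (L : Subgroup G) (k g : G) :
    g ∈ L.map (MulAut.conj k).toMonoidHom ↔ k⁻¹ * g * k ∈ L := by
  rw [Subgroup.mem_map]
  constructor
  · rintro ⟨y, hy, rfl⟩
    simpa [mul_assoc] using hy
  · intro h
    exact ⟨_, h, by simp [mul_assoc]⟩

theorem EA_step (P : ∀ (G : Type) [Group G], Prop) (hP : EAClass P) (G : Type) [Group G]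
    (𝒞 𝒞' : Set (Subgroup G)) (hsub : 𝒞' ⊆ 𝒞)
    (hconj : ∀ L ∈ 𝒞, ∀ k : G, L.map (MulAut.conj k).toMonoidHom ∈ 𝒞)
    (hconj' : ∀ L ∈ 𝒞', ∀ k : G, L.map (MulAut.conj k).toMonoidHom ∈ 𝒞')
    (hQ : ∀ L ∈ 𝒞, ∃ (Q : Type) (_ : Group Q) (f : ↥(Subgroup.normalizer (L : Set G)) →* Q),
      P Q ∧ ∀ g, f g = 1 ↔ (g : G) ∈ L)
    (hfin : ∀ g : G, (∀ L ∈ 𝒞', g ∈ L) → {L : Subgroup G | L ∈ 𝒞 ∧ g ∉ L}.Finite)
    (h : P ↥(sInf 𝒞 : Subgroup G)) : P ↥(sInf 𝒞' : Subgroup G) := by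
  classical
  have hfinI : ∀ g : G, g ∈ (sInf 𝒞' : Subgroup G) →
      {i : {L : Subgroup G // L ∈ 𝒞 ∧ L ∉ 𝒞'} | g ∉ i.1}.Finite := by
    intro g hg
    have h1 := hfin g (fun L hL => Subgroup.mem_sInf.mp hg L hL)
    refine (h1.preimage (f := Subtype.val) Subtype.val_injective.injOn).subset ?_
    intro i hi
    exact ⟨i.2.1, hi⟩
  have hI : ∀ (L : Subgroup G) (k : G), L ∉ 𝒞' → L.map (MulAut.conj k).toMonoidHom ∉ 𝒞' := by
    intro L k hL hh
    apply hL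
    have h1 := hconj' _ hh k⁻¹
    have h2 : (L.map (MulAut.conj k).toMonoidHom).map (MulAut.conj k⁻¹).toMonoidHom = L := by
      ext y
      rw [mem_conj_iff, mem_conj_iff]
      simp [mul_assoc]
    rwa [h2] at h1
  letI act : MulAction ↥(sInf 𝒞' : Subgroup G) {L : Subgroup G // L ∈ 𝒞 ∧ L ∉ 𝒞'} :=
    { smul := fun g i => ⟨i.1.map (MulAut.conj (g : G)).toMonoidHom,
        hconj i.1 i.2.1 _, hI i.1 _ i.2.2⟩
      one_smul := by
        intro i
        apply Subtype.ext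
        show i.1.map (MulAut.conj ((1 : ↥(sInf 𝒞' : Subgroup G)) : G)).toMonoidHom = i.1
        ext y
        rw [mem_conj_iff]
        simp
      mul_smul := by
        intro a b i
        apply Subtype.ext
        show i.1.map (MulAut.conj ((a * b : ↥(sInf 𝒞' : Subgroup G)) : G)).toMonoidHom =
          (i.1.map (MulAut.conj (b : G)).toMonoidHom).map (MulAut.conj (a : G)).toMonoidHom
        ext y
        rw [mem_conj_iff, mem_conj_iff, mem_conj_iff]
        simp [mul_assoc] }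
  have hsm : ∀ (g : ↥(sInf 𝒞' : Subgroup G)) (i : {L : Subgroup G // L ∈ 𝒞 ∧ L ∉ 𝒞'}),
      (g • i).1 = i.1.map (MulAut.conj (g : G)).toMonoidHom := fun g i => rfl
  have hmove : ∀ (g : ↥(sInf 𝒞' : Subgroup G)) (i : {L : Subgroup G // L ∈ 𝒞 ∧ L ∉ 𝒞'}),
      (g : G) ∈ i.1 → g • i = i := by
    intro g i hgi
    apply Subtype.ext
    rw [hsm]
    ext y
    rw [mem_conj_iff]
    constructor
    · intro hy
      have := i.1.mul_mem (i.1.mul_mem hgi hy) (i.1.inv_mem hgi)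
      simpa [mul_assoc] using this
    · intro hy
      exact i.1.mul_mem (i.1.mul_mem (i.1.inv_mem hgi) hy) hgi
  let f1 : ↥(sInf 𝒞' : Subgroup G) →* Equiv.Perm {L : Subgroup G // L ∈ 𝒞 ∧ L ∉ 𝒞'} :=
    MulAction.toPermHom _ _
  have hf1 : ∀ g i, f1 g i = g • i := fun g i => rfl
  have hr1 : P ↥f1.range := by
    apply hP.range_perm
    intro g
    refine (hfinI g g.2).subset ?_
    intro i hi hgi
    exact hi (by rw [hf1]; exact hmove g i hgi)
  have hnorm : ∀ (g : ↥f1.ker) (i : {L : Subgroup G // L ∈ 𝒞 ∧ L ∉ 𝒞'}),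
      ((g : ↥(sInf 𝒞' : Subgroup G)) : G) ∈ Subgroup.normalizer (i.1 : Set G) := by
    intro g i
    have h1 : f1 g.1 = 1 := g.2
    have h2 : g.1 • i = i := by
      rw [← hf1, h1]; rfl
    have h3 := hsm g.1 i
    rw [h2] at h3
    rw [Subgroup.mem_normalizer_iff]
    intro y
    constructor
    · intro hy
      show _ ∈ i.1
      rw [h3, mem_conj_iff]
      simpa [mul_assoc] using hy
    · intro hy
      have hy' : (g.1 : G) * y * (g.1 : G)⁻¹ ∈ i.1 := hy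
      rw [h3, mem_conj_iff] at hy'
      simpa [mul_assoc] using hy'
  choose Q instQ f hf using fun i : {L : Subgroup G // L ∈ 𝒞 ∧ L ∉ 𝒞'} => hQ i.1 i.2.1
  let e : ∀ i : {L : Subgroup G // L ∈ 𝒞 ∧ L ∉ 𝒞'},
      ↥f1.ker →* ↥(Subgroup.normalizer (i.1 : Set G)) := fun i =>
    ((Subgroup.subtype _).comp (Subgroup.subtype f1.ker)).codRestrict _ (fun g => hnorm g i)
  have he : ∀ i g, ((e i g : ↥(Subgroup.normalizer (i.1 : Set G))) : G) =
      ((g : ↥(sInf 𝒞' : Subgroup G)) : G) := fun i g => rfl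
  let f2 : ↥f1.ker →* (∀ i : {L : Subgroup G // L ∈ 𝒞 ∧ L ∉ 𝒞'}, Q i) :=
    Pi.monoidHom (fun i => (f i).comp (e i))
  have hf2 : ∀ g i, f2 g i = f i (e i g) := fun g i => rfl
  have hr2 : P ↥f2.range := by
    apply hP.range_pi
    · intro i
      exact (hf i).1
    · intro g
      refine (hfinI g.1 g.1.2).subset ?_
      intro i hi hgi
      apply hi
      rw [hf2]
      exact ((hf i).2 (e i g)).mpr hgi
  have hk2 : P ↥f2.ker := by
    have hmem : ∀ g : ↥f2.ker, (((g : ↥f1.ker) : ↥(sInf 𝒞' : Subgroup G)) : G) ∈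
        (sInf 𝒞 : Subgroup G) := by
      intro g
      rw [Subgroup.mem_sInf]
      intro L hL
      by_cases hL' : L ∈ 𝒞'
      · exact Subgroup.mem_sInf.mp g.1.1.2 L hL'
      · have h1 : f2 g.1 = 1 := g.2
        have h2 : f2 g.1 ⟨L, hL, hL'⟩ = 1 := by rw [h1]; rfl
        rw [hf2] at h2
        exact ((hf ⟨L, hL, hL'⟩).2 (e ⟨L, hL, hL'⟩ g.1)).mp h2
    refine hP.of_inj (G' := ↥(sInf 𝒞 : Subgroup G))
      ((((Subgroup.subtype _).comp (Subgroup.subtype f1.ker)).comp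
        (Subgroup.subtype f2.ker)).codRestrict _ hmem) ?_ h
    intro a b hab
    have h1 : ((((a : ↥f1.ker) : ↥(sInf 𝒞' : Subgroup G)) : G)) =
        ((((b : ↥f1.ker) : ↥(sInf 𝒞' : Subgroup G)) : G)) := by
      have h0 := congrArg (fun z : ↥(sInf 𝒞 : Subgroup G) => (z : G)) hab
      exact h0
    exact Subtype.ext (Subtype.ext (Subtype.ext h1))
  have hk1 : P ↥f1.ker := hP.of_ker f2 hk2 hr2
  exact hP.of_ker f1 hk1 hr1

end Pool.Agent.H931
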