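import Pool.Agent.Helper931.C1b

set_option autoImplicit false

namespace Pool.Agent.H931

open Set

section C1c
open Topology

theorem c1c_true {G : Type} [Group G] {L : Subgroup G} {g : G} : chi L g = true ↔ g ∈ L := by
  unfold chi; simp

theorem c1c_false {G : Type} [Group G] {L : Subgroup G} {g : G} : chi L g = false ↔ g ∉ L := by
  unfold chi; simp

theorem c1c_inj {G : Type} [Group G] : Function.Injective (chi : Subgroup G → G → Bool) := by
  intro L L' h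
  ext g
  rw [← c1c_true, ← c1c_true, h]

theorem c1c_conj {G : Type} [Group G] (k : G) (L : Subgroup G) :
    chi (L.map (MulAut.conj k).toMonoidHom) = fun g => chi L (k⁻¹ * g * k) := by
  funext g
  rw [Bool.eq_iff_iff, c1c_true, c1c_true, Subgroup.mem_map]
  constructor
  · rintro ⟨x, hx, rfl⟩
    have : k⁻¹ * ((MulAut.conj k).toMonoidHom x) * k = x := by
      simp [MulAut.conj_apply, mul_assoc]
    rwa [this]
  · intro h
    refine ⟨_, h, ?_⟩
    simp [MulAut.conj_apply, mul_assoc]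

theorem c1c_conj_inj {G : Type} [Group G] (k : G) {L L' : Subgroup G}
    (h : L.map (MulAut.conj k).toMonoidHom = L'.map (MulAut.conj k).toMonoidHom) : L = L' :=
  Subgroup.map_injective (MulEquiv.injective (MulAut.conj k)) h

/-- isolated members -/
def c1cIso {G : Type} [Group G] (m : Set (Subgroup G)) (L : Subgroup G) (U : Set (G → Bool)) :
    Prop := IsOpen U ∧ chi L ∈ U ∧ ∀ L' ∈ m, chi L' ∈ U → L' = L

theorem c1c_chain_mem {G : Type} [Group G] (c : Set (Set (Subgroup G)))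
    (hc : IsChain (· ⊆ ·) c) (hne : c.Nonempty) (hcomp : ∀ 𝒞 ∈ c, IsCompact (chi '' 𝒞))
    (a : G) (ha : a ∈ (sInf (⋂₀ c) : Subgroup G)) : ∃ 𝒞 ∈ c, a ∈ (sInf 𝒞 : Subgroup G) := by
  by_contra hcon
  push Not at hcon
  have : Nonempty c := hne.to_subtype
  have hcl : IsClosed {f : G → Bool | f a = false} :=
    isClosed_singleton.preimage (continuous_apply a)
  have h := IsCompact.nonempty_iInter_of_directed_nonempty_isCompact_isClosed
    (fun i : c => chi '' (i : Set (Subgroup G)) ∩ {f : G → Bool | f a = false})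
    (by
      intro i j
      rcases hc.total i.2 j.2 with h | h
      · exact ⟨i, subset_rfl, inter_subset_inter_left _ (image_mono h)⟩
      · exact ⟨j, inter_subset_inter_left _ (image_mono h), subset_rfl⟩)
    (by
      intro i
      have h1 := hcon i i.2
      rw [Subgroup.mem_sInf] at h1
      push Not at h1
      obtain ⟨L, hL, haL⟩ := h1
      exact ⟨chi L, ⟨L, hL, rfl⟩, c1c_false.mpr haL⟩)
    (fun i => (hcomp i i.2).inter_right hcl)
    (fun i => ((hcomp i i.2).inter_right hcl).isClosed)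
  obtain ⟨f, hf⟩ := h
  rw [mem_iInter] at hf
  obtain ⟨i0⟩ := (inferInstance : Nonempty c)
  obtain ⟨⟨L, hL, hLf⟩, hfa⟩ := hf i0
  have hLall : L ∈ ⋂₀ c := by
    intro 𝒞 h𝒞
    obtain ⟨⟨L', hL', hLf'⟩, _⟩ := hf ⟨𝒞, h𝒞⟩
    have : L = L' := c1c_inj (hLf.trans hLf'.symm)
    rw [this]; exact hL'
  have h1 : a ∈ L := (Subgroup.mem_sInf.mp ha) L hLall
  have h2 : chi L a = false := by rw [hLf]; exact hfa
  exact c1c_false.mp h2 h1

theorem c1c_chain_fin {G : Type} [Group G] (c : Set (Set (Subgroup G)))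
    (hc : IsChain (· ⊆ ·) c) (hne : c.Nonempty) (hcomp : ∀ 𝒞 ∈ c, IsCompact (chi '' 𝒞))
    (F : Finset G) (hF : ∀ a ∈ F, a ∈ (sInf (⋂₀ c) : Subgroup G)) :
    ∃ 𝒞 ∈ c, ∀ a ∈ F, a ∈ (sInf 𝒞 : Subgroup G) := by
  classical
  induction F using Finset.induction_on with
  | empty =>
    obtain ⟨𝒞, h𝒞⟩ := hne
    exact ⟨𝒞, h𝒞, by simp⟩
  | insert b F hb ih =>
    obtain ⟨𝒞1, h1, h1'⟩ := ih (fun a ha => hF a (Finset.mem_insert_of_mem ha))
    obtain ⟨𝒞2, h2, h2'⟩ := c1c_chain_mem c hc hne hcomp b (hF b (Finset.mem_insert_self b F))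
    rcases hc.total h1 h2 with h | h
    · refine ⟨𝒞1, h1, fun a ha => ?_⟩
      rcases Finset.mem_insert.mp ha with rfl | ha
      · exact (sInf_le_sInf h : (sInf 𝒞2 : Subgroup G) ≤ sInf 𝒞1) h2'
      · exact h1' a ha
    · refine ⟨𝒞2, h2, fun a ha => ?_⟩
      rcases Finset.mem_insert.mp ha with rfl | ha
      · exact h2'
      · exact (sInf_le_sInf h : (sInf 𝒞1 : Subgroup G) ≤ sInf 𝒞2) (h1' a ha)

theorem c1c_fg {P : ∀ (G : Type) [Group G], Prop} (hP : EAClass P) {G : Type} [Group G]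
    (c : Set (Set (Subgroup G)))
    (hc : IsChain (· ⊆ ·) c) (hne : c.Nonempty) (hcomp : ∀ 𝒞 ∈ c, IsCompact (chi '' 𝒞))
    (hPc : ∀ 𝒞 ∈ c, P ↥(sInf 𝒞 : Subgroup G)) : P ↥(sInf (⋂₀ c) : Subgroup G) := by
  classical
  apply hP.loc
  intro S hS
  obtain ⟨F, hF⟩ := hS
  obtain ⟨𝒞, h𝒞, h𝒞'⟩ := c1c_chain_fin c hc hne hcomp
    (F.image (fun x : ↥(sInf (⋂₀ c) : Subgroup G) => (x : G))) (by
    intro a ha
    obtain ⟨x, _, rfl⟩ := Finset.mem_image.mp ha
    exact x.2)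
  have hle : S.map (sInf (⋂₀ c) : Subgroup G).subtype ≤ (sInf 𝒞 : Subgroup G) := by
    rw [← hF, MonoidHom.map_closure, Subgroup.closure_le]
    rintro _ ⟨x, hx, rfl⟩
    exact h𝒞' _ (Finset.mem_image_of_mem _ hx)
  have h1 : P ↥((S.map (sInf (⋂₀ c) : Subgroup G).subtype).subgroupOf (sInf 𝒞 : Subgroup G)) :=
    hP.sub _ _ (hPc 𝒞 h𝒞)
  have h2 : P ↥(S.map (sInf (⋂₀ c) : Subgroup G).subtype) :=
    hP.iso _ _ (Subgroup.subgroupOfEquivOfLe hle) h1
  exact hP.iso _ _ (S.equivMapOfInjective (sInf (⋂₀ c) : Subgroup G).subtype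
    (Subgroup.subtype_injective _)).symm h2

end C1c

theorem lemmaE (P : ∀ (G : Type) [Group G], Prop) (hP : EAClass P) (G : Type) [Group G]
    (𝒢 : Set (Subgroup G)) (hcnt : 𝒢.Countable) (hcomp : IsCompact (chi '' 𝒢))
    (hconj : ∀ L ∈ 𝒢, ∀ k : G, L.map (MulAut.conj k).toMonoidHom ∈ 𝒢)
    (hQ : ∀ L ∈ 𝒢, ∃ (Q : Type) (_ : Group Q) (f : ↥(Subgroup.normalizer (L : Set G)) →* Q),
      P Q ∧ ∀ g, f g = 1 ↔ (g : G) ∈ L)
    (hbot : ∀ g : G, (∀ L ∈ 𝒢, g ∈ L) → g = 1) : P G := by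
  classical
  set S : Set (Set (Subgroup G)) := {𝒞 | 𝒞 ⊆ 𝒢 ∧ IsCompact (chi '' 𝒞) ∧
    (∀ L ∈ 𝒞, ∀ k : G, L.map (MulAut.conj k).toMonoidHom ∈ 𝒞) ∧ P ↥(sInf 𝒞 : Subgroup G)} with hS
  have h𝒢 : 𝒢 ∈ S := by
    refine ⟨subset_rfl, hcomp, hconj, ?_⟩
    have : Subsingleton ↥(sInf 𝒢 : Subgroup G) := by
      constructor
      rintro ⟨a, ha⟩ ⟨b, hb⟩
      have h1 := hbot a (fun L hL => Subgroup.mem_sInf.mp ha L hL)
      have h2 := hbot b (fun L hL => Subgroup.mem_sInf.mp hb L hL)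
      exact Subtype.ext (h1.trans h2.symm)
    exact hP.fin _
  obtain ⟨m, hm𝒢, hmin⟩ := zorn_superset_nonempty S (by
    intro c hcS hchain hne
    refine ⟨⋂₀ c, ⟨?_, ?_, ?_, ?_⟩, fun s hs => sInter_subset_of_mem hs⟩
    · obtain ⟨𝒞, h𝒞⟩ := hne
      exact (sInter_subset_of_mem h𝒞).trans (hcS h𝒞).1
    · obtain ⟨𝒞, h𝒞⟩ := hne
      have heq : chi '' (⋂₀ c) = ⋂ i : c, chi '' (i : Set (Subgroup G)) := by
        apply Subset.antisymm
        · rintro _ ⟨L, hL, rfl⟩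
          rw [mem_iInter]
          intro i
          exact ⟨L, hL i i.2, rfl⟩
        · intro f hf
          rw [mem_iInter] at hf
          obtain ⟨L, hL, hLf⟩ := hf ⟨𝒞, h𝒞⟩
          refine ⟨L, ?_, hLf⟩
          intro 𝒟 h𝒟
          obtain ⟨L', hL', hLf'⟩ := hf ⟨𝒟, h𝒟⟩
          have : L = L' := c1c_inj (hLf.trans hLf'.symm)
          rw [this]; exact hL'
      rw [heq]
      refine (hcS h𝒞).2.1.of_isClosed_subset (isClosed_iInter (fun i => (hcS i.2).2.1.isClosed)) ?_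
      exact iInter_subset (fun i : c => chi '' (i : Set (Subgroup G))) ⟨𝒞, h𝒞⟩
    · intro L hL k 𝒞 h𝒞
      exact (hcS h𝒞).2.2.1 L (hL 𝒞 h𝒞) k
    · exact c1c_fg hP c hchain hne (fun 𝒞 h𝒞 => (hcS h𝒞).2.1) (fun 𝒞 h𝒞 => (hcS h𝒞).2.2.2))
    𝒢 h𝒢
  obtain ⟨hmsub, hmcomp, hmconj, hmP⟩ := hmin.1
  rcases m.eq_empty_or_nonempty with hme | hmne
  · rw [hme, sInf_empty] at hmP
    exact hP.iso _ _ Subgroup.topEquiv hmP
  exfalso
  -- an isolated point
  obtain ⟨L0, hL0, U0, hU0⟩ : ∃ L0 ∈ m, ∃ U, c1cIso m L0 U := by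
    have hXc : (chi '' m).Countable := (hcnt.mono hmsub).image _
    have : Countable ↥(chi '' m) := hXc.to_subtype
    have : CompactSpace ↥(chi '' m) := isCompact_iff_compactSpace.mp hmcomp
    have : Nonempty ↥(chi '' m) := (hmne.image chi).to_subtype
    obtain ⟨x, y, hy⟩ := nonempty_interior_of_iUnion_of_closed
      (f := fun x : ↥(chi '' m) => ({x} : Set ↥(chi '' m))) (fun x => isClosed_singleton)
      (iUnion_of_singleton _)
    have hyx' : y ∈ ({x} : Set ↥(chi '' m)) := interior_subset hy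
    have hyx : y = x := hyx'
    subst hyx
    have hnhds : ({y} : Set ↥(chi '' m)) ∈ nhds y := mem_interior_iff_mem_nhds.mp hy
    obtain ⟨u, hu, hu'⟩ := mem_nhds_subtype _ _ _ |>.mp hnhds
    obtain ⟨U, hUu, hUo, hyU⟩ := mem_nhds_iff.mp hu
    obtain ⟨L0, hL0, hL0y⟩ := y.2
    refine ⟨L0, hL0, U, hUo, by rw [hL0y]; exact hyU, ?_⟩
    intro L' hL' hL'U
    have h1 : (⟨chi L', ⟨L', hL', rfl⟩⟩ : ↥(chi '' m)) ∈ ({y} : Set ↥(chi '' m)) :=
      hu' (hUu hL'U)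
    have h2 : chi L' = (y : G → Bool) := congrArg Subtype.val h1
    exact c1c_inj (h2.trans hL0y.symm)
  set m' : Set (Subgroup G) := {L | L ∈ m ∧ ∀ U, ¬ c1cIso m L U} with hm'
  have hm'm : m' ⊆ m := fun L hL => hL.1
  have hm'conj : ∀ L ∈ m', ∀ k : G, L.map (MulAut.conj k).toMonoidHom ∈ m' := by
    intro L hL k
    refine ⟨hmconj L hL.1 k, ?_⟩
    rintro U ⟨hUo, hLU, hU⟩
    have hcont : Continuous (fun (f : G → Bool) (g : G) => f (k⁻¹ * g * k)) :=
      continuous_pi (fun g => continuous_apply _)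
    refine hL.2 ((fun (f : G → Bool) (g : G) => f (k⁻¹ * g * k)) ⁻¹' U)
      ⟨hUo.preimage hcont, ?_, ?_⟩
    · show (fun g => chi L (k⁻¹ * g * k)) ∈ U
      rw [← c1c_conj]; exact hLU
    · intro L' hL' hL'U
      have h1 : (fun g => chi L' (k⁻¹ * g * k)) ∈ U := hL'U
      rw [← c1c_conj] at h1
      exact c1c_conj_inj k (hU _ (hmconj L' hL' k) h1)
  have hm'comp : IsCompact (chi '' m') := by
    have heq : chi '' m' = chi '' m ∩ (⋃₀ {U | ∃ L ∈ m, c1cIso m L U})ᶜ := by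
      apply Subset.antisymm
      · rintro _ ⟨L, hL, rfl⟩
        refine ⟨⟨L, hL.1, rfl⟩, ?_⟩
        rintro ⟨U, ⟨L1, hL1, hU⟩, hLU⟩
        have : L = L1 := hU.2.2 L hL.1 hLU
        subst this
        exact hL.2 U hU
      · rintro _ ⟨⟨L, hL, rfl⟩, hLn⟩
        refine ⟨L, ⟨hL, ?_⟩, rfl⟩
        intro U hU
        exact hLn ⟨U, ⟨L, hL, hU⟩, hU.2.1⟩
    rw [heq]
    refine hmcomp.inter_right ?_
    rw [isClosed_compl_iff]
    refine isOpen_sUnion ?_
    rintro U ⟨L, _, hU⟩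
    exact hU.1
  have hfin : ∀ g : G, (∀ L ∈ m', g ∈ L) → {L : Subgroup G | L ∈ m ∧ g ∉ L}.Finite := by
    intro g hg
    have hcl : IsClosed {f : G → Bool | f g = false} :=
      isClosed_singleton.preimage (continuous_apply g)
    have hY : IsCompact (chi '' m ∩ {f : G → Bool | f g = false}) := hmcomp.inter_right hcl
    have hYfin : (chi '' m ∩ {f : G → Bool | f g = false}).Finite := by
      refine hY.induction_on (p := fun s => s.Finite) finite_empty (fun s t hst ht => ht.subset hst)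
        (fun s t hs ht => hs.union ht) ?_
      rintro _ ⟨⟨L, hL, rfl⟩, hLg⟩
      have hgL : g ∉ L := c1c_false.mp hLg
      have hLm' : L ∉ m' := fun h => hgL (hg L h)
      have h1 : ∃ U, c1cIso m L U := by
        by_contra hno
        push Not at hno
        exact hLm' ⟨hL, hno⟩
      obtain ⟨U, hUo, hLU, hU⟩ := h1
      refine ⟨{chi L}, ?_, finite_singleton _⟩
      refine mem_nhdsWithin.mpr ⟨U, hUo, hLU, ?_⟩
      rintro _ ⟨hfU, ⟨⟨L', hL', rfl⟩, _⟩⟩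
      rw [hU L' hL' hfU]
      exact mem_singleton _
    have himg : (chi '' {L : Subgroup G | L ∈ m ∧ g ∉ L}).Finite := by
      refine hYfin.subset ?_
      rintro _ ⟨L, ⟨hL, hgL⟩, rfl⟩
      exact ⟨⟨L, hL, rfl⟩, c1c_false.mpr hgL⟩
    exact himg.of_finite_image c1c_inj.injOn
  have hstep := EA_step P hP G m m' hm'm hmconj hm'conj (fun L hL => hQ L (hmsub hL)) hfin hmP
  have hm'S : m' ∈ S := ⟨hm'm.trans hmsub, hm'comp, hm'conj, hstep⟩
  have h1 : m ⊆ m' := hmin.2 hm'S hm'm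
  exact (h1 hL0).2 U0 hU0

end Pool.Agent.H931
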