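import Pool.Agent.Helper931.Basic

set_option autoImplicit false

namespace Pool.Agent.H931

open Set

/-! ### shortlex minimal words -/

section lin
variable {E : Type} [Group E] {m : ℕ} {s : Fin m → E}

/-- shortlex minimal words -/
def GoodW (s : Fin m → E) (w : List (Fin m)) : Prop :=
  ∀ w' : List (Fin m), (w'.map s).prod = (w.map s).prod → ¬ List.Shortlex (· < ·) w' w

omit [Group E] in
theorem lex_app {α : Type} {r : α → α → Prop} {a b : List α} (h : List.Lex r a b)
    (hl : a.length = b.length) (t t' : List α) : List.Lex r (a ++ t) (b ++ t') := by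
  induction h with
  | nil => simp at hl
  | cons _ ih =>
    rw [List.cons_append, List.cons_append]
    exact List.Lex.cons (ih (by simpa using hl))
  | rel hr =>
    rw [List.cons_append, List.cons_append]
    exact List.Lex.rel hr

omit [Group E] in
theorem shortlex_app {a b : List (Fin m)} (h : List.Shortlex (· < ·) a b) (t : List (Fin m)) :
    List.Shortlex (· < ·) (a ++ t) (b ++ t) := by
  rcases List.shortlex_def.mp h with h1 | ⟨h1, h2⟩
  · apply List.Shortlex.of_length_lt
    rw [List.length_append, List.length_append]
    omega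
  · exact List.Shortlex.of_lex (by rw [List.length_append, List.length_append, h1])
      (lex_app h2 h1 t t)

theorem GoodW.pre {u v : List (Fin m)} (h : GoodW s (u ++ v)) : GoodW s u := by
  intro w' hw' hlt
  refine h (w' ++ v) ?_ (shortlex_app hlt v)
  rw [List.map_append, List.map_append, List.prod_append, List.prod_append, hw']

theorem GoodW.suffix {u v : List (Fin m)} (h : GoodW s (u ++ v)) : GoodW s v := by
  intro w' hw' hlt
  refine h (u ++ w') ?_ (List.Shortlex.append_left hlt u)
  rw [List.map_append, List.map_append, List.prod_append, List.prod_append, hw']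

theorem exists_good (hgen : ∀ g : E, ∃ w : List (Fin m), (w.map s).prod = g) (g : E) :
    ∃ w : List (Fin m), (w.map s).prod = g ∧ GoodW s w := by
  have hwf : WellFounded (List.Shortlex (α := Fin m) (· < ·)) :=
    List.Shortlex.wf (r := (· < ·)) wellFounded_lt
  obtain ⟨w, hw, hmin⟩ := hwf.has_min {w : List (Fin m) | (w.map s).prod = g} (hgen g)
  refine ⟨w, hw, fun w' hw' hlt => hmin w' ?_ hlt⟩
  have hw2 : (w.map s).prod = g := hw
  show (w'.map s).prod = g
  rw [hw', hw2]

theorem GoodW.unique {w w' : List (Fin m)} (h : GoodW s w) (h' : GoodW s w')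
    (he : (w.map s).prod = (w'.map s).prod) : w = w' :=
  Std.Trichotomous.trichotomous (r := List.Shortlex (α := Fin m) (· < ·)) w w' (h' w he)
    (h w' he.symm)

theorem GoodW.ne_one {w : List (Fin m)} (h : GoodW s w) (hw : w ≠ []) : (w.map s).prod ≠ 1 := by
  intro he
  refine h [] (by rw [he]; rfl) ?_
  apply List.Shortlex.of_length_lt
  rw [List.length_nil]
  exact List.length_pos_iff.mpr hw

theorem finite_le (n : ℕ) : {w : List (Fin m) | w.length ≤ n}.Finite := by
  have : {w : List (Fin m) | w.length ≤ n} = ⋃ k ∈ Finset.range (n + 1),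
      {w : List (Fin m) | w.length = k} := by
    ext w
    simp only [Set.mem_iUnion, Finset.mem_range, exists_prop]
    constructor
    · intro h
      exact ⟨w.length, Nat.lt_succ_of_le h, rfl⟩
    · rintro ⟨k, hk, hw⟩
      have h2 : w.length = k := hw
      show w.length ≤ n
      omega
  rw [this]
  exact Set.Finite.biUnion (Finset.finite_toSet _) fun k _ => List.finite_length_eq _ _

theorem ball_finite (s : Fin m → E) (n : ℕ) :
    {g : E | ∃ w : List (Fin m), w.length ≤ n ∧ (w.map s).prod = g}.Finite :=
  (finite_le (m := m) n).image (fun w : List (Fin m) => (w.map s).prod)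

theorem exists_good_length [Infinite E] (hgen : ∀ g : E, ∃ w : List (Fin m), (w.map s).prod = g)
    (n : ℕ) : ∃ w : List (Fin m), GoodW s w ∧ w.length = n := by
  obtain ⟨g, hg⟩ := (ball_finite s n).exists_notMem
  obtain ⟨w, hw1, hw2⟩ := exists_good hgen g
  have hlen : n ≤ w.length := by
    by_contra hcon
    exact hg ⟨w, by omega, hw1⟩
  refine ⟨w.take n, ?_, by rw [List.length_take]; omega⟩
  have : GoodW s (w.take n ++ w.drop n) := by rw [List.take_append_drop]; exact hw2
  exact this.pre

/-- an infinite word with good prefixes -/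
theorem exists_omega [Infinite E] (hgen : ∀ g : E, ∃ w : List (Fin m), (w.map s).prod = g) :
    ∃ ω : ℕ → Fin m, ∀ n, GoodW s ((List.range n).map ω) := by
  have hne : ∀ i, Nonempty {w : List (Fin m) // GoodW s w ∧ w.length = i} := fun i => by
    obtain ⟨w, hw⟩ := exists_good_length hgen i
    exact ⟨⟨w, hw⟩⟩
  have hfin : ∀ i, Finite {w : List (Fin m) // GoodW s w ∧ w.length = i} := fun i => by
    have := (List.finite_length_eq (Fin m) i).subset
      (show {w : List (Fin m) | GoodW s w ∧ w.length = i} ⊆ {w | w.length = i} from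
        fun w hw => hw.2)
    exact this.to_subtype
  obtain ⟨f, hf⟩ := exists_seq_forall_proj_of_forall_finite
    (α := fun i => {w : List (Fin m) // GoodW s w ∧ w.length = i})
    (fun {i j} hij w => ⟨w.1.take i, by
      have : GoodW s (w.1.take i ++ w.1.drop i) := by rw [List.take_append_drop]; exact w.2.1
      exact this.pre, by rw [List.length_take, w.2.2]; omega⟩)
    (fun i a => Subtype.ext (by
      show a.1.take i = a.1
      rw [List.take_of_length_le]
      exact a.2.2.le))
    (fun i j k hij hjk a => Subtype.ext (by
      show (a.1.take j).take i = a.1.take i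
      rw [List.take_take, min_eq_left hij]))
    (fun i a => Set.toFinite _)
  have hf' : ∀ i j, i ≤ j → (f j).1.take i = (f i).1 := fun i j hij =>
    congrArg Subtype.val (hf hij)
  have hlen : ∀ i, (f i).1.length = i := fun i => (f i).2.2
  refine ⟨fun n => (f (n + 1)).1[n]'(by rw [hlen]; omega), fun n => ?_⟩
  have : (List.range n).map (fun n => (f (n + 1)).1[n]'(by rw [hlen]; omega)) = (f n).1 := by
    apply List.ext_getElem
    · rw [List.length_map, List.length_range, hlen]
    · intro k h1 h2
      rw [List.getElem_map]
      refine (congrArg (fun n => (f (n + 1)).1[n]'(by rw [hlen]; omega))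
        (List.getElem_range (n := n) (j := k) (by rw [List.length_range]; rw [hlen] at h2; exact h2))).trans ?_
      have hk : k < n := by rw [hlen] at h2; exact h2
      have e := hf' (k + 1) n hk
      have e2 : (f (k + 1)).1[k]'(by rw [hlen]; omega) = ((f n).1.take (k + 1))[k]'(by
        rw [List.length_take, hlen]; omega) := by
        congr 1
        exact e.symm
      show (f (k + 1)).1[k]'(by rw [hlen]; omega) = _
      rw [e2, List.getElem_take]
  rw [this]
  exact (f n).2.1

/-- factors -/
def fac (ω : ℕ → Fin m) (n i : ℕ) : List (Fin m) := (List.range n).map fun t => ω (i + t)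

omit [Group E] in
theorem fac_length (ω : ℕ → Fin m) (n i : ℕ) : (fac ω n i).length = n := by
  unfold fac; rw [List.length_map, List.length_range]

omit [Group E] in
theorem fac_eq_iff (ω : ℕ → Fin m) (n i j : ℕ) :
    fac ω n i = fac ω n j ↔ ∀ t < n, ω (i + t) = ω (j + t) := by
  unfold fac
  rw [List.map_inj_left]
  simp only [List.mem_range]

omit [Group E] in
theorem fac_add (ω : ℕ → Fin m) (n k i : ℕ) : fac ω (n + k) i = fac ω n i ++ fac ω k (i + n) := by
  unfold fac
  rw [List.range_add, List.map_append, List.map_map]
  congr 1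
  refine List.map_congr_left fun t _ => ?_
  simp only [Function.comp]
  congr 1
  omega

theorem fac_good {ω : ℕ → Fin m} (h : ∀ n, GoodW s ((List.range n).map ω)) (n i : ℕ) :
    GoodW s (fac ω n i) := by
  have h1 : GoodW s (fac ω (i + n) 0) := by
    have := h (i + n)
    unfold fac
    simp only [zero_add]
    exact this
  rw [fac_add, zero_add] at h1
  exact h1.suffix

end lin

theorem exists_infinite_order {E : Type} [Group E] [Infinite E] (m : ℕ) (s : Fin m → E)
    (hgen : ∀ g : E, ∃ w : List (Fin m), (w.map s).prod = g) (C : ℕ)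
    (hgr : ∀ n : ℕ, {g : E | ∃ w : List (Fin m), w.length ≤ n ∧ (w.map s).prod = g}.ncard
      ≤ C * (n + 1)) :
    ∃ u : E, ∀ k : ℕ, 0 < k → u ^ k ≠ 1 := by
  classical
  obtain ⟨ω, hω⟩ := exists_omega (s := s) hgen
  have hgood := fac_good hω
  -- the sets of factors
  have hRfin : ∀ n, (Set.range (fac ω n)).Finite := fun n =>
    (List.finite_length_eq (Fin m) n).subset (by
      rintro _ ⟨i, rfl⟩
      exact fac_length ω n i)
  let R : ℕ → Finset (List (Fin m)) := fun n => (hRfin n).toFinset
  have hR : ∀ n w, w ∈ R n ↔ ∃ i, fac ω n i = w := fun n w => by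
    show w ∈ (hRfin n).toFinset ↔ _
    rw [Set.Finite.mem_toFinset]
    exact Iff.rfl
  have hRlen : ∀ n, ∀ w ∈ R n, w.length = n := by
    intro n w hw
    obtain ⟨i, rfl⟩ := (hR n w).mp hw
    exact fac_length ω n i
  have hRgood : ∀ n, ∀ w ∈ R n, GoodW s w := by
    intro n w hw
    obtain ⟨i, rfl⟩ := (hR n w).mp hw
    exact hgood n i
  have hsum : ∀ n, ∑ k ∈ Finset.range (n + 1), (R k).card ≤ C * (n + 1) := by
    intro n
    refine le_trans ?_ (hgr n)
    have h1 : ((Finset.range (n + 1)).biUnion R).card = ∑ k ∈ Finset.range (n + 1), (R k).card := by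
      apply Finset.card_biUnion
      intro a _ b _ hab
      show Disjoint (R a) (R b)
      rw [Finset.disjoint_left]
      intro w hw hw'
      exact hab ((hRlen a w hw).symm.trans (hRlen b w hw'))
    have hgoodU : ∀ w ∈ (Finset.range (n + 1)).biUnion R, GoodW s w := by
      intro w hw
      obtain ⟨k, _, hk⟩ := Finset.mem_biUnion.mp hw
      exact hRgood k w hk
    have h2 : (((Finset.range (n + 1)).biUnion R).image fun w => (w.map s).prod).card =
        ((Finset.range (n + 1)).biUnion R).card := by
      apply Finset.card_image_of_injOn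
      intro w hw w' hw' he
      exact (hgoodU w hw).unique (hgoodU w' hw') he
    rw [← h1, ← h2, ← Set.ncard_coe_finset]
    apply Set.ncard_le_ncard _ (ball_finite s n)
    intro g hg
    rw [Finset.mem_coe, Finset.mem_image] at hg
    obtain ⟨w, hw, rfl⟩ := hg
    obtain ⟨k, hk, hwk⟩ := Finset.mem_biUnion.mp hw
    refine ⟨w, ?_, rfl⟩
    rw [hRlen k w hwk]
    rw [Finset.mem_range] at hk
    omega
  -- complexity cannot grow forever
  have hstab : ∃ n, (R (n + 1)).card ≤ (R n).card := by
    by_contra hcon
    push Not at hcon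
    have h1 : ∀ n, n + 1 ≤ (R n).card := by
      intro n
      induction n with
      | zero =>
        have : (R 0).Nonempty := ⟨fac ω 0 0, (hR 0 _).mpr ⟨0, rfl⟩⟩
        exact Finset.card_pos.mpr this
      | succ n ih =>
        have := hcon n
        omega
    have h2 : ∀ n, (n + 1) * (n + 2) ≤ 2 * ∑ k ∈ Finset.range (n + 1), (R k).card := by
      intro n
      induction n with
      | zero =>
        rw [Finset.sum_range_one]
        have := h1 0
        omega
      | succ n ih =>
        rw [Finset.sum_range_succ]
        have := h1 (n + 1)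
        nlinarith
    have h3 := h2 (2 * C)
    have h4 := hsum (2 * C)
    nlinarith
  obtain ⟨n, hn⟩ := hstab
  have hinj : Set.InjOn (fun w : List (Fin m) => w.take n) (R (n + 1)) := by
    refine Finset.injOn_of_surjOn_of_card_le (t := R n) _ ?_ ?_ hn
    · intro w hw
      obtain ⟨i, rfl⟩ := (hR _ w).mp hw
      refine (hR n _).mpr ⟨i, ?_⟩
      rw [fac_add]
      simp only
      rw [List.take_left' (fac_length ω n i)]
    · intro w hw
      obtain ⟨i, rfl⟩ := (hR _ w).mp hw
      refine ⟨fac ω (n + 1) i, (hR _ _).mpr ⟨i, rfl⟩, ?_⟩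
      rw [fac_add]
      simp only
      rw [List.take_left' (fac_length ω n i)]
  have hnext : ∀ i j, fac ω n i = fac ω n j → ω (i + n) = ω (j + n) := by
    intro i j hij
    have h1 : fac ω (n + 1) i = fac ω (n + 1) j := by
      apply hinj ((hR _ _).mpr ⟨i, rfl⟩) ((hR _ _).mpr ⟨j, rfl⟩)
      simp only
      rw [fac_add, fac_add, List.take_left' (fac_length ω n i), List.take_left' (fac_length ω n j),
        hij]
    exact (fac_eq_iff ω (n + 1) i j).mp h1 n (by omega)
  -- two equal factors
  obtain ⟨i, j, hij, hfij⟩ : ∃ i j, i < j ∧ fac ω n i = fac ω n j := by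
    have : Finite (Set.range (fac ω n)) := (hRfin n).to_subtype
    obtain ⟨i, j, hne, he⟩ := Finite.exists_ne_map_eq_of_infinite
      (fun i : ℕ => (⟨fac ω n i, i, rfl⟩ : Set.range (fac ω n)))
    have he' : fac ω n i = fac ω n j := congrArg Subtype.val he
    rcases lt_or_gt_of_ne hne with h | h
    · exact ⟨i, j, h, he'⟩
    · exact ⟨j, i, h, he'.symm⟩
  have hper : ∀ t, fac ω n (i + t) = fac ω n (j + t) := by
    intro t
    induction t with
    | zero => exact hfij
    | succ t ih =>
      have h1 := hnext _ _ ih
      rw [fac_eq_iff] at ih ⊢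
      intro r hr
      by_cases hrn : r + 1 < n
      · have := ih (r + 1) hrn
        rw [show i + (t + 1) + r = i + t + (r + 1) by omega,
          show j + (t + 1) + r = j + t + (r + 1) by omega]
        exact this
      · have e : r + 1 = n := by omega
        rw [show i + (t + 1) + r = i + t + n by omega, show j + (t + 1) + r = j + t + n by omega]
        exact h1
  have hper2 : ∀ t, ω (i + t) = ω (j + t) := by
    intro t
    by_cases ht : t < n
    · exact (fac_eq_iff ω n i j).mp hfij t ht
    · have := hnext _ _ (hper (t - n))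
      rw [show i + (t - n) + n = i + t by omega, show j + (t - n) + n = j + t by omega] at this
      exact this
  obtain ⟨q, hq⟩ : ∃ q, q = j - i := ⟨_, rfl⟩
  have hq0 : 0 < q := by omega
  have hper3 : ∀ t, ω (i + t) = ω (i + q + t) := by
    intro t
    rw [hper2 t]
    congr 1
    omega
  have hper4 : ∀ k t, ω (i + t) = ω (i + k * q + t) := by
    intro k
    induction k with
    | zero => intro t; simp
    | succ k ih =>
      intro t
      rw [ih t, show i + k * q + t = i + (k * q + t) by omega, hper3]
      congr 1
      ring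
  refine ⟨((fac ω q i).map s).prod, fun k hk => ?_⟩
  have hpow : ∀ k, ((fac ω q i).map s).prod ^ k = ((fac ω (k * q) i).map s).prod := by
    intro k
    induction k with
    | zero => simp [fac]
    | succ k ih =>
      rw [pow_succ, ih, show (k + 1) * q = k * q + q by ring, fac_add, List.map_append,
        List.prod_append]
      congr 2
      congr 1
      rw [fac_eq_iff]
      intro t _
      exact hper4 k t
  rw [hpow]
  apply (hgood (k * q) i).ne_one
  intro h0
  have := fac_length ω (k * q) i
  rw [h0, List.length_nil] at this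
  have : 0 < k * q := Nat.mul_pos hk hq0
  omega

end Pool.Agent.H931
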