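import Pool.Agent.Helper931.Basic

set_option autoImplicit false

namespace Pool.Agent.H931

open Set

/-- the closure properties of the class of elementary amenable groups -/
structure EAClass (P : ∀ (G : Type) [Group G], Prop) : Prop where
  fin : ∀ (G : Type) [Group G] [Finite G], P G
  comm : ∀ (G : Type) [Group G], (∀ a b : G, a * b = b * a) → P G
  iso : ∀ (G G' : Type) [Group G] [Group G'], (G ≃* G') → P G → P G'
  sub : ∀ (G : Type) [Group G] (S : Subgroup G), P G → P ↥S
  quot : ∀ (G : Type) [Group G] (N : Subgroup G) [N.Normal], P G → P (G ⧸ N)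
  ext : ∀ (G : Type) [Group G] (N : Subgroup G) [N.Normal], P ↥N → P (G ⧸ N) → P G
  loc : ∀ (G : Type) [Group G], (∀ S : Subgroup G, S.FG → P ↥S) → P G

/-- characteristic function of a subgroup -/
noncomputable def chi {G : Type} [Group G] (L : Subgroup G) (g : G) : Bool := by
  classical exact decide (g ∈ L)

end Pool.Agent.H931
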