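import Pool.Agent.Helper931.C2
import Pool.Agent.Helper931.EA
import Pool.Agent.Helper931.C1a

set_option autoImplicit false

namespace Pool.Agent.H931

open Set

theorem lemmaQ_gens (E : Type) [Group E] (hE : Monoid.FG E) :
    ∃ (m : ℕ) (s : Fin m → E), ∀ g : E, ∃ w : List (Fin m), (w.map s).prod = g := by
  obtain ⟨T, hT⟩ := hE.fg_top
  refine ⟨T.card, fun i => (T.equivFin.symm i : E), ?_⟩
  intro g
  have hg : g ∈ Submonoid.closure (T : Set E) := by rw [hT]; trivial
  obtain ⟨l, hl, hp⟩ := Submonoid.exists_list_of_mem_closure hg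
  have key : ∀ l : List E, (∀ y ∈ l, y ∈ (T : Set E)) →
      ∃ w : List (Fin T.card), w.map (fun i => (T.equivFin.symm i : E)) = l := by
    intro l
    induction l with
    | nil => intro _; exact ⟨[], rfl⟩
    | cons a t ih =>
      intro h
      obtain ⟨w, hw⟩ := ih (fun y hy => h y (List.mem_cons_of_mem _ hy))
      have ha : a ∈ T := h a List.mem_cons_self
      refine ⟨T.equivFin ⟨a, ha⟩ :: w, ?_⟩
      rw [List.map_cons, hw, Equiv.symm_apply_apply]
  obtain ⟨w, hw⟩ := key l hl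
  exact ⟨w, by rw [hw, hp]⟩

theorem lemmaQ_index (Q : Type) [Group Q]
    (f : Q → ℤ) (hf : Function.Injective f) (v : Q) (C : ℕ)
    (hC : ∀ q, |f (v * q) - f q| ≤ C) (hv : ∀ k : ℕ, 0 < k → v ^ k ≠ 1) :
    (Subgroup.zpowers v).FiniteIndex := by
  by_contra hcon
  have hidx : (Subgroup.zpowers v).index = 0 := by
    by_contra h
    exact hcon ⟨h⟩
  have hinf : Infinite (Q ⧸ Subgroup.zpowers v) := Subgroup.index_eq_zero_iff_infinite.1 hidx
  let emb := Infinite.natEmbedding (Q ⧸ Subgroup.zpowers v)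
  let a : ℕ → Q := fun i => Quotient.out (emb i)
  have ha : ∀ i, ((a i : Q) : Q ⧸ Subgroup.zpowers v) = emb i := fun i =>
    QuotientGroup.out_eq' _
  have hpow : ∀ (j : ℕ) (q : Q), |f (v ^ j * q) - f q| ≤ C * j := by
    intro j q
    induction j with
    | zero => simp
    | succ j ih =>
      have e1 : v ^ (j + 1) * q = v * (v ^ j * q) := by rw [pow_succ', mul_assoc]
      rw [e1]
      have h1 := hC (v ^ j * q)
      have h2 : f (v * (v ^ j * q)) - f q =
          (f (v * (v ^ j * q)) - f (v ^ j * q)) + (f (v ^ j * q) - f q) := by ring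
      rw [h2]
      refine (abs_add_le _ _).trans ?_
      push_cast
      linarith
  have hpi : ∀ x y : ℕ, v ^ x = v ^ y → x = y := by
    intro x y h7
    by_contra hne
    rcases Nat.lt_or_gt_of_ne hne with hlt | hlt
    · obtain ⟨d, rfl⟩ := Nat.exists_eq_add_of_lt hlt
      rw [add_assoc, pow_add] at h7
      exact hv (d + 1) (Nat.succ_pos d) (left_eq_mul.1 h7)
    · obtain ⟨d, rfl⟩ := Nat.exists_eq_add_of_lt hlt
      rw [add_assoc, pow_add] at h7
      exact hv (d + 1) (Nat.succ_pos d) (mul_eq_left.1 h7)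
  -- a bound for the first values
  let k : ℕ := 2 * C + 1
  obtain ⟨F, hF⟩ : ∃ F : ℕ, ∀ i : Fin k, |f ((a i)⁻¹)| ≤ F := by
    refine ⟨∑ i : Fin k, (f ((a i)⁻¹)).natAbs, ?_⟩
    intro i
    have h1 : (f ((a i)⁻¹)).natAbs ≤ ∑ i : Fin k, (f ((a i)⁻¹)).natAbs :=
      Finset.single_le_sum (f := fun i : Fin k => (f ((a i)⁻¹)).natAbs) (fun _ _ => Nat.zero_le _)
        (Finset.mem_univ i)
    rw [Int.abs_eq_natAbs]
    exact_mod_cast h1
  let M : ℕ := 2 * F + 1
  let Φ : Fin k × Fin (M + 1) → ℤ := fun p => f (v ^ (p.2 : ℕ) * (a p.1)⁻¹)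
  have hΦ : Function.Injective Φ := by
    rintro ⟨i, j⟩ ⟨i', j'⟩ h
    have h1 : v ^ (j : ℕ) * (a i)⁻¹ = v ^ (j' : ℕ) * (a i')⁻¹ := hf h
    have h2 : (a i)⁻¹ * a i' = (v ^ (j : ℕ))⁻¹ * v ^ (j' : ℕ) := by
      have : (a i)⁻¹ = (v ^ (j : ℕ))⁻¹ * (v ^ (j' : ℕ) * (a i')⁻¹) := by
        rw [← h1]; group
      rw [this]; group
    have h3 : (a i)⁻¹ * a i' ∈ Subgroup.zpowers v := by
      rw [h2]
      exact Subgroup.mul_mem _ (Subgroup.inv_mem _ (Subgroup.npow_mem_zpowers v _))
        (Subgroup.npow_mem_zpowers v _)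
    have h4 : emb i = emb i' := by
      rw [← ha, ← ha]
      exact QuotientGroup.eq.2 h3
    have h5 : (i : ℕ) = i' := emb.injective h4
    have h6 : i = i' := Fin.ext h5
    subst h6
    have h7 : v ^ (j : ℕ) = v ^ (j' : ℕ) := mul_right_cancel h1
    have h8 : (j : ℕ) = j' := hpi _ _ h7
    exact Prod.ext rfl (Fin.ext h8)
  have hsub : (Finset.univ.image Φ) ⊆ Finset.Icc (-((C * M + F : ℕ) : ℤ)) ((C * M + F : ℕ) : ℤ) := by
    intro z hz
    rw [Finset.mem_image] at hz
    obtain ⟨⟨i, j⟩, _, rfl⟩ := hz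
    rw [Finset.mem_Icc, ← abs_le]
    show |f (v ^ (j : ℕ) * (a i)⁻¹)| ≤ _
    have h1 := hpow j ((a i)⁻¹)
    have h2 := hF i
    have h3 : (j : ℕ) ≤ M := Nat.lt_succ_iff.1 j.2
    have h4 : ((C * j : ℕ) : ℤ) ≤ ((C * M : ℕ) : ℤ) := by exact_mod_cast Nat.mul_le_mul_left C h3
    have h5 : f (v ^ (j : ℕ) * (a i)⁻¹) = (f (v ^ (j : ℕ) * (a i)⁻¹) - f ((a i)⁻¹)) + f ((a i)⁻¹) := by
      ring
    rw [h5]
    refine (abs_add_le _ _).trans ?_
    push_cast at h4 ⊢
    linarith
  have hcard := Finset.card_le_card hsub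
  rw [Finset.card_image_of_injective _ hΦ, Finset.card_univ, Fintype.card_prod, Fintype.card_fin,
    Fintype.card_fin, Int.card_Icc] at hcard
  have e1 : ((C * M + F : ℕ) : ℤ) + 1 - -((C * M + F : ℕ) : ℤ) = ((2 * (C * M + F) + 1 : ℕ) : ℤ) := by
    push_cast; ring
  rw [e1, Int.toNat_natCast] at hcard
  have hk : k = 2 * C + 1 := rfl
  have hM : M = 2 * F + 1 := rfl
  rw [hk] at hcard
  have h9 : (2 * C + 1) * (M + 1) = 2 * (C * M) + 2 * C + M + 1 := by ring
  rw [h9] at hcard
  omega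

theorem lemmaQ (P : ∀ (G : Type) [Group G], Prop) (hP : EAClass P) (Q : Type) [Group Q]
    (f : Q → ℤ) (hf : Function.Injective f)
    (hb : ∀ e : Q, ∃ C : ℤ, ∀ q, |f (e * q) - f q| ≤ C) : P Q := by
  by_cases h : ∃ S : Subgroup Q, S.FG ∧ Infinite S
  · obtain ⟨S, hS, hinf⟩ := h
    have hFG : Monoid.FG S := by
      rw [← Group.fg_iff_monoid_fg]
      exact (Group.fg_iff_subgroup_fg S).2 hS
    obtain ⟨m, s, hgen⟩ := lemmaQ_gens S hFG
    choose c hc using hb
    let C : ℕ := ∑ i : Fin m, (c (s i : Q)).natAbs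
    have hC : ∀ (i : Fin m) (q : Q), |f ((s i : Q) * q) - f q| ≤ C := by
      intro i q
      refine (hc (s i : Q) q).trans ?_
      have h1 : (c (s i : Q)).natAbs ≤ C :=
        Finset.single_le_sum (f := fun i : Fin m => (c (s i : Q)).natAbs)
          (fun _ _ => Nat.zero_le _) (Finset.mem_univ i)
      refine Int.le_natAbs.trans ?_
      exact_mod_cast h1
    have hword : ∀ w : List (Fin m), |f (((w.map s).prod : S) : Q) - f 1| ≤ C * w.length := by
      intro w
      induction w with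
      | nil => simp
      | cons i t ih =>
        rw [List.map_cons, List.prod_cons, List.length_cons]
        have h1 := hC i (((t.map s).prod : S) : Q)
        have e1 : ((s i * (t.map s).prod : S) : Q) = (s i : Q) * (((t.map s).prod : S) : Q) := rfl
        rw [e1]
        have h2 : f ((s i : Q) * (((t.map s).prod : S) : Q)) - f 1 =
            (f ((s i : Q) * (((t.map s).prod : S) : Q)) - f (((t.map s).prod : S) : Q)) +
              (f (((t.map s).prod : S) : Q) - f 1) := by ring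
        rw [h2]
        refine (abs_add_le _ _).trans ?_
        rw [Nat.cast_add, Nat.cast_one, mul_add, mul_one]
        linarith
    have hgr : ∀ n : ℕ, {g : S | ∃ w : List (Fin m), w.length ≤ n ∧ (w.map s).prod = g}.ncard
        ≤ (2 * C + 1) * (n + 1) := by
      intro n
      have h1 : {g : S | ∃ w : List (Fin m), w.length ≤ n ∧ (w.map s).prod = g}.ncard ≤
          (Set.Icc (f 1 - (C * n : ℕ)) (f 1 + (C * n : ℕ))).ncard := by
        apply Set.ncard_le_ncard_of_injOn (fun g : S => f (g : Q))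
        · rintro g ⟨w, hw, rfl⟩
          have h2 := abs_le.1 (hword w)
          have h3 : ((C * w.length : ℕ) : ℤ) ≤ ((C * n : ℕ) : ℤ) := by
            exact_mod_cast Nat.mul_le_mul_left C hw
          rw [Nat.cast_mul, Nat.cast_mul] at h3
          rw [Set.mem_Icc, Nat.cast_mul]
          constructor <;> linarith [h2.1, h2.2]
        · intro g _ g' _ hgg
          exact Subtype.ext (hf hgg)
      refine h1.trans ?_
      rw [← Finset.coe_Icc, Set.ncard_coe_finset, Int.card_Icc]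
      have e1 : f 1 + ((C * n : ℕ) : ℤ) + 1 - (f 1 - ((C * n : ℕ) : ℤ)) =
          ((2 * (C * n) + 1 : ℕ) : ℤ) := by push_cast; ring
      rw [e1, Int.toNat_natCast]
      nlinarith
    obtain ⟨u, hu⟩ := exists_infinite_order m s hgen (2 * C + 1) hgr
    have hv : ∀ k : ℕ, 0 < k → (u : Q) ^ k ≠ 1 := by
      intro k hk hh
      apply hu k hk
      apply Subtype.ext
      rw [Subgroup.coe_pow, hh]
      rfl
    have hfi : (Subgroup.zpowers (u : Q)).FiniteIndex := by
      apply lemmaQ_index Q f hf (u : Q) (c (u : Q)).natAbs _ hv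
      intro q
      exact (hc (u : Q) q).trans Int.le_natAbs
    have hN : (Subgroup.zpowers (u : Q)).normalCore.FiniteIndex := inferInstance
    have hfin : Finite (Q ⧸ (Subgroup.zpowers (u : Q)).normalCore) :=
      Subgroup.finite_quotient_of_finiteIndex
    refine hP.ext Q (Subgroup.zpowers (u : Q)).normalCore ?_ (hP.fin _)
    apply hP.comm
    rintro ⟨a, ha⟩ ⟨b, hb'⟩
    apply Subtype.ext
    have ha' := Subgroup.normalCore_le _ ha
    have hb'' := Subgroup.normalCore_le _ hb'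
    obtain ⟨i, hi⟩ := Subgroup.mem_zpowers_iff.1 ha'
    obtain ⟨j, hj⟩ := Subgroup.mem_zpowers_iff.1 hb''
    show a * b = b * a
    rw [← hi, ← hj, ← zpow_add, ← zpow_add, add_comm]
  · apply hP.loc
    intro S hS
    have hfin : Finite S := by
      by_contra hc
      exact h ⟨S, hS, not_finite_iff_infinite.1 hc⟩
    exact hP.fin S

end Pool.Agent.H931
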