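import Pool.Agent.Helper931.Basic

set_option autoImplicit false

namespace Pool.Agent.H931

open Set

theorem aux_cyl_open (n N : ℕ) (x : ℤ → Fin n) :
    IsOpen {y : ℤ → Fin n | ∀ i : ℤ, |i| ≤ (N : ℤ) → y i = x i} := by
  have h : {y : ℤ → Fin n | ∀ i : ℤ, |i| ≤ (N : ℤ) → y i = x i}
      = ⋂ i ∈ Finset.Icc (-(N : ℤ)) N, {y : ℤ → Fin n | y i = x i} := by
    ext y
    simp only [Set.mem_ofPred_eq, Set.mem_iInter, Finset.mem_Icc, abs_le]
  rw [h]
  refine isOpen_biInter_finset fun i _ => ?_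
  have : {y : ℤ → Fin n | y i = x i} = (fun y : ℤ → Fin n => y i) ⁻¹' {x i} := by
    ext y
    simp
  rw [this]
  exact (isOpen_discrete _).preimage (continuous_apply i)

theorem bounded_shift (n : ℕ) (Ω : Set (ℤ → Fin n))
    (hclosed : ∀ x : ℤ → Fin n,
      (∀ N : ℕ, ∃ y ∈ Ω, ∀ i : ℤ, |i| ≤ (N : ℤ) → y i = x i) → x ∈ Ω)
    (g : Equiv.Perm ↥Ω)
    (hloc : ∀ x : ↥Ω, ∃ N : ℕ, ∃ m : ℤ, ∀ y : ↥Ω,
        (∀ i : ℤ, |i| ≤ (N : ℤ) → (y : ℤ → Fin n) i = (x : ℤ → Fin n) i) →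
          ((g y : ↥Ω) : ℤ → Fin n) = fun i => (y : ℤ → Fin n) (i + m)) :
    ∃ R : ℕ, ∀ y : ↥Ω, ∃ m : ℤ, |m| ≤ R ∧
      ((g y : ↥Ω) : ℤ → Fin n) = fun i => (y : ℤ → Fin n) (i + m) := by
  have hcl : IsClosed Ω := by
    apply isClosed_of_closure_subset
    intro x hx
    apply hclosed
    intro N
    rw [mem_closure_iff] at hx
    obtain ⟨y, hy1, hy2⟩ := hx _ (aux_cyl_open n N x) (fun i _ => rfl)
    exact ⟨y, hy2, hy1⟩
  have hcomp : IsCompact Ω := hcl.isCompact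
  have : CompactSpace ↥Ω := isCompact_iff_compactSpace.1 hcomp
  choose N m hNm using hloc
  let U : ↥Ω → Set ↥Ω := fun x => {y | ∀ i : ℤ, |i| ≤ (N x : ℤ) → (y : ℤ → Fin n) i =
    (x : ℤ → Fin n) i}
  have hU : ∀ x ∈ (Set.univ : Set ↥Ω), U x ∈ nhds x := by
    intro x _
    apply IsOpen.mem_nhds
    · exact (aux_cyl_open n (N x) x).preimage continuous_subtype_val
    · intro i _
      rfl
  obtain ⟨t, -, ht⟩ := isCompact_univ.elim_nhds_subcover U hU
  refine ⟨t.sup (fun x => (m x).natAbs), fun y => ?_⟩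
  have hy := ht (Set.mem_univ y)
  rw [Set.mem_iUnion₂] at hy
  obtain ⟨x, hx, hyx⟩ := hy
  refine ⟨m x, ?_, hNm x y hyx⟩
  rw [Int.abs_eq_natAbs]
  have : (m x).natAbs ≤ t.sup (fun x => (m x).natAbs) :=
    Finset.le_sup (f := fun x => (m x).natAbs) hx
  exact_mod_cast this

theorem finite_periodic (n M : ℕ) :
    {x : ℤ → Fin n | ∃ k : ℕ, 1 ≤ k ∧ k ≤ M ∧ ∀ i, x (i + k) = x i}.Finite := by
  have hk : ∀ k : ℕ, 1 ≤ k → {x : ℤ → Fin n | ∀ i, x (i + k) = x i}.Finite := by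
    intro k hk
    apply Set.Finite.of_finite_image (f := fun x : ℤ → Fin n => fun j : Fin k => x (j : ℤ))
      (Set.toFinite _)
    intro x hx y hy hxy
    have hx' : Function.Periodic x (k : ℤ) := hx
    have hy' : Function.Periodic y (k : ℤ) := hy
    have hkpos : (0 : ℤ) < k := by exact_mod_cast hk
    funext i
    have hdecomp : i = i % k + (i / k) * k := by
      have := Int.emod_add_mul_ediv i k
      rw [mul_comm] at this
      exact this.symm
    have h0 : 0 ≤ i % k := Int.emod_nonneg i hkpos.ne'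
    have h1 : i % k < k := Int.emod_lt_of_pos i hkpos
    obtain ⟨r, hr⟩ := Int.eq_ofNat_of_zero_le h0
    have hrk : r < k := by
      rw [hr] at h1
      exact_mod_cast h1
    have hx1 : x i = x (i % k) := by
      conv_lhs => rw [hdecomp]
      exact hx'.int_mul (i / k) (i % k)
    have hy1 : y i = y (i % k) := by
      conv_lhs => rw [hdecomp]
      exact hy'.int_mul (i / k) (i % k)
    rw [hx1, hy1, hr]
    exact congrFun hxy ⟨r, hrk⟩
  have hfin : (⋃ k ∈ Finset.Icc 1 M, {x : ℤ → Fin n | ∀ i, x (i + k) = x i}).Finite := by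
    apply Set.Finite.biUnion (Finset.finite_toSet _)
    intro k hk'
    rw [Finset.mem_coe, Finset.mem_Icc] at hk'
    exact hk k hk'.1
  refine hfin.subset ?_
  rintro x ⟨k, h1, h2, h3⟩
  rw [Set.mem_iUnion₂]
  exact ⟨k, Finset.mem_Icc.2 ⟨h1, h2⟩, h3⟩

end Pool.Agent.H931
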