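import Pool.Agent.Helper931.A1
import Pool.Agent.Helper931.BddDef

set_option autoImplicit false

namespace Pool.Agent.H931

open Set

theorem orbit_bdd {ι K Y : Type} [Group K] [MulAction K Y] (x : ι → K) (n : ℕ)
    (hp : Pres x n) (hg : Gens x) (T : Equiv.Perm Y) (R : ℕ)
    (hb : ∀ (i : ι) (y : Y), ∃ m : ℤ, |m| ≤ R ∧ x i • y = (T ^ m) y) (y : Y)
    (hy : ∀ k : ℕ, 1 ≤ k → k ≤ n * R → (T ^ k) y ≠ y) :
    ∃ L : Subgroup K, Bdd x R L ∧ ∀ g ∈ L, g • y = y := by
  classical
  choose μ hμ1 hμ2 using hb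
  -- the orbit
  obtain ⟨O, hO⟩ : ∃ O : Set Y, ∀ v, v ∈ O ↔ ∃ j : ℤ, v = (T ^ j) y :=
    ⟨{v | ∃ j : ℤ, v = (T ^ j) y}, fun v => Iff.rfl⟩
  have hyO : y ∈ O := (hO y).2 ⟨0, by simp⟩
  have hOT : ∀ v ∈ O, ∀ j : ℤ, (T ^ j) v ∈ O := by
    intro v hv j
    obtain ⟨j', rfl⟩ := (hO v).1 hv
    exact (hO _).2 ⟨j + j', by rw [zpow_add, Equiv.Perm.mul_apply]⟩
  set e : ι × Bool → Y → ℤ := fun l v =>
    if v ∈ O then (if l.2 = true then μ l.1 v else - μ l.1 ((x l.1)⁻¹ • v)) else 0 with he
  have heT : ∀ i v, v ∈ O → e (i, true) v = μ i v := by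
    intro i v hv
    simp only [he, hv, if_true]
  have heF : ∀ i v, v ∈ O → e (i, false) v = - μ i ((x i)⁻¹ • v) := by
    intro i v hv
    simp only [he, hv, if_true]
    simp
  have heO : ∀ l v, v ∉ O → e l v = 0 := by
    intro l v hv
    simp only [he, hv, if_false]
  have heR : ∀ l v, |e l v| ≤ R := by
    intro l v
    by_cases hv : v ∈ O
    · rcases l with ⟨i, b⟩
      cases b
      · rw [heF i v hv, abs_neg]; exact hμ1 _ _
      · rw [heT i v hv]; exact hμ1 _ _
    · rw [heO l v hv, abs_zero]; positivity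
  have F1 : ∀ l v, v ∈ O → ltr x l • v = (T ^ (e l v)) v := by
    intro l v hv
    rcases l with ⟨i, b⟩
    cases b
    · rw [heF i v hv, ltr_false]
      have h1 := hμ2 i ((x i)⁻¹ • v)
      rw [smul_inv_smul] at h1
      rw [zpow_neg, Equiv.Perm.eq_inv_iff_eq]
      exact h1.symm
    · rw [heT i v hv, ltr_true]
      exact hμ2 i v
  have F2 : ∀ w : List (ι × Bool), ∀ v ∈ O, ev x w • v = (T ^ (wsum x e w v)) v ∧
      |wsum x e w v| ≤ w.length * R := by
    intro w
    induction w with
    | nil =>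
      intro v _
      simp [wsum]
    | cons l w ih =>
      intro v hv
      obtain ⟨h1, h2⟩ := ih v hv
      have h3 : ev x w • v ∈ O := by rw [h1]; exact hOT v hv _
      constructor
      · rw [ev_cons, mul_smul, F1 l _ h3]
        show (T ^ (e l (ev x w • v))) (ev x w • v) = (T ^ (e l (ev x w • v) + wsum x e w v)) v
        rw [zpow_add, Equiv.Perm.mul_apply, ← h1]
      · show |e l (ev x w • v) + wsum x e w v| ≤ ((l :: w).length : ℤ) * R
        refine (abs_add_le _ _).trans ?_
        have h4 := heR l (ev x w • v)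
        rw [List.length_cons]
        push_cast
        linarith
  have hinv : ∀ (g : K) (v : Y), v ∈ O → g • v ∈ O := by
    intro g v hv
    obtain ⟨w, rfl⟩ := hg g
    rw [(F2 w v hv).1]
    exact hOT v hv _
  have hinv' : ∀ (g : K) (v : Y), v ∉ O → g • v ∉ O := by
    intro g v hv hgv
    apply hv
    have := hinv g⁻¹ _ hgv
    rwa [inv_smul_smul] at this
  have F3 : ∀ w : List (ι × Bool), ∀ v, v ∉ O → wsum x e w v = 0 := by
    intro w
    induction w with
    | nil => intro v _; rfl
    | cons l w ih =>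
      intro v hv
      show e l (ev x w • v) + wsum x e w v = 0
      rw [ih v hv, heO l _ (hinv' _ v hv), add_zero]
  have hee : ∀ i v, e (i, false) (x i • v) = - e (i, true) v := by
    intro i v
    by_cases hv : v ∈ O
    · rw [heF i _ (hinv (x i) v hv), heT i v hv, inv_smul_smul]
    · rw [heO _ _ (hinv' (x i) v hv), heO _ v hv, neg_zero]
  have hrel : ∀ w : List (ι × Bool), w.length ≤ n → ev x w = 1 → ∀ v, wsum x e w v = 0 := by
    intro w hw hw1 v
    by_cases hv : v ∈ O
    · obtain ⟨h1, h2⟩ := F2 w v hv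
      rw [hw1, one_smul] at h1
      by_contra hs
      obtain ⟨j, hj⟩ := (hO v).1 hv
      have h3 : (T ^ (wsum x e w v)) y = y := by
        generalize wsum x e w v = s at *
        rw [hj, ← Equiv.Perm.mul_apply, ← zpow_add, add_comm, zpow_add, Equiv.Perm.mul_apply] at h1
        exact ((T ^ j).injective h1).symm
      have h4 : (wsum x e w v).natAbs ≤ n * R := by
        have h5 : ((wsum x e w v).natAbs : ℤ) ≤ (n : ℤ) * R := by
          rw [Int.natCast_natAbs]
          refine h2.trans ?_
          have : (w.length : ℤ) ≤ n := by exact_mod_cast hw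
          exact mul_le_mul_of_nonneg_right this (by positivity)
        exact_mod_cast h5
      apply hy (wsum x e w v).natAbs (by omega) h4
      rcases Int.natAbs_eq (wsum x e w v) with h5 | h5
      · rw [h5, zpow_natCast] at h3
        exact h3
      · rw [h5, zpow_neg, Equiv.Perm.inv_eq_iff_eq, zpow_natCast] at h3
        exact h3.symm
    · exact F3 w v hv
  obtain ⟨c, hc1, hc2⟩ := exists_cocycle x n hp hg e hee hrel
  have c1 : ∀ v, c 1 v = 0 := by
    intro v
    have := hc1 1 1 v
    rw [one_smul, mul_one] at this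
    omega
  have F4 : ∀ w : List (ι × Bool), ∀ v, c (ev x w) v = wsum x e w v := by
    intro w
    induction w with
    | nil => intro v; exact c1 v
    | cons l w ih =>
      intro v
      rw [ev_cons, hc1, hc2, ih]
      rfl
  have F5 : ∀ g : K, ∀ v ∈ O, g • v = (T ^ (c g v)) v := by
    intro g v hv
    obtain ⟨w, rfl⟩ := hg g
    rw [F4 w v]
    exact (F2 w v hv).1
  have hfix : ∀ g : K, c g y = 0 → g • y = y := by
    intro g hgy
    rw [F5 g y hyO, hgy, zpow_zero]
    rfl
  let L : Subgroup K :=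
    { carrier := {g | c g y = 0}
      one_mem' := c1 y
      mul_mem' := by
        intro a b ha hb
        show c (a * b) y = 0
        have ha' : c a y = 0 := ha
        have hb' : c b y = 0 := hb
        rw [hc1, hfix b hb', ha', hb', add_zero]
      inv_mem' := by
        intro a ha
        have ha' : c a y = 0 := ha
        show c a⁻¹ y = 0
        have := hc1 a⁻¹ a y
        rw [inv_mul_cancel, c1, hfix a ha', ha', add_zero] at this
        exact this.symm }
  have hL : ∀ g, g ∈ L ↔ c g y = 0 := fun g => Iff.rfl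
  have hwd : ∀ a b : K, a⁻¹ * b ∈ L → c a y = c b y := by
    intro a b hab
    rw [hL] at hab
    have h1 := hc1 a (a⁻¹ * b) y
    rw [mul_inv_cancel_left, hfix _ hab, hab, add_zero] at h1
    exact h1.symm
  let pos : K ⧸ L → ℤ := Quotient.lift (fun g => c g y) (by
    intro a b hab
    exact hwd a b (QuotientGroup.leftRel_apply.1 hab))
  have hpos : ∀ g : K, pos (g : K ⧸ L) = c g y := fun g => rfl
  refine ⟨L, ⟨pos, ?_, ?_⟩, fun g hgL => hfix g ((hL g).1 hgL)⟩
  · intro a b hab
    obtain ⟨g, rfl⟩ := QuotientGroup.mk_surjective a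
    obtain ⟨h, rfl⟩ := QuotientGroup.mk_surjective b
    rw [hpos, hpos] at hab
    rw [QuotientGroup.eq, hL]
    have h1 : h • y = g • y := by
      rw [F5 h y hyO, F5 g y hyO, hab]
    have h2 := hc1 g⁻¹ g y
    rw [inv_mul_cancel, c1] at h2
    rw [hc1, h1, ← hab]
    exact h2.symm
  · intro i v
    obtain ⟨g, rfl⟩ := QuotientGroup.mk_surjective v
    have h1 : x i • (g : K ⧸ L) = ((x i * g : K) : K ⧸ L) := rfl
    rw [h1, hpos, hpos, hc1]
    have h2 := hc2 (i, true) (g • y)
    rw [ltr_true] at h2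
    rw [h2, add_sub_cancel_right]
    exact heR _ _

end Pool.Agent.H931
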