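import Pool.Agent.Helper931.EA
import Pool.Agent.Helper931.BddDef

set_option autoImplicit false

namespace Pool.Agent.H931

open Set

theorem compact_bdd {ι K : Type} [Group K] (x : ι → K) (hg : Gens x) (R : ℕ) :
    IsCompact (chi '' {L : Subgroup K | Bdd x R L}) := by
  classical
  let P : Set (K → ℤ) := {p | p 1 = 0 ∧ (∀ i g, |p (x i * g) - p g| ≤ R) ∧
    ∀ g h, (p g = p h ↔ p (g⁻¹ * h) = 0)}
  have hbound : ∀ p ∈ P, ∀ w : List (ι × Bool), |p (ev x w)| ≤ R * w.length := by
    intro p hp w
    obtain ⟨h1, h2, _⟩ := hp
    induction w with
    | nil => simp [h1]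
    | cons l w ih =>
      rw [ev_cons]
      have key : |p (ltr x l * ev x w) - p (ev x w)| ≤ R := by
        rcases l with ⟨i, b⟩
        cases b
        · have := h2 i ((x i)⁻¹ * ev x w)
          rw [mul_inv_cancel_left] at this
          rw [ltr_false, abs_sub_comm]
          exact this
        · exact h2 i (ev x w)
      have h3 : |p (ltr x l * ev x w)| ≤ |p (ltr x l * ev x w) - p (ev x w)| + |p (ev x w)| := by
        have := abs_add_le (p (ltr x l * ev x w) - p (ev x w)) (p (ev x w))
        simpa using this
      have h4 : ((l :: w).length : ℤ) = w.length + 1 := by simp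
      rw [h4]
      nlinarith
  choose wd hwd using hg
  have hsub : P ⊆ Set.univ.pi (fun g : K => Set.Icc (-((R : ℤ) * (wd g).length)) (R * (wd g).length)) := by
    intro p hp g _
    have := hbound p hp (wd g)
    rw [hwd g] at this
    exact abs_le.mp this
  have hcompact : IsCompact (Set.univ.pi (fun g : K =>
      Set.Icc (-((R : ℤ) * (wd g).length)) (R * (wd g).length))) :=
    isCompact_univ_pi (fun g => (Set.finite_Icc _ _).isCompact)
  have hclosed : IsClosed P := by
    have e : P = {p : K → ℤ | p 1 = 0} ∩ ((⋂ i, ⋂ g, {p : K → ℤ | |p (x i * g) - p g| ≤ R}) ∩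
        (⋂ g, ⋂ h, {p : K → ℤ | (p g = p h ↔ p (g⁻¹ * h) = 0)})) := by
      ext p
      simp [P]
    rw [e]
    refine IsClosed.inter (isClosed_eq (continuous_apply 1) continuous_const) (IsClosed.inter ?_ ?_)
    · refine isClosed_iInter fun i => isClosed_iInter fun g => ?_
      have hc : Continuous (fun p : K → ℤ => |p (x i * g) - p g|) :=
        ((continuous_apply (x i * g)).sub (continuous_apply g)).abs
      exact isClosed_le hc continuous_const
    · refine isClosed_iInter fun g => isClosed_iInter fun h => ?_
      have hc : Continuous (fun p : K → ℤ => ((p g, p h), p (g⁻¹ * h))) :=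
        ((continuous_apply _).prodMk (continuous_apply _)).prodMk (continuous_apply _)
      exact (isClosed_discrete ({q : (ℤ × ℤ) × ℤ | (q.1.1 = q.1.2 ↔ q.2 = 0)})).preimage hc
  have hPc : IsCompact P := hcompact.of_isClosed_subset hclosed hsub
  let φ : (K → ℤ) → (K → Bool) := fun p g => decide (p g = 0)
  have hφ : Continuous φ := by
    refine continuous_pi fun g => ?_
    exact (continuous_of_discreteTopology (f := fun z : ℤ => decide (z = 0))).comp (continuous_apply g)
  have himg : φ '' P = chi '' {L : Subgroup K | Bdd x R L} := by
    ext c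
    constructor
    · rintro ⟨p, ⟨h1, h2, h3⟩, rfl⟩
      let L : Subgroup K :=
        { carrier := {g | p g = 0}
          one_mem' := h1
          mul_mem' := by
            intro a b ha hb
            have ha' : p a = 0 := ha
            have hb' : p b = 0 := hb
            have hai : p a⁻¹ = 0 := by
              have := (h3 a 1).mp (by rw [ha', h1])
              simpa using this
            have := (h3 a⁻¹ b).mp (by rw [hai, hb'])
            simpa using this
          inv_mem' := by
            intro a ha
            have ha' : p a = 0 := ha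
            have := (h3 a 1).mp (by rw [ha', h1])
            simpa using this }
      have hmem : ∀ g, g ∈ L ↔ p g = 0 := fun g => Iff.rfl
      refine ⟨L, ?_, ?_⟩
      · refine ⟨Quotient.lift p ?_, ?_, ?_⟩
        · intro a b hab
          have : a⁻¹ * b ∈ L := QuotientGroup.leftRel_apply.mp hab
          exact (h3 a b).mpr ((hmem _).mp this)
        · intro u v
          induction u using QuotientGroup.induction_on with | H a => ?_
          induction v using QuotientGroup.induction_on with | H b => ?_
          intro hab
          have hab' : p a = p b := hab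
          exact QuotientGroup.eq.mpr ((hmem _).mpr ((h3 a b).mp hab'))
        · intro i v
          induction v using QuotientGroup.induction_on with | H b => ?_
          exact h2 i b
      · funext g
        simp only [chi, φ, hmem]
    · rintro ⟨L, ⟨pos, hinj, hpos⟩, rfl⟩
      refine ⟨fun g => pos (g : K ⧸ L) - pos ((1 : K) : K ⧸ L), ⟨by simp, ?_, ?_⟩, ?_⟩
      · intro i g
        have := hpos i (g : K ⧸ L)
        have e : x i • (g : K ⧸ L) = ((x i * g : K) : K ⧸ L) := rfl
        rw [e] at this
        simpa using this
      · intro g h
        constructor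
        · intro he
          have he' : pos (g : K ⧸ L) - pos ((1 : K) : K ⧸ L) = pos (h : K ⧸ L) - pos ((1 : K) : K ⧸ L) := he
          have : pos (g : K ⧸ L) = pos (h : K ⧸ L) := by linarith
          have := QuotientGroup.eq.mp (hinj this)
          have h5 : ((g⁻¹ * h : K) : K ⧸ L) = ((1 : K) : K ⧸ L) := by
            rw [QuotientGroup.eq]
            simpa using L.inv_mem this
          show pos ((g⁻¹ * h : K) : K ⧸ L) - pos ((1 : K) : K ⧸ L) = 0
          rw [h5]; simp
        · intro he
          have he' : pos ((g⁻¹ * h : K) : K ⧸ L) - pos ((1 : K) : K ⧸ L) = 0 := he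
          have : pos ((g⁻¹ * h : K) : K ⧸ L) = pos ((1 : K) : K ⧸ L) := by linarith
          have := QuotientGroup.eq.mp (hinj this)
          have h5 : g⁻¹ * h ∈ L := by
            have := L.inv_mem this
            simpa using this
          have h6 : (g : K ⧸ L) = (h : K ⧸ L) := QuotientGroup.eq.mpr h5
          simp [h6]
      · funext g
        simp only [φ, chi]
        congr 1
        rw [eq_iff_iff, sub_eq_zero]
        constructor
        · intro he
          have := QuotientGroup.eq.mp (hinj he)
          have := L.inv_mem this
          simpa using this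
        · intro he
          congr 1
          rw [QuotientGroup.eq]
          simpa using L.inv_mem he
  rw [← himg]
  exact hPc.image hφ

theorem bdd_conj {ι K : Type} [Group K] (x : ι → K) (R : ℕ) (L : Subgroup K) (h : Bdd x R L)
    (k : K) : Bdd x R (L.map (MulAut.conj k).toMonoidHom) := by
  obtain ⟨pos, hinj, hpos⟩ := h
  have hmem : ∀ g, g ∈ L.map (MulAut.conj k).toMonoidHom ↔ k⁻¹ * g * k ∈ L := by
    intro g
    constructor
    · rintro ⟨l, hl, rfl⟩
      have : k⁻¹ * ((MulAut.conj k).toMonoidHom l) * k = l := by
        simp [mul_assoc]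
      rw [this]; exact hl
    · intro hl
      refine ⟨_, hl, ?_⟩
      simp [mul_assoc]
  refine ⟨Quotient.lift (fun g => pos ((g * k : K) : K ⧸ L)) ?_, ?_, ?_⟩
  · intro a b hab
    have h1 : a⁻¹ * b ∈ L.map (MulAut.conj k).toMonoidHom := QuotientGroup.leftRel_apply.mp hab
    have h2 := (hmem _).mp h1
    show pos ((a * k : K) : K ⧸ L) = pos ((b * k : K) : K ⧸ L)
    congr 1
    rw [QuotientGroup.eq]
    simpa [mul_assoc] using h2
  · intro u v
    induction u using QuotientGroup.induction_on with | H a => ?_
    induction v using QuotientGroup.induction_on with | H b => ?_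
    intro hab
    have hab' : pos ((a * k : K) : K ⧸ L) = pos ((b * k : K) : K ⧸ L) := hab
    have h1 := QuotientGroup.eq.mp (hinj hab')
    rw [QuotientGroup.eq, hmem]
    simpa [mul_assoc] using h1
  · intro i v
    induction v using QuotientGroup.induction_on with | H b => ?_
    have h1 := hpos i ((b * k : K) : K ⧸ L)
    have e : x i • ((b * k : K) : K ⧸ L) = ((x i * b * k : K) : K ⧸ L) := by
      rw [mul_assoc]; rfl
    rw [e] at h1
    exact h1

end Pool.Agent.H931
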