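import Pool.Agent.Helper931.Basic

set_option autoImplicit false

namespace Pool.Agent.H931

open Set

theorem ends_aux {ι K V : Type} [Group K] [MulAction K V] [MulAction.IsPretransitive K V]
    (x : ι → K) (hg : Gens x) (pos : V → ℤ) (hinj : Function.Injective pos) (R : ℕ)
    (hpos : ∀ l v, |pos (ltr x l • v) - pos v| ≤ R) (p : V)
    (Z : Fin (R + 1) → Set V) (hdisj : Pairwise (Function.onFun Disjoint Z))
    (hbd : ∀ i, {v | v ∈ Z i ∧ ∃ l, ltr x l • v ∉ Z i}.Finite)
    (hun : ∀ i, ¬ BddAbove (pos '' Z i)) : False := by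
  classical
  have hfin : (⋃ i, {v | v ∈ Z i ∧ ∃ l, ltr x l • v ∉ Z i}).Finite := Set.finite_iUnion hbd
  have hfin2 : (pos '' ((⋃ i, {v | v ∈ Z i ∧ ∃ l, ltr x l • v ∉ Z i}) ∪ {p})).Finite :=
    (hfin.union (Set.finite_singleton p)).image pos
  obtain ⟨m, hm⟩ := hfin2.bddAbove
  obtain ⟨n, hn⟩ : ∃ n : ℤ, n = m + 1 := ⟨_, rfl⟩
  have hp : pos p < n := by
    have := hm (Set.mem_image_of_mem pos (Or.inr rfl))
    omega
  have hb : ∀ i v, n ≤ pos v → v ∈ Z i → ∀ l, ltr x l • v ∈ Z i := by
    intro i v hv hvZ l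
    by_contra hcon
    have := hm (Set.mem_image_of_mem pos (Or.inl (Set.mem_iUnion.2 ⟨i, hvZ, l, hcon⟩)))
    omega
  have key : ∀ i, ∃ v, v ∈ Z i ∧ n ≤ pos v ∧ pos v < n + R := by
    intro i
    by_contra hcon
    push Not at hcon
    obtain ⟨v₀, hv₀, hv₀'⟩ : ∃ v, v ∈ Z i ∧ n + R ≤ pos v := by
      by_contra hc
      push Not at hc
      apply hun i
      refine ⟨n + R, ?_⟩
      rintro _ ⟨v, hv, rfl⟩
      exact (hc v hv).le
    have hcl : ∀ w : List (ι × Bool), ev x w • v₀ ∈ Z i ∧ n + R ≤ pos (ev x w • v₀) := by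
      intro w
      induction w with
      | nil => simpa using ⟨hv₀, hv₀'⟩
      | cons l w ih =>
        obtain ⟨ih1, ih2⟩ := ih
        rw [ev_cons, mul_smul]
        have h1 := hb i _ (by omega) ih1 l
        have h2 := abs_le.1 (hpos l (ev x w • v₀))
        exact ⟨h1, hcon _ h1 (by omega)⟩
    obtain ⟨g, hgp⟩ := MulAction.exists_smul_eq K v₀ p
    obtain ⟨w, hw⟩ := hg g
    have := (hcl w).2
    rw [hw, hgp] at this
    omega
  choose v hv1 hv2 hv3 using key
  have hinj2 : Function.Injective (fun i => pos (v i)) := by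
    intro i j hij
    by_contra hne
    have h1 : v i = v j := hinj hij
    have h2 := hdisj hne
    exact Set.disjoint_left.1 h2 (hv1 i) (h1 ▸ hv1 j)
  have hcard : (Finset.univ.image (fun i => pos (v i))).card = R + 1 := by
    rw [Finset.card_image_of_injective _ hinj2]; simp
  have hsub : Finset.univ.image (fun i => pos (v i)) ⊆ Finset.Ico n (n + R) := by
    intro z hz
    simp only [Finset.mem_image, Finset.mem_univ, true_and] at hz
    obtain ⟨i, rfl⟩ := hz
    exact Finset.mem_Ico.2 ⟨hv2 i, hv3 i⟩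
  have := Finset.card_le_card hsub
  rw [hcard] at this
  simp at this

/-- an infinite sequence of disjoint pieces with finite boundary contains a finite one -/
theorem ends_finite {ι K V : Type} [Group K] [MulAction K V] [MulAction.IsPretransitive K V]
    (x : ι → K) (hg : Gens x) (pos : V → ℤ) (hinj : Function.Injective pos) (R : ℕ)
    (hpos : ∀ l v, |pos (ltr x l • v) - pos v| ≤ R)
    (Y : ℕ → Set V) (hdisj : Pairwise (Function.onFun Disjoint Y))
    (hbd : ∀ i, {v | v ∈ Y i ∧ ∃ l, ltr x l • v ∉ Y i}.Finite) : ∃ i, (Y i).Finite := by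
  by_contra hcon
  push Not at hcon
  obtain ⟨p, _⟩ := Set.Infinite.nonempty (hcon 0)
  have hor : ∀ i, ¬ BddAbove (pos '' Y i) ∨ ¬ BddAbove ((fun v => - pos v) '' Y i) := by
    intro i
    by_contra hc
    push Not at hc
    obtain ⟨⟨a, ha⟩, ⟨b, hb⟩⟩ := hc
    apply hcon i
    apply Set.Finite.of_finite_image (f := pos) _ (hinj.injOn)
    apply (Set.finite_Icc (-b) a).subset
    rintro _ ⟨v, hv, rfl⟩
    have h1 := ha (Set.mem_image_of_mem pos hv)
    have h2 := hb (Set.mem_image_of_mem (fun v => - pos v) hv)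
    exact ⟨by omega, h1⟩
  have hinf : {i | ¬ BddAbove (pos '' Y i)}.Infinite ∨
      {i | ¬ BddAbove ((fun v => - pos v) '' Y i)}.Infinite := by
    rw [← Set.infinite_union]
    have : {i | ¬ BddAbove (pos '' Y i)} ∪ {i | ¬ BddAbove ((fun v => - pos v) '' Y i)} =
        Set.univ := by
      ext i
      simpa using hor i
    rw [this]
    exact Set.infinite_univ
  have hgo : ∀ (q : V → ℤ), Function.Injective q → (∀ l v, |q (ltr x l • v) - q v| ≤ R) →
      {i | ¬ BddAbove (q '' Y i)}.Infinite → False := by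
    intro q hq1 hq2 hq3
    haveI := hq3.to_subtype
    let e : ℕ ↪ {i | ¬ BddAbove (q '' Y i)} := Infinite.natEmbedding _
    refine ends_aux x hg q hq1 R hq2 p (fun j => Y (e j.1).1) ?_ (fun j => hbd _)
      (fun j => (e j.1).2)
    intro j j' hjj
    apply hdisj
    intro h
    apply hjj
    exact Fin.ext (e.injective (Subtype.ext h))
  rcases hinf with h | h
  · exact hgo pos hinj hpos h
  · refine hgo (fun v => - pos v) (fun a b hab => hinj (neg_injective hab)) ?_ h
    intro l v
    have := hpos l v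
    rw [← abs_neg] at this
    convert this using 2
    ring

end Pool.Agent.H931
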