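import Pool.Agent.Helper931.G1

set_option autoImplicit false

namespace Pool.Agent.H931

open Set

section aux

variable {ι K V : Type} [Group K] [MulAction K V] {x : ι → K}

lemma subgroup_fg_map' {G H : Type} [Group G] [Group H] (f : G →* H) (S : Subgroup G)
    (h : S.FG) : (S.map f).FG := by
  rw [Subgroup.fg_iff_submonoid_fg] at h ⊢
  exact h.map f

lemma stab_fg' (p b : V) (g : K) (hb : g • p = b) (h : (MulAction.stabilizer K b).FG) :
    (MulAction.stabilizer K p).FG := by
  have hp : p = g⁻¹ • b := by rw [← hb, inv_smul_smul]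
  rw [hp, MulAction.stabilizer_smul_eq_stabilizer_map_conj]
  exact subgroup_fg_map' _ _ h

/-- the component of `p` in `M` -/
def M0' (x : ι → K) (M : Set V) (p : V) : Set V := {v | ∃ g : K, Reach x M p g ∧ g • p = v}

lemma M0'_sub {M : Set V} {p : V} : M0' x M p ⊆ M := by
  rintro v ⟨g, hg, rfl⟩
  exact hg.mem

lemma M0'_step {M : Set V} {p v : V} (hv : v ∈ M0' x M p) (l : ι × Bool)
    (h : ltr x l • v ∈ M) : ltr x l • v ∈ M0' x M p := by
  obtain ⟨g, hg, rfl⟩ := hv
  refine ⟨ltr x l * g, Reach.step l g hg (by rw [mul_smul]; exact h), by rw [mul_smul]⟩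

lemma smul_linv {v : V} (l : ι × Bool) : ltr x (linv l) • (ltr x l • v) = v := by
  rw [ltr_linv, inv_smul_smul]

structure Outer (x : ι → K) (M0 : Set V) (b : V) (σ O : Set V) : Prop where
  sM : σ ⊆ M0
  sO : σ ⊆ O
  inter : ∀ v ∈ O, v ∈ M0 → v ∈ σ
  hb : b ∈ σ
  loops : loops x O b ≤ loops x σ b
  conn : ∀ v ∈ σ, ∃ g : K, Reach x σ b g ∧ g • b = v
  stepO : ∀ v ∈ O, v ∉ σ → ∀ l, ltr x l • v ∈ O

lemma LS_mirror (pos : V → ℤ) (w z : ℤ) (q : V) (X Y : Set V)
    (h : LS x (fun v => - pos v - 1) w (-z) q true X Y) : LS x pos w z q false X Y := by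
  have hwin : win (fun v => - pos v - 1) w (-z) = win pos w z := by
    ext v
    simp only [win, Set.mem_setOf_eq]
    constructor
    · rintro ⟨h1, h2⟩; constructor <;> linarith [Int.add_one_le_iff.mpr h2]
    · rintro ⟨h1, h2⟩
      have := Int.add_one_le_iff.mpr h2
      constructor <;> linarith
  have hcmp : cmp x (fun v => - pos v - 1) w (-z) q = cmp x pos w z q := by
    unfold cmp
    rw [hwin]
  obtain ⟨hq, hl, hs⟩ := h
  rw [hwin] at hq
  rw [hcmp] at hl hs
  refine ⟨hq, hl, ?_⟩
  intro v hv l hlv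
  rw [hs v hv l hlv]
  constructor
  · intro h
    have h1 := h.mp rfl
    constructor
    · intro h2; exact absurd h2 (by simp)
    · intro h2; exfalso; linarith
  · intro h
    constructor
    · intro _
      by_contra h3
      have : pos v < z := by linarith
      have := h.mpr this
      simp at this
    · intro _; rfl

theorem high' [Finite ι] [MulAction.IsPretransitive K V] (n : ℕ)
    (hn : 1 ≤ n) (hp : Pres x n) (hg : Gens x) (hF : NoF2 K)
    (pos : V → ℤ) (hinj : Function.Injective pos) (R : ℕ)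
    (hpos : ∀ l v, |pos (ltr x l • v) - pos v| ≤ R) (w : ℤ) (hw : 2 * n * R ≤ w)
    (z : ℤ) (M : Set V) (hM1 : ∀ v ∈ M, pos v < z + w) (hM2 : win pos w z ⊆ M) (p : V)
    (hpM : p ∈ M) (hpz : pos p < z - w) (b : V) (hb : b ∈ M0' x M p) (hbw : b ∈ win pos w z)
    (hL : ¬ (MulAction.stabilizer K b).FG) :
    (∃ X Y : Set V, LS x pos w z b true X Y ∧ p ∈ X) ∨
    ∃ O : Set V, Outer x (M0' x M p) b (cmp x pos w z b) O ∧
      ∀ l, z + w ≤ pos (ltr x l • b) → ltr x l • b ∈ O := by
  obtain ⟨B, hB1, hB2, hB3⟩ := geo_slice x n hn hp hg hF pos hinj R hpos w hw z b hbw hL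
  set σ := cmp x pos w z b with hσ
  have hRw : (R : ℤ) ≤ w := by
    have h1 : (1 : ℤ) ≤ n := by exact_mod_cast hn
    have h2 : (0 : ℤ) ≤ R := Int.natCast_nonneg R
    nlinarith
  have hR0 : (0 : ℤ) ≤ R := Int.natCast_nonneg R
  have hσwin : ∀ v ∈ σ, v ∈ win pos w z := by
    rintro v ⟨g, hg, rfl⟩
    exact hg.mem
  have hbσ : b ∈ σ := ⟨1, Reach.one hbw, by simp⟩
  have hσstep : ∀ v ∈ σ, ∀ l, ltr x l • v ∈ win pos w z → ltr x l • v ∈ σ := by
    rintro v ⟨g, hg, rfl⟩ l h
    exact ⟨ltr x l * g, Reach.step l g hg (by rw [mul_smul]; exact h), by rw [mul_smul]⟩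
  have hσstep' : ∀ v ∈ win pos w z, ∀ l, ltr x l • v ∈ σ → v ∈ σ := by
    intro v hv l h
    have := hσstep _ h (linv l) (by rw [smul_linv]; exact hv)
    rwa [smul_linv] at this
  have hσM : σ ⊆ M0' x M p := by
    rintro v ⟨g, hg, rfl⟩
    obtain ⟨g0, hg0, rfl⟩ := hb
    have h1 : Reach x M (g0 • p) g := hg.mono hM2
    exact ⟨g * g0, hg0.mul h1, by rw [mul_smul]⟩
  have hd : ∀ l v, pos (ltr x l • v) ≤ pos v + R ∧ pos v ≤ pos (ltr x l • v) + R := by
    intro l v
    have := abs_le.mp (hpos l v)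
    constructor <;> linarith [this.1, this.2]
  -- claim
  have claim0 : ∀ g : K, Reach x M b g → (g • b ∉ B ↔ (g • b ∈ σ ∧ z ≤ pos (g • b))) := by
    intro g hgr
    induction hgr with
    | one _ =>
      rw [one_smul, hB1 b hbσ]
      constructor
      · intro h; exact ⟨hbσ, not_lt.mp h⟩
      · intro h; exact not_lt.mpr h.2
    | step l g hgr hm ih =>
      rw [mul_smul] at hm ⊢
      set v := g • b with hv
      have hvM : v ∈ M := hgr.mem
      by_cases hboth : v ∈ σ ∧ ltr x l • v ∈ σ
      · rw [hB1 _ hboth.2]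
        constructor
        · intro h; exact ⟨hboth.2, not_lt.mp h⟩
        · intro h; exact not_lt.mpr h.2
      · have h1 := hB2 v l hboth
        rw [← not_iff_not] at h1
        rw [← h1, ih]
        by_cases hvσ : v ∈ σ
        · have hlv : ltr x l • v ∉ σ := fun h => hboth ⟨hvσ, h⟩
          have hlw : ltr x l • v ∉ win pos w z := fun h => hlv (hσstep v hvσ l h)
          have h2 : pos (ltr x l • v) < z - w := by
            by_contra h3
            exact hlw ⟨not_lt.mp h3, hM1 _ hm⟩
          have h3 := (hd l v).2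
          constructor
          · intro h; exfalso; linarith [h.2]
          · intro h; exact absurd h.1 hlv
        · by_cases hlv : ltr x l • v ∈ σ
          · have hvw : v ∉ win pos w z := fun h => hvσ (hσstep' v h l hlv)
            have h2 : pos v < z - w := by
              by_contra h3
              exact hvw ⟨not_lt.mp h3, hM1 _ hvM⟩
            have h3 := (hd l v).1
            constructor
            · intro h; exact absurd h.1 hvσ
            · intro h; exfalso; linarith [h.2]
          · constructor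
            · intro h; exact absurd h.1 hvσ
            · intro h; exact absurd h.1 hlv
  have claim : ∀ v ∈ M0' x M p, (v ∉ B ↔ (v ∈ σ ∧ z ≤ pos v)) := by
    rintro v ⟨g, hg, rfl⟩
    obtain ⟨g0, hg0, hb0⟩ := hb
    have h1 : Reach x M b g0⁻¹ := by rw [← hb0]; exact hg0.inv
    have h2 : g0⁻¹ • b = p := by rw [← hb0, inv_smul_smul]
    have h3 : Reach x M b (g * g0⁻¹) := h1.mul (by rw [h2]; exact hg)
    have h4 := claim0 _ h3
    rw [mul_smul, h2] at h4
    exact h4
  have hpM0 : p ∈ M0' x M p := ⟨1, Reach.one hpM, by simp⟩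
  have hpσ : p ∉ σ := by
    intro h
    have := (hσwin p h).1
    linarith
  have hpB : p ∈ B := by
    by_contra h
    exact hpσ ((claim p hpM0).mp h).1
  rcases hB3 with hlight | hlight
  · left
    refine ⟨B ∪ σ, Bᶜ ∪ σ, ⟨hbw, hlight, ?_⟩, Or.inl hpB⟩
    intro v hv l hlv
    have h1 : ltr x l • v ∈ B ∪ σ ↔ ltr x l • v ∈ B := by
      constructor
      · rintro (h | h)
        · exact h
        · exact absurd h hlv
      · exact Or.inl
    rw [h1, ← hB2 v l (fun h => hlv h.2), hB1 v hv]
    simp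
  · right
    refine ⟨Bᶜ ∪ σ, ⟨hσM, subset_union_right, ?_, hbσ, hlight.light, hlight.conn,
      hlight.stepX⟩, ?_⟩
    · rintro v (hv | hv) hvM
      · exact ((claim v hvM).mp hv).1
      · exact hv
    · intro l hl
      left
      have hlσ : ltr x l • b ∉ σ := by
        intro h
        have := (hσwin _ h).2
        linarith
      have h1 := hB2 b l (fun h => hlσ h.2)
      intro h2
      have h3 := (hB1 b hbσ).mp (h1.mpr h2)
      have h4 := (hd l b).1
      linarith

end aux

theorem exhaust {ι K V : Type} [Finite ι] [Group K] [MulAction K V]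
    [MulAction.IsPretransitive K V] (x : ι → K) (n : ℕ)
    (hn : 1 ≤ n) (hp : Pres x n) (hg : Gens x) (hF : NoF2 K)
    (pos : V → ℤ) (hinj : Function.Injective pos) (R : ℕ) (hR : 1 ≤ R)
    (hpos : ∀ l v, |pos (ltr x l • v) - pos v| ≤ R) (w : ℤ) (hw : 2 * n * R ≤ w)
    (p : V) (hL : ¬ (MulAction.stabilizer K p).FG) (N : ℕ) :
    ∃ (z : ℤ) (q : V) (s : Bool) (X Y : Set V),
      LS x pos w z q s X Y ∧ N + w ≤ |z - pos p| ∧ p ∈ X := by
  by_contra hcon
  have hRw : (R : ℤ) ≤ w := by
    have h1 : (1 : ℤ) ≤ n := by exact_mod_cast hn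
    have h2 : (0 : ℤ) ≤ R := Int.natCast_nonneg R
    nlinarith
  have hR0 : (0 : ℤ) ≤ R := Int.natCast_nonneg R
  have hN0 : (0 : ℤ) ≤ N := Int.natCast_nonneg N
  have hw0 : 0 ≤ w := le_trans hR0 hRw
  set z1 : ℤ := pos p + N + w + 1 with hz1
  set z2 : ℤ := pos p - N - w - 1 with hz2
  set M : Set V := {v | z2 - w ≤ pos v ∧ pos v < z1 + w} with hM
  have hpM : p ∈ M := ⟨by rw [hz2]; linarith, by rw [hz1]; linarith⟩
  set M0 := M0' x M p with hM0
  have hpM0 : p ∈ M0 := ⟨1, Reach.one hpM, by simp⟩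
  have hM0fin : M0.Finite := by
    apply Set.Finite.subset _ (M0'_sub (x := x) (M := M) (p := p))
    have : M ⊆ pos ⁻¹' (Set.Ico (z2 - w) (z1 + w)) := fun v hv => hv
    exact ((Set.finite_Ico (z2 - w) (z1 + w)).preimage hinj.injOn).subset this
  have hLb : ∀ b : V, ¬ (MulAction.stabilizer K b).FG := by
    intro b h
    obtain ⟨g, hg⟩ := MulAction.exists_smul_eq K p b
    exact hL (stab_fg' p b g hg h)
  have hd : ∀ l v, pos (ltr x l • v) ≤ pos v + R ∧ pos v ≤ pos (ltr x l • v) + R := by
    intro l v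
    have := abs_le.mp (hpos l v)
    constructor <;> linarith [this.1, this.2]
  -- the high side
  have hhigh : ∀ b ∈ M0, b ∈ win pos w z1 → ∃ σ O : Set V, Outer x M0 b σ O ∧
      ∀ l, z1 + w ≤ pos (ltr x l • b) → ltr x l • b ∈ O := by
    intro b hb hbw
    rcases high' n hn hp hg hF pos hinj R hpos w hw z1 M (fun v hv => hv.2)
      (fun v hv => ⟨by have := hv.1; rw [hz1] at this; rw [hz2]; linarith, hv.2⟩) p hpM
      (by rw [hz1]; linarith) b hb hbw (hLb b) with ⟨X, Y, h1, h2⟩ | ⟨O, h1, h2⟩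
    · exfalso
      apply hcon
      refine ⟨z1, b, true, X, Y, h1, ?_, h2⟩
      rw [hz1]
      have : pos p + N + w + 1 - pos p = N + w + 1 := by ring
      rw [this, abs_of_nonneg (by linarith)]
      linarith
    · exact ⟨_, O, h1, h2⟩
  have hlow : ∀ b ∈ M0, b ∈ win pos w z2 → ∃ σ O : Set V, Outer x M0 b σ O ∧
      ∀ l, pos (ltr x l • b) < z2 - w → ltr x l • b ∈ O := by
    intro b hb hbw
    have hwin : ∀ v, v ∈ win (fun v => - pos v - 1) w (-z2) ↔ v ∈ win pos w z2 := by
      intro v
      simp only [win, Set.mem_setOf_eq]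
      constructor
      · rintro ⟨h1, h2⟩
        constructor <;> linarith [Int.add_one_le_iff.mpr h2]
      · rintro ⟨h1, h2⟩
        have := Int.add_one_le_iff.mpr h2
        constructor <;> linarith
    rcases high' n hn hp hg hF (fun v => - pos v - 1)
      (fun a b h => hinj (by simpa using h)) R
      (fun l v => by
        have h1 : (- pos (ltr x l • v) - 1) - (- pos v - 1) = -(pos (ltr x l • v) - pos v) := by ring
        show |(- pos (ltr x l • v) - 1) - (- pos v - 1)| ≤ R
        rw [h1, abs_neg]; exact hpos l v)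
      w hw (-z2) M
      (fun v hv => by
        have := hv.1
        show - pos v - 1 < -z2 + w
        linarith)
      (fun v hv => by
        have hv' := (hwin v).mp hv
        exact ⟨hv'.1, by have := hv'.2; rw [hz2] at this; rw [hz1]; linarith⟩) p hpM
      (by show - pos p - 1 < -z2 - w; rw [hz2]; linarith) b hb ((hwin b).mpr hbw) (hLb b) with
      ⟨X, Y, h1, h2⟩ | ⟨O, h1, h2⟩
    · exfalso
      apply hcon
      refine ⟨z2, b, false, X, Y, LS_mirror pos w z2 b X Y h1, ?_, h2⟩
      rw [hz2]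
      have : pos p - N - w - 1 - pos p = -(N + w + 1) := by ring
      rw [this, abs_neg, abs_of_nonneg (by linarith)]
      linarith
    · refine ⟨_, O, h1, ?_⟩
      intro l hl
      apply h2
      show -z2 + w ≤ - pos (ltr x l • b) - 1
      have := Int.add_one_le_iff.mpr hl
      linarith
  -- leaving M0
  have hexit : ∀ v ∈ M0, ∀ l, ltr x l • v ∉ M0 → ∃ σ O : Set V, Outer x M0 v σ O ∧
      ltr x l • v ∈ O := by
    intro v hv l hlv
    have hvM : v ∈ M := M0'_sub hv
    have hlM : ltr x l • v ∉ M := fun h => hlv (M0'_step hv l h)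
    by_cases h1 : z1 + w ≤ pos (ltr x l • v)
    · obtain ⟨σ, O, h2, h3⟩ := hhigh v hv ⟨by have := (hd l v).1; linarith, hvM.2⟩
      exact ⟨σ, O, h2, h3 l h1⟩
    · have h2 : pos (ltr x l • v) < z2 - w := by
        by_contra h3
        exact hlM ⟨not_lt.mp h3, not_le.mp h1⟩
      obtain ⟨σ, O, h3, h4⟩ := hlow v hv ⟨hvM.1, by have := (hd l v).2; linarith⟩
      exact ⟨σ, O, h3, h4 l h2⟩
  -- the main induction
  have good : ∀ u : List (ι × Bool),
      (ev x u • p ∈ M0 → Reach x M0 p (ev x u)) ∧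
      (ev x u • p ∉ M0 → ∃ (b : V) (σ O : Set V) (g1 g2 : K), Outer x M0 b σ O ∧
        ev x u = g2 * g1 ∧ Reach x M0 p g1 ∧ g1 • p = b ∧ Reach x O b g2) := by
    intro u
    induction u with
    | nil =>
      constructor
      · intro _; rw [ev_nil]; exact Reach.one hpM0
      · intro h; exfalso; apply h; rw [ev_nil, one_smul]; exact hpM0
    | cons l u ih =>
      rw [ev_cons]
      by_cases hv : ev x u • p ∈ M0
      · have hr := ih.1 hv
        constructor
        · intro h; exact Reach.step l _ hr h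
        · intro h
          rw [mul_smul] at h
          obtain ⟨σ, O, h1, h2⟩ := hexit _ hv l h
          exact ⟨_, σ, O, ev x u, ltr x l, h1, rfl, hr, rfl, Reach.single l (h1.sO h1.hb) h2⟩
      · obtain ⟨b, σ, O, g1, g2, h1, h2, h3, h4, h5⟩ := ih.2 hv
        have hvb : ev x u • p = g2 • b := by rw [h2, mul_smul, h4]
        have hvO : g2 • b ∈ O := h5.mem
        have hvσ : g2 • b ∉ σ := fun h => hv (by rw [hvb]; exact h1.sM h)
        have hlO : ltr x l • (g2 • b) ∈ O := h1.stepO _ hvO hvσ l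
        have h6 : Reach x O b (ltr x l * g2) := Reach.step l g2 h5 (by rw [mul_smul]; exact hlO)
        constructor
        · intro h
          rw [mul_smul, hvb] at h
          have hlσ : ltr x l • (g2 • b) ∈ σ := h1.inter _ hlO h
          obtain ⟨y, hy1, hy2⟩ := h1.conn _ hlσ
          have h7 : Reach x O ((ltr x l * g2) • b) y⁻¹ := by
            rw [mul_smul, ← hy2]
            exact (hy1.mono h1.sO).inv
          have h8 : Reach x O b (y⁻¹ * (ltr x l * g2)) := h6.mul h7
          have h9 : (y⁻¹ * (ltr x l * g2)) • b = b := by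
            rw [mul_smul, mul_smul, ← hy2, inv_smul_smul]
          have h10 : y⁻¹ * (ltr x l * g2) ∈ loops x σ b := h1.loops (Or.inr ⟨h8, h9⟩)
          rw [mem_loops h1.hb] at h10
          have h11 : Reach x σ b (y * (y⁻¹ * (ltr x l * g2))) :=
            h10.1.mul (by rw [h9]; exact hy1)
          rw [mul_inv_cancel_left] at h11
          have h12 : Reach x M0 (g1 • p) (ltr x l * g2) := by rw [h4]; exact h11.mono h1.sM
          have h13 := h3.mul h12
          rw [h2, ← mul_assoc]
          exact h13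
        · intro _
          exact ⟨b, σ, O, g1, ltr x l * g2, h1, by rw [h2, mul_assoc], h3, h4, h6⟩
  apply hL
  have hle : MulAction.stabilizer K p ≤ loops x M0 p := by
    intro g hgs
    obtain ⟨u, rfl⟩ := hg g
    have h1 : ev x u • p = p := hgs
    right
    exact ⟨(good u).1 (by rw [h1]; exact hpM0), h1⟩
  have heq : MulAction.stabilizer K p = loops x M0 p := le_antisymm hle (loops_le_stab _ _)
  rw [heq]
  exact loops_fg x M0 hM0fin p

end Pool.Agent.H931
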