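import Pool.Agent.Helper931.LightDef

set_option autoImplicit false

namespace Pool.Agent.H931

open Set

/-- the window of radius `w` around `z` -/
def win {V : Type} (pos : V → ℤ) (w z : ℤ) : Set V := {v | z - w ≤ pos v ∧ pos v < z + w}

/-- the component of `q` in the window -/
def cmp {ι K V : Type} [Group K] [MulAction K V] (x : ι → K) (pos : V → ℤ) (w z : ℤ) (q : V) :
    Set V := {v | ∃ g : K, Reach x (win pos w z) q g ∧ g • q = v}

/-- the component of `q` in the window around `z` is a separator with light side `X` (the low side
if `s = true`, the high side if `s = false`) and heavy side `Y`. -/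
structure LS {ι K V : Type} [Group K] [MulAction K V] (x : ι → K) (pos : V → ℤ) (w z : ℤ) (q : V)
    (s : Bool) (X Y : Set V) : Prop where
  hq : q ∈ win pos w z
  light : Light x X Y (cmp x pos w z q) q
  side : ∀ v ∈ cmp x pos w z q, ∀ l, ltr x l • v ∉ cmp x pos w z q →
    (ltr x l • v ∈ X ↔ (s = true ↔ pos v < z))

end Pool.Agent.H931
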