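import Pool.Agent.Helper931.A4
import Pool.Agent.Helper931.WinDef

set_option autoImplicit false

namespace Pool.Agent.H931

open Set

theorem chain_avoid {ι K V : Type} [Group K] [MulAction K V] {x : ι → K} {X σ Z : Set V} {q : V}
    (step : ∀ v ∈ X, v ∉ σ → ∀ l, ltr x l • v ∈ X) (hZ : ∀ v ∈ Z, v ∉ σ) (hq : q ∈ X) {g : K}
    (h : Reach x Z q g) : g • q ∈ X := by
  induction h with
  | one _ => simpa using hq
  | step l g hg hm ih =>
    rw [mul_smul]
    exact step _ ih (hZ _ hg.mem) l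

theorem chain_pos {ι K V : Type} [Group K] [MulAction K V] {x : ι → K} {pos : V → ℤ} {R : ℕ}
    (hpos : ∀ l v, |pos (ltr x l • v) - pos v| ≤ R) (v : V) (wd : List (ι × Bool)) :
    |pos (ev x wd • v) - pos v| ≤ wd.length * R := by
  induction wd with
  | nil => simp
  | cons l wd ih =>
    rw [ev_cons, mul_smul, List.length_cons]
    have h1 := hpos l (ev x wd • v)
    have h2 := abs_add_le (pos (ltr x l • ev x wd • v) - pos (ev x wd • v))
      (pos (ev x wd • v) - pos v)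
    rw [sub_add_sub_cancel] at h2
    push_cast
    linarith

theorem chain_ball_mono {ι K V : Type} [Group K] [MulAction K V] {x : ι → K} {n m : ℕ}
    (h : n ≤ m) (v : V) : ball x n v ⊆ ball x m v := by
  rintro u ⟨wd, h1, h2⟩
  exact ⟨wd, h1.trans h, h2⟩

theorem chain_ball {ι K V : Type} [Group K] [MulAction K V]
    [MulAction.IsPretransitive K V] {x : ι → K} (hg : Gens x) (p v : V) :
    ∃ n, v ∈ ball x n p := by
  obtain ⟨g, hgv⟩ := MulAction.exists_smul_eq K p v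
  obtain ⟨wd, hwd⟩ := hg g
  exact ⟨wd.length, wd, le_rfl, by rw [hwd, hgv]⟩

theorem chain_fg {K V : Type} [Group K] [MulAction K V]
    [MulAction.IsPretransitive K V] {p q : V} (h : (MulAction.stabilizer K q).FG) :
    (MulAction.stabilizer K p).FG := by
  obtain ⟨g, rfl⟩ := MulAction.exists_smul_eq K q p
  rw [MulAction.stabilizer_smul_eq_stabilizer_map_conj]
  classical
  obtain ⟨S, hS⟩ := h
  refine ⟨S.image (MulAut.conj g).toMonoidHom, ?_⟩
  rw [Finset.coe_image, ← MonoidHom.map_closure, hS]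

theorem chain_step {ι K V : Type} [Finite ι] [Group K] [MulAction K V]
    [MulAction.IsPretransitive K V] (x : ι → K) (hg : Gens x)
    (pos : V → ℤ) (R : ℕ)
    (hpos : ∀ l v, |pos (ltr x l • v) - pos v| ≤ R) (w : ℤ)
    (p : V) (hL : ¬ (MulAction.stabilizer K p).FG)
    (hex : ∀ N : ℕ, ∃ (z : ℤ) (q : V) (s : Bool) (X Y : Set V),
      LS x pos w z q s X Y ∧ N + w ≤ |z - pos p| ∧ p ∈ X)
    (z : ℤ) (q : V) (s : Bool) (X Y : Set V) (hLS : LS x pos w z q s X Y) (m : ℕ) :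
    ∃ (z2 : ℤ) (q2 : V) (s2 : Bool) (X2 Y2 : Set V), LS x pos w z2 q2 s2 X2 Y2 ∧ X ⊆ X2 ∧
      Disjoint X (cmp x pos w z2 q2) ∧ ball x m p ⊆ X2 := by
  -- enlarge `m`
  choose f hf using fun v => chain_ball (x := x) hg p v
  obtain ⟨M, hM⟩ := (hLS.light.fin.image f).bddAbove
  set m' := max m M with hm'
  have hσm : cmp x pos w z q ⊆ ball x m' p := by
    intro v hv
    have h1 : f v ≤ M := hM ⟨v, hv, rfl⟩
    exact chain_ball_mono (h1.trans (le_max_right _ _)) p (hf v)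
  obtain ⟨z2, q2, s2, X2, Y2, hLS2, hz2, hp2⟩ := hex (m' * R + 1)
  have hsub2 : cmp x pos w z2 q2 ⊆ win pos w z2 := by
    rintro v ⟨g, hg1, rfl⟩
    exact hg1.mem
  have hball : ∀ u ∈ ball x m' p, u ∉ cmp x pos w z2 q2 := by
    rintro u ⟨wd, hwd, rfl⟩ hu
    obtain ⟨h1, h2⟩ := hsub2 hu
    have h3 := chain_pos hpos p wd
    have h4 : ((wd.length : ℤ) * R) ≤ m' * R := by
      exact_mod_cast Nat.mul_le_mul_right R hwd
    have h5 := abs_le.1 h3
    push_cast at hz2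
    have h6 : |z2 - pos p| ≤ w + m' * R := by
      rw [abs_le]
      constructor <;> linarith [h5.1, h5.2]
    linarith
  have hword : ∀ wd : List (ι × Bool), wd.length ≤ m' → ev x wd • p ∈ X2 := by
    intro wd
    induction wd with
    | nil => intro _; simpa using hp2
    | cons l wd ih =>
      intro hlen
      rw [List.length_cons] at hlen
      rw [ev_cons, mul_smul]
      exact hLS2.light.stepX _ (ih (by omega)) (hball _ ⟨wd, by omega, rfl⟩) l
  have hballX : ball x m' p ⊆ X2 := by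
    rintro u ⟨wd, hwd, rfl⟩
    exact hword wd hwd
  have hmX : ball x m p ⊆ X2 := (chain_ball_mono (le_max_left _ _) p).trans hballX
  have hqσ : q ∈ cmp x pos w z q := hLS.light.hq
  have hqX2 : q ∈ X2 := hballX (hσm hqσ)
  by_cases hcase : ∀ v ∈ X, v ∉ cmp x pos w z2 q2
  · refine ⟨z2, q2, s2, X2, Y2, hLS2, ?_, ?_, hmX⟩
    · intro v hv
      obtain ⟨g, hg1, rfl⟩ := hLS.light.connX v hv
      exact chain_avoid hLS2.light.stepX hcase hqX2 hg1
    · rw [Set.disjoint_left]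
      exact hcase
  · exfalso
    push Not at hcase
    obtain ⟨v0, hv0X, hv0σ⟩ := hcase
    have hdisj : ∀ v ∈ cmp x pos w z2 q2, v ∉ cmp x pos w z q := by
      intro v hv hv'
      exact hball v (hσm hv') hv
    obtain ⟨g0, hg0, hg0v⟩ := hLS2.light.conn v0 hv0σ
    have hq2X : q2 ∈ X := by
      have h1 := hg0.inv
      rw [hg0v] at h1
      have h2 := chain_avoid hLS.light.stepX hdisj hv0X h1
      rw [← hg0v, inv_smul_smul] at h2
      exact h2
    have hσ2X : ∀ v ∈ cmp x pos w z2 q2, v ∈ X := by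
      intro v hv
      obtain ⟨g, hg1, rfl⟩ := hLS2.light.conn v hv
      exact chain_avoid hLS.light.stepX hdisj hq2X hg1
    have hYσ2 : ∀ v ∈ Y, v ∉ cmp x pos w z2 q2 := by
      intro v hvY hv
      have h1 : v ∈ X ∩ Y := ⟨hσ2X v hv, hvY⟩
      rw [hLS.light.inter] at h1
      exact hdisj v hv h1
    have hYX2 : Y ⊆ X2 := by
      intro v hv
      obtain ⟨g, hg1, rfl⟩ := hLS.light.connY v hv
      exact chain_avoid hLS2.light.stepX hYσ2 hqX2 hg1
    -- the stabilizer of `q2`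
    obtain ⟨k, hk, hkq⟩ := hLS2.light.connX q hqX2
    have hq2X2 : q2 ∈ X2 := hk.mem_start
    have hstab : MulAction.stabilizer K q2 ≤ loops x X2 q2 := by
      intro g hgs
      rw [MulAction.mem_stabilizer_iff] at hgs
      have h1 : k * g * k⁻¹ ∈ MulAction.stabilizer K q := by
        rw [MulAction.mem_stabilizer_iff, mul_smul, mul_smul, ← hkq, inv_smul_smul, hgs]
      have h2 := loops_mono hYX2 q (hLS.light.heavy h1)
      rw [mem_loops hqX2] at h2
      obtain ⟨h3, h4⟩ := h2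
      rw [mem_loops hq2X2]
      refine ⟨?_, hgs⟩
      have h5 : Reach x X2 q k⁻¹ := by
        have := hk.inv
        rwa [hkq] at this
      have h6 : Reach x X2 q2 ((k * g * k⁻¹) * k) := hk.mul (by rw [hkq]; exact h3)
      have h7 : Reach x X2 q2 (k⁻¹ * ((k * g * k⁻¹) * k)) := by
        apply h6.mul
        rw [mul_smul, hkq, h4]
        exact h5
      have h8 : k⁻¹ * ((k * g * k⁻¹) * k) = g := by group
      rwa [h8] at h7
    have heq : MulAction.stabilizer K q2 = loops x (cmp x pos w z2 q2) q2 :=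
      le_antisymm (hstab.trans hLS2.light.light) (loops_le_stab _ _)
    apply hL
    apply chain_fg (q := q2)
    rw [heq]
    exact loops_fg x _ hLS2.light.fin q2

theorem chain {ι K V : Type} [Finite ι] [Group K] [MulAction K V]
    [MulAction.IsPretransitive K V] (x : ι → K) (hg : Gens x)
    (pos : V → ℤ) (hinj : Function.Injective pos) (R : ℕ)
    (hpos : ∀ l v, |pos (ltr x l • v) - pos v| ≤ R) (w : ℤ) (hw : 0 ≤ w)
    (p : V) (hL : ¬ (MulAction.stabilizer K p).FG)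
    (hex : ∀ N : ℕ, ∃ (z : ℤ) (q : V) (s : Bool) (X Y : Set V),
      LS x pos w z q s X Y ∧ N + w ≤ |z - pos p| ∧ p ∈ X) :
    ∃ (z : ℕ → ℤ) (q : ℕ → V) (s : ℕ → Bool) (X Y : ℕ → Set V),
      (∀ i, LS x pos w (z i) (q i) (s i) (X i) (Y i)) ∧
      (∀ i j, i < j → X i ⊆ X j ∧ Disjoint (X i) (cmp x pos w (z j) (q j))) ∧
      ∀ v, ∃ i, ∀ j, i ≤ j → v ∈ X j := by
  let D := {d : ℤ × V × Bool × Set V × Set V //
    LS x pos w d.1 d.2.1 d.2.2.1 d.2.2.2.1 d.2.2.2.2}
  have hstep : ∀ (d : D) (m : ℕ), ∃ d2 : D, d.1.2.2.2.1 ⊆ d2.1.2.2.2.1 ∧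
      Disjoint d.1.2.2.2.1 (cmp x pos w d2.1.1 d2.1.2.1) ∧ ball x m p ⊆ d2.1.2.2.2.1 := by
    rintro ⟨⟨z, q, s, X, Y⟩, hd⟩ m
    obtain ⟨z2, q2, s2, X2, Y2, h1, h2, h3, h4⟩ :=
      chain_step x hg pos R hpos w p hL hex z q s X Y hd m
    exact ⟨⟨⟨z2, q2, s2, X2, Y2⟩, h1⟩, h2, h3, h4⟩
  choose nx hnx1 hnx2 hnx3 using hstep
  obtain ⟨z0, q0, s0, X0, Y0, h0, -, -⟩ := hex 1
  let F : ℕ → D := fun n => Nat.rec ⟨⟨z0, q0, s0, X0, Y0⟩, h0⟩ (fun i d => nx d i) n
  have hF : ∀ i, F (i + 1) = nx (F i) i := fun i => rfl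
  have hmono : Monotone (fun i => (F i).1.2.2.2.1) := by
    apply monotone_nat_of_le_succ
    intro i
    simp only [hF]
    exact hnx1 _ _
  refine ⟨fun i => (F i).1.1, fun i => (F i).1.2.1, fun i => (F i).1.2.2.1,
    fun i => (F i).1.2.2.2.1, fun i => (F i).1.2.2.2.2, fun i => (F i).2, ?_, ?_⟩
  · intro i j hij
    obtain ⟨j', rfl⟩ : ∃ j', j = j' + 1 := ⟨j - 1, by omega⟩
    refine ⟨hmono hij.le, ?_⟩
    have h1 : (F i).1.2.2.2.1 ⊆ (F j').1.2.2.2.1 := hmono (by omega : i ≤ j')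
    have h2 := hnx2 (F j') j'
    rw [← hF] at h2
    exact h2.mono_left h1
  · intro v
    obtain ⟨n, hn⟩ := chain_ball (x := x) hg p v
    refine ⟨n + 1, ?_⟩
    intro j hj
    obtain ⟨j', rfl⟩ : ∃ j', j = j' + 1 := ⟨j - 1, by omega⟩
    have h2 := hnx3 (F j') j'
    rw [← hF] at h2
    exact h2 (chain_ball_mono (by omega) p hn)

end Pool.Agent.H931
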