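import Pool.Agent.Helper931.G3

set_option autoImplicit false

namespace Pool.Agent.H931

open Set

theorem subseq {ι K V : Type} [Finite ι] [Group K] [MulAction K V] (x : ι → K)
    (pos : V → ℤ) (hinj : Function.Injective pos) (R : ℕ) (hR : 1 ≤ R)
    (hpos : ∀ l v, |pos (ltr x l • v) - pos v| ≤ R) (w : ℤ) (hw : 2 * R ≤ w)
    (z : ℕ → ℤ) (q : ℕ → V) (s : ℕ → Bool) (X Y : ℕ → Set V)
    (hLS : ∀ i, LS x pos w (z i) (q i) (s i) (X i) (Y i)) :
    ∃ φ : ℕ → ℕ, StrictMono φ ∧ ∀ i j,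
      (∀ g : K, Reach x (X (φ i)) (q (φ i)) g ↔ Reach x (X (φ j)) (q (φ j)) g) ∧
      loops x (X (φ i)) (q (φ i)) = loops x (X (φ j)) (q (φ j)) := by
  classical
  have hR0 : (0 : ℤ) ≤ R := Int.natCast_nonneg R
  have hw0 : 0 ≤ w := by
    have : (1 : ℤ) ≤ R := by exact_mod_cast hR
    linarith
  have hq2 : ∀ i, pos (q i) - z i ∈ Set.Icc (-w) w := by
    intro i
    have h := (hLS i).hq
    obtain ⟨h1, h2⟩ := h
    constructor <;> linarith
  have hbd : ∀ (i : ℕ) (k : ℤ) (l : ι × Bool) (v : V), k ∈ Set.Icc (-w) w → pos v = z i + k →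
      pos (ltr x l • v) - z i ∈ Set.Icc (-(w + R)) (w + R) := by
    intro i k l v hk hv
    have h1 := abs_le.1 (hpos l v)
    obtain ⟨h2, h3⟩ := hk
    constructor <;> linarith [h1.1, h1.2]
  let c3 : ℕ → (↥(Set.Icc (-w) w) × (ι × Bool)) → Option ↥(Set.Icc (-(w + R)) (w + R)) :=
    fun i kl => if h : ∃ v, pos v = z i + (kl.1 : ℤ) then
      some ⟨pos (ltr x kl.2 • h.choose) - z i, hbd i kl.1 kl.2 h.choose kl.1.2 h.choose_spec⟩
      else none
  have hc3 : ∀ (i : ℕ) (k : ↥(Set.Icc (-w) w)) (l : ι × Bool) (v : V) (hv : pos v = z i + (k : ℤ)),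
      c3 i (k, l) = some ⟨pos (ltr x l • v) - z i, hbd i k l v k.2 hv⟩ := by
    intro i k l v hv
    have h : ∃ v, pos v = z i + (k : ℤ) := ⟨v, hv⟩
    have hch : h.choose = v := hinj (h.choose_spec.trans hv.symm)
    simp only [c3]
    rw [dif_pos h]
    simp only [hch]
  let code : ℕ → Bool × ↥(Set.Icc (-w) w) ×
      ((↥(Set.Icc (-w) w) × (ι × Bool)) → Option ↥(Set.Icc (-(w + R)) (w + R))) :=
    fun i => (s i, ⟨pos (q i) - z i, hq2 i⟩, c3 i)
  haveI : Finite ↥(Set.Icc (-w) w) := (Set.finite_Icc _ _).to_subtype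
  haveI : Finite ↥(Set.Icc (-(w + R)) (w + R)) := (Set.finite_Icc _ _).to_subtype
  obtain ⟨y, hy⟩ := Finite.exists_infinite_fiber code
  have hinf : (setOf fun i => code i = y).Infinite := by
    have := Set.infinite_coe_iff.1 hy
    exact this
  refine ⟨Nat.nth (fun i => code i = y), Nat.nth_strictMono hinf, ?_⟩
  intro i j
  have ha := Nat.nth_mem_of_infinite hinf i
  have hb := Nat.nth_mem_of_infinite hinf j
  generalize Nat.nth (fun i => code i = y) i = a at ha ⊢
  generalize Nat.nth (fun i => code i = y) j = b at hb ⊢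
  have hab : code a = code b := ha.trans hb.symm
  have hs : s a = s b := congrArg Prod.fst hab
  have h2 : pos (q a) - z a = pos (q b) - z b := by
    have := congrArg (fun t => t.2.1) hab
    exact congrArg Subtype.val this
  have h3 : c3 a = c3 b := congrArg (fun t => t.2.2) hab
  have hLb : LS x pos w (z b) (q b) (s a) (X b) (Y b) := by
    rw [hs]
    exact hLS b
  refine same_type x pos w R hR hpos hw (z a) (z b) (q a) (q b) (s a) (X a) (Y a) (X b) (Y b)
    (hLS a) hLb h2 ?_ hinj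
  intro v v' hv hvv l
  have hk : pos v - z a ∈ Set.Icc (-w) w := by
    obtain ⟨h4, h5⟩ := hv
    constructor <;> linarith
  have e1 := hc3 a ⟨pos v - z a, hk⟩ l v (by simp)
  have e2 := hc3 b ⟨pos v - z a, hk⟩ l v' (by simp [hvv])
  rw [h3, e2] at e1
  have e3 := Option.some.inj e1
  have e4 := congrArg Subtype.val e3
  simp only at e4
  exact e4.symm

end Pool.Agent.H931
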