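import Pool.Agent.Helper931.Per

set_option autoImplicit false

namespace Pool.Agent.H931

open Set

theorem final_per {ι K V : Type} [Group K] [MulAction K V] (x : ι → K) (hg : Gens x)
    (q : ℕ → V) (X σ : ℕ → Set V) (hq : ∀ i, q i ∈ X i) (hqσ : ∀ i, q i ∈ σ i)
    (hfin : ∀ i, (σ i).Finite)
    (step : ∀ i, ∀ v ∈ X i, v ∉ σ i → ∀ l, ltr x l • v ∈ X i)
    (connX : ∀ i, ∀ v ∈ X i, ∃ g : K, Reach x (X i) (q i) g ∧ g • q i = v)
    (hmono : ∀ i j, i < j → X i ⊆ X j ∧ Disjoint (X i) (σ j))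
    (hex : ∀ v, ∃ i, ∀ j, i ≤ j → v ∈ X j)
    (hR : ∀ i j, ∀ g : K, Reach x (X i) (q i) g ↔ Reach x (X j) (q j) g)
    (hD : ∀ i j, loops x (X i) (q i) = loops x (X j) (q j))
    (hDfg : (loops x (X 0) (q 0)).FG)
    (hfin01 : (X 1 \ X 0).Finite) (p : V) (hL : ¬ (MulAction.stabilizer K p).FG) :
    ∃ (D : Subgroup K) (t : K), D.FG ∧
      ∀ g, g ∈ MulAction.stabilizer K p ↔ ∃ j : ℕ, (t ^ j)⁻¹ * g * t ^ j ∈ D := by
  classical
  set R : Set K := {g | Reach x (X 0) (q 0) g} with hRdef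
  have hRi : ∀ i g, g ∈ R ↔ Reach x (X i) (q i) g := fun i g => hR 0 i g
  set D := loops x (X 0) (q 0) with hDdef
  have hDi : ∀ i g, g ∈ D ↔ Reach x (X i) (q i) g ∧ g • q i = q i := by
    intro i g
    rw [hDdef, hD 0 i]
    exact mem_loops (hq i)
  obtain ⟨hX01, hXσ⟩ := hmono 0 1 (by norm_num)
  obtain ⟨w, hwR, hwq⟩ := connX 1 (q 0) (hX01 (hq 0))
  have hRD : ∀ g ∈ R, ∀ d ∈ D, g * d ∈ R := by
    intro g hg d hd
    rw [hRi 0] at hg ⊢
    rw [hDi 0] at hd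
    exact hd.1.mul (by rw [hd.2]; exact hg)
  have hw : ∀ g ∈ R, g * w ∈ R := by
    intro g hg
    rw [hRi 0] at hg
    rw [hRi 1]
    exact hwR.mul (by rw [hwq]; exact hg.mono hX01)
  have hDw : ∀ d ∈ D, w⁻¹ * d * w ∈ D := by
    intro d hd
    rw [hDi 0] at hd
    rw [hDi 1]
    have h1 : Reach x (X 1) (q 1) (d * w) := hwR.mul (by rw [hwq]; exact hd.1.mono hX01)
    have h2 : (d * w) • q 1 = q 0 := by rw [mul_smul, hwq, hd.2]
    have h3 : Reach x (X 1) (q 0) w⁻¹ := by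
      have := hwR.inv
      rwa [hwq] at this
    have h4 := h1.mul (h := w⁻¹) (by rw [h2]; exact h3)
    refine ⟨by rw [mul_assoc]; exact h4, ?_⟩
    rw [mul_assoc, mul_smul, h2, inv_smul_eq_iff, hwq]
  have hkey : ∀ i, ∀ g ∈ R, ∀ g' ∈ R, g • q i = g' • q i → g'⁻¹ * g ∈ D := by
    intro i g hg g' hg' he
    rw [hRi i] at hg hg'
    rw [hDi i]
    have h1 := hg'.inv
    rw [← he] at h1
    exact ⟨hg.mul h1, by rw [mul_smul, he, inv_smul_smul]⟩
  have hrep0 : ∀ v, ∃ g : K, v ∈ X 1 → g ∈ R ∧ g • q 1 = v := by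
    intro v
    by_cases hv : v ∈ X 1
    · obtain ⟨g, hg1, hg2⟩ := connX 1 v hv
      exact ⟨g, fun _ => ⟨(hRi 1 g).mpr hg1, hg2⟩⟩
    · exact ⟨1, fun h => absurd h hv⟩
  choose rep hrep using hrep0
  have hper := periodic_alg x R D w ((hRi 0 1).mpr (Reach.one (hq 0))) hRD
    (by
      intro Q hQ1 hQ g hg
      rw [hRi 0] at hg
      induction hg with
      | one _ => exact hQ1
      | step l k hk hm ih =>
        exact hQ k ih l ((hRi 0 k).mpr hk) ((hRi 0 _).mpr (Reach.step l k hk hm)))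
    hw hDw (rep '' (X 1 \ X 0))
    (by
      intro g hg
      have hg1 := (hRi 1 g).mp hg
      by_cases hv : g • q 1 ∈ X 0
      · left
        obtain ⟨g', hg', hgv⟩ := connX 0 _ hv
        have hg'R : g' ∈ R := (hRi 0 g').mpr hg'
        refine ⟨g', hg'R, (g' * w)⁻¹ * g, ?_, by group⟩
        exact hkey 1 g hg (g' * w) (hw g' hg'R) (by rw [mul_smul, hwq, hgv])
      · right
        have hr := hrep (g • q 1) hg1.mem
        refine ⟨rep (g • q 1), ⟨_, ⟨hg1.mem, hv⟩, rfl⟩, (rep (g • q 1))⁻¹ * g, ?_, by group⟩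
        exact hkey 1 g hg _ hr.1 hr.2.symm)
    (by
      rintro ⟨g', hg', d, hd, h1⟩
      have hd1 := (hDi 1 d).mp hd
      have h2 : q 1 = g' • q 0 := by
        calc q 1 = (1 : K) • q 1 := (one_smul _ _).symm
          _ = (g' * w * d) • q 1 := by rw [← h1]
          _ = g' • q 0 := by rw [mul_smul, mul_smul, hd1.2, hwq]
      have h3 : q 1 ∈ X 0 := by
        rw [h2]
        exact ((hRi 0 g').mp hg').mem
      exact Set.disjoint_left.mp hXσ h3 (hqσ 1))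
    (rep '' (σ 1)) ((hfin 1).image _)
    (by
      rintro k hk ⟨l, hl⟩
      have hk1 := (hRi 1 k).mp hk
      have hkσ : k • q 1 ∈ σ 1 := by
        by_contra hns
        apply hl
        rw [hRi 1]
        refine Reach.step l k hk1 ?_
        rw [mul_smul]
        exact step 1 _ hk1.mem hns l
      have hr := hrep (k • q 1) hk1.mem
      refine ⟨rep (k • q 1), ⟨_, hkσ, rfl⟩, (rep (k • q 1))⁻¹ * k, ?_, by group⟩
      exact hkey 1 k hk _ hr.1 hr.2.symm)
  have hΦ : (rep '' (X 1 \ X 0)).Finite := hfin01.image _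
  obtain ⟨i0, hi0⟩ := hex p
  -- pigeonhole
  have hinf : ∃ f ∈ rep '' (X 1 \ X 0),
      {i | ∃ j : ℕ, f * w ^ j ∈ R ∧ (f * w ^ j) • q i = p}.Infinite := by
    by_contra hcon
    push Not at hcon
    have hfinU : (⋃ f ∈ rep '' (X 1 \ X 0),
        {i | ∃ j : ℕ, f * w ^ j ∈ R ∧ (f * w ^ j) • q i = p}).Finite := by
      refine hΦ.biUnion fun f hf => ?_
      exact hcon f hf
    refine (Set.Ici_infinite i0) (hfinU.subset ?_)
    intro i hi
    obtain ⟨g, hgR, hgp⟩ := connX i p (hi0 i hi)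
    have hgR' : g ∈ R := (hRi i g).mpr hgR
    obtain ⟨j, f, hf, d, hd, hgf⟩ := hper g hgR'
    have e1 : f * w ^ j = g * d⁻¹ := by rw [hgf]; group
    refine Set.mem_biUnion hf ⟨j, ?_, ?_⟩
    · rw [e1]
      exact hRD g hgR' _ (D.inv_mem hd)
    · have hd2 := ((hDi i _).mp (D.inv_mem hd)).2
      rw [e1, mul_smul, hd2, hgp]
  obtain ⟨f, hf, hinf⟩ := hinf
  have hword : ∀ u : List (ι × Bool), ∃ N, ∀ i, N ≤ i → Reach x (X i) p (ev x u) := by
    intro u
    induction u with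
    | nil => exact ⟨i0, fun i hi => by simpa using Reach.one (x := x) (hi0 i hi)⟩
    | cons l u ih =>
      obtain ⟨N, hN⟩ := ih
      obtain ⟨N', hN'⟩ := hex ((ltr x l * ev x u) • p)
      refine ⟨max N N', fun i hi => ?_⟩
      rw [ev_cons]
      exact Reach.step l _ (hN i (le_trans (le_max_left _ _) hi))
        (hN' i (le_trans (le_max_right _ _) hi))
  have hstab1 : ∀ g ∈ MulAction.stabilizer K p, ∃ j, (∃ i, f * w ^ j ∈ R ∧ (f * w ^ j) • q i = p) ∧
      (f * w ^ j)⁻¹ * g * (f * w ^ j) ∈ D := by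
    intro g hgs
    rw [MulAction.mem_stabilizer_iff] at hgs
    obtain ⟨u, rfl⟩ := hg g
    obtain ⟨N, hN⟩ := hword u
    obtain ⟨i, ⟨j, hjR, hjp⟩, hi⟩ := hinf.exists_gt N
    refine ⟨j, ⟨i, hjR, hjp⟩, ?_⟩
    rw [hDi i]
    have h1 := (hRi i _).mp hjR
    have h2 : Reach x (X i) (q i) (ev x u * (f * w ^ j)) :=
      h1.mul (by rw [hjp]; exact hN i hi.le)
    have h3 : (ev x u * (f * w ^ j)) • q i = p := by rw [mul_smul, hjp, hgs]
    have h4 : Reach x (X i) p (f * w ^ j)⁻¹ := by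
      have := h1.inv
      rwa [hjp] at this
    have h5 := h2.mul (h := (f * w ^ j)⁻¹) (by rw [h3]; exact h4)
    refine ⟨by rw [mul_assoc]; exact h5, ?_⟩
    rw [mul_assoc, mul_smul, h3, inv_smul_eq_iff, hjp]
  have hstab2 : ∀ g j, (∃ i, f * w ^ j ∈ R ∧ (f * w ^ j) • q i = p) →
      (f * w ^ j)⁻¹ * g * (f * w ^ j) ∈ D → g ∈ MulAction.stabilizer K p := by
    rintro g j ⟨i, hjR, hjp⟩ hd
    rw [MulAction.mem_stabilizer_iff]
    have h1 := ((hDi i _).mp hd).2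
    rw [mul_assoc, mul_smul, inv_smul_eq_iff, mul_smul, hjp] at h1
    exact h1
  have hinc1 : ∀ g j, (f * w ^ j)⁻¹ * g * (f * w ^ j) ∈ D →
      (f * w ^ (j + 1))⁻¹ * g * (f * w ^ (j + 1)) ∈ D := by
    intro g j h
    have h1 := hDw _ h
    have h2 : w⁻¹ * ((f * w ^ j)⁻¹ * g * (f * w ^ j)) * w
        = (f * w ^ (j + 1))⁻¹ * g * (f * w ^ (j + 1)) := by
      rw [pow_succ]; group
    rwa [h2] at h1
  have hinc : ∀ g j k, j ≤ k → (f * w ^ j)⁻¹ * g * (f * w ^ j) ∈ D →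
      (f * w ^ k)⁻¹ * g * (f * w ^ k) ∈ D := by
    intro g j k hjk h
    induction k, hjk using Nat.le_induction with
    | base => exact h
    | succ k _ ih => exact hinc1 g k ih
  have hconj : ∀ (k : K), ∀ g, g ∈ D.map (MulAut.conj k).toMonoidHom ↔ k⁻¹ * g * k ∈ D := by
    intro k g
    constructor
    · rintro ⟨d, hd, rfl⟩
      have : k⁻¹ * ((MulAut.conj k).toMonoidHom d) * k = d := by
        simp [MulAut.conj_apply, mul_assoc]
      rw [this]; exact hd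
    · intro h
      exact ⟨_, h, by simp [MulAut.conj_apply, mul_assoc]⟩
  have hDfgm : ∀ k : K, (D.map (MulAut.conj k).toMonoidHom).FG := by
    intro k
    obtain ⟨S, hS⟩ := hDfg
    refine ⟨S.image (MulAut.conj k).toMonoidHom, ?_⟩
    rw [Finset.coe_image, ← MonoidHom.map_closure, hS]
  by_cases hbd : BddAbove {j | ∃ i, f * w ^ j ∈ R ∧ (f * w ^ j) • q i = p}
  · exfalso
    apply hL
    have hne : {j | ∃ i, f * w ^ j ∈ R ∧ (f * w ^ j) • q i = p}.Nonempty := by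
      obtain ⟨i, j, h⟩ := hinf.nonempty
      exact ⟨j, i, h⟩
    have hmax := Nat.sSup_mem hne hbd
    set J := sSup {j | ∃ i, f * w ^ j ∈ R ∧ (f * w ^ j) • q i = p} with hJ
    have heq : MulAction.stabilizer K p = D.map (MulAut.conj (f * w ^ J)).toMonoidHom := by
      ext g
      rw [hconj]
      constructor
      · intro hgs
        obtain ⟨j, hj, hd⟩ := hstab1 g hgs
        exact hinc g j J (le_csSup hbd hj) hd
      · intro h
        exact hstab2 g J hmax h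
    rw [heq]
    exact hDfgm _
  · rw [not_bddAbove_iff] at hbd
    refine ⟨D.map (MulAut.conj f).toMonoidHom, f * w * f⁻¹, hDfgm _, fun g => ?_⟩
    have ht : ∀ j : ℕ, (f * w * f⁻¹) ^ j = f * w ^ j * f⁻¹ := by
      intro j
      rw [conj_pow]
    have hiff : ∀ j : ℕ, ((f * w * f⁻¹) ^ j)⁻¹ * g * (f * w * f⁻¹) ^ j
        ∈ D.map (MulAut.conj f).toMonoidHom ↔ (f * w ^ j)⁻¹ * g * (f * w ^ j) ∈ D := by
      intro j
      rw [hconj, ht]
      have : f⁻¹ * ((f * w ^ j * f⁻¹)⁻¹ * g * (f * w ^ j * f⁻¹)) * f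
          = (f * w ^ j)⁻¹ * g * (f * w ^ j) := by group
      rw [this]
    constructor
    · intro hgs
      obtain ⟨j, hj, hd⟩ := hstab1 g hgs
      exact ⟨j, (hiff j).mpr hd⟩
    · rintro ⟨j, hj⟩
      rw [hiff] at hj
      obtain ⟨k, hk, hjk⟩ := hbd j
      exact hstab2 g k hk (hinc g j k hjk.le hj)

end Pool.Agent.H931
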