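import Pool.Agent.Helper931.A4
import Pool.Agent.Helper931.Ends
import Pool.Agent.Helper931.G2
import Pool.Agent.Helper931.G4
import Pool.Agent.Helper931.G5a
import Pool.Agent.Helper931.G5b

set_option autoImplicit false

namespace Pool.Agent.H931

open Set

theorem final_B {ι K V : Type} [Finite ι] [Group K] [MulAction K V]
    [MulAction.IsPretransitive K V] (x : ι → K) (n : ℕ)
    (hn : 1 ≤ n) (hp : Pres x n) (hg : Gens x) (hF : NoF2 K)
    (pos : V → ℤ) (hinj : Function.Injective pos) (R : ℕ)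
    (hpos : ∀ l v, |pos (ltr x l • v) - pos v| ≤ R)
    (p : V) (hL : ¬ (MulAction.stabilizer K p).FG) :
    ∃ (D : Subgroup K) (t : K), D.FG ∧
      ∀ g, g ∈ MulAction.stabilizer K p ↔ ∃ j : ℕ, (t ^ j)⁻¹ * g * t ^ j ∈ D := by
  obtain ⟨R1, hR1, hRR1⟩ : ∃ R1 : ℕ, 1 ≤ R1 ∧ R ≤ R1 := ⟨max R 1, le_max_right _ _, le_max_left _ _⟩
  have hpos1 : ∀ l v, |pos (ltr x l • v) - pos v| ≤ R1 := fun l v =>
    (hpos l v).trans (by exact_mod_cast hRR1)
  obtain ⟨w, hw⟩ : ∃ w : ℤ, w = 2 * n * R1 := ⟨_, rfl⟩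
  have hn' : (1 : ℤ) ≤ n := by exact_mod_cast hn
  have hR1' : (1 : ℤ) ≤ R1 := by exact_mod_cast hR1
  have hw2 : 2 * (R1 : ℤ) ≤ w := by
    rw [hw]
    nlinarith
  have hw0 : 0 ≤ w := by linarith
  obtain ⟨z, q, s, X, Y, hLS, hmono, hex⟩ := chain x hg pos hinj R1 hpos1 w hw0 p hL
    (fun N => exhaust x n hn hp hg hF pos hinj R1 hR1 hpos1 w hw.symm.le p hL N)
  obtain ⟨φ, hφ, hφ2⟩ := subseq x pos hinj R1 hR1 hpos1 w hw2 z q s X Y hLS
  have hmono' : ∀ i j, i < j → X (φ i) ⊆ X (φ j) ∧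
      Disjoint (X (φ i)) (cmp x pos w (z (φ j)) (q (φ j))) := fun i j h => hmono _ _ (hφ h)
  have hmono2 : ∀ i j, i ≤ j → X (φ i) ⊆ X (φ j) := by
    intro i j h
    rcases Nat.eq_or_lt_of_le h with h1 | h1
    · rw [h1]
    · exact (hmono' i j h1).1
  have hex' : ∀ v, ∃ i, ∀ j, i ≤ j → v ∈ X (φ j) := by
    intro v
    obtain ⟨i, hi⟩ := hex v
    exact ⟨i, fun j hj => hi (φ j) (hj.trans (hφ.le_apply))⟩
  have hdisj : Pairwise (Function.onFun Disjoint (fun i => X (φ (i + 1)) \ X (φ i))) := by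
    have key : ∀ i j, i < j → Disjoint (X (φ (i + 1)) \ X (φ i)) (X (φ (j + 1)) \ X (φ j)) := by
      intro i j hij
      rw [Set.disjoint_left]
      intro v hv hv'
      exact hv'.2 (hmono2 (i + 1) j hij hv.1)
    intro i j hij
    rcases Nat.lt_or_gt_of_ne hij with h | h
    · exact key i j h
    · exact (key j i h).symm
  have hbd : ∀ i, {v | v ∈ (fun i => X (φ (i + 1)) \ X (φ i)) i ∧
      ∃ l, ltr x l • v ∉ (fun i => X (φ (i + 1)) \ X (φ i)) i}.Finite := by
    intro i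
    refine Set.Finite.subset (s := cmp x pos w (z (φ (i + 1))) (q (φ (i + 1))) ∪
      ⋃ l : ι × Bool, (fun v => ltr x l • v) ⁻¹' (cmp x pos w (z (φ i)) (q (φ i)))) ?_ ?_
    · refine Set.Finite.union (hLS _).light.fin (Set.finite_iUnion fun l => ?_)
      exact (hLS _).light.fin.preimage ((MulAction.injective (ltr x l)).injOn)
    · rintro v ⟨⟨hv1, hv2⟩, l, hl⟩
      by_cases h1 : ltr x l • v ∈ X (φ (i + 1))
      · have h2 : ltr x l • v ∈ X (φ i) := by
          by_contra h3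
          exact hl ⟨h1, h3⟩
        right
        rw [Set.mem_iUnion]
        refine ⟨l, ?_⟩
        show ltr x l • v ∈ cmp x pos w (z (φ i)) (q (φ i))
        by_contra h3
        have h4 := (hLS (φ i)).light.stepX _ h2 h3 (linv l)
        rw [ltr_linv, inv_smul_smul] at h4
        exact hv2 h4
      · left
        by_contra h2
        exact h1 ((hLS (φ (i + 1))).light.stepX v hv1 h2 l)
  obtain ⟨i0, hi0⟩ := ends_finite x hg pos hinj R1 hpos1 (fun i => X (φ (i + 1)) \ X (φ i)) hdisj hbd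
  have hsub : ∀ i, cmp x pos w (z i) (q i) ⊆ X i := by
    intro i v hv
    rw [← (hLS i).light.inter] at hv
    exact hv.1
  refine final_per x hg (fun k => q (φ (i0 + k))) (fun k => X (φ (i0 + k)))
    (fun k => cmp x pos w (z (φ (i0 + k))) (q (φ (i0 + k)))) ?_ ?_ ?_ ?_ ?_ ?_ ?_ ?_ ?_ ?_ hi0 p hL
  · exact fun i => hsub _ (hLS _).light.hq
  · exact fun i => (hLS _).light.hq
  · exact fun i => (hLS _).light.fin
  · exact fun i v hv hv' l => (hLS _).light.stepX v hv hv' l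
  · exact fun i v hv => (hLS _).light.connX v hv
  · exact fun i j hij => hmono' _ _ (by omega)
  · intro v
    obtain ⟨i, hi⟩ := hex' v
    exact ⟨i, fun j hj => hi (i0 + j) (by omega)⟩
  · exact fun i j g => (hφ2 _ _).1 g
  · exact fun i j => (hφ2 _ _).2
  · have h1 : loops x (X (φ (i0 + 0))) (q (φ (i0 + 0))) =
        loops x (cmp x pos w (z (φ (i0 + 0))) (q (φ (i0 + 0)))) (q (φ (i0 + 0))) :=
      le_antisymm (hLS _).light.light (loops_mono (hsub _) _)
    show (loops x (X (φ (i0 + 0))) (q (φ (i0 + 0)))).FG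
    rw [h1]
    exact loops_fg x _ (hLS _).light.fin _

end Pool.Agent.H931
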