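import Pool.Agent.Helper931.BddDef
import Pool.Agent.Helper931.G5c

set_option autoImplicit false

namespace Pool.Agent.H931

open Set

theorem countable_bdd {m : ℕ} {K : Type} [Group K] (x : Fin m → K) (n : ℕ)
    (hn : 1 ≤ n) (hp : Pres x n) (hg : Gens x) (hF : NoF2 K) (R : ℕ) :
    {L : Subgroup K | Bdd x R L}.Countable := by
  have hK : Countable K := Function.Surjective.countable (f := fun w : List (Fin m × Bool) => ev x w) hg
  have hFG : {L : Subgroup K | L.FG}.Countable := by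
    apply (Set.countable_range (fun s : Finset K => Subgroup.closure (s : Set K))).mono
    rintro L ⟨s, hs⟩
    exact ⟨s, hs⟩
  have hS2 : {L : Subgroup K | ∃ (D : Subgroup K) (t : K), D.FG ∧
      ∀ g, g ∈ L ↔ ∃ j : ℕ, (t ^ j)⁻¹ * g * t ^ j ∈ D}.Countable := by
    have hsub : {L : Subgroup K | ∃ (D : Subgroup K) (t : K), D.FG ∧
      ∀ g, g ∈ L ↔ ∃ j : ℕ, (t ^ j)⁻¹ * g * t ^ j ∈ D} ⊆
      ⋃ D ∈ {L : Subgroup K | L.FG}, ⋃ t : K,
        {L : Subgroup K | ∀ g, g ∈ L ↔ ∃ j : ℕ, (t ^ j)⁻¹ * g * t ^ j ∈ D} := by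
      rintro L ⟨D, t, hD, h⟩
      simp only [Set.mem_iUnion]
      exact ⟨D, hD, t, h⟩
    refine Set.Countable.mono hsub (hFG.biUnion fun D _ => Set.countable_iUnion fun t => ?_)
    apply Set.Subsingleton.countable
    intro L1 h1 L2 h2
    ext g
    exact (h1 g).trans (h2 g).symm
  refine (hFG.union hS2).mono ?_
  rintro L ⟨pos, hinj, hpos⟩
  by_cases hL : L.FG
  · exact Or.inl hL
  · right
    have hstab : MulAction.stabilizer K ((1 : K) : K ⧸ L) = L := MulAction.stabilizer_quotient L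
    obtain ⟨D, t, hD, h⟩ := final_B x n hn hp hg hF pos hinj R (by
      rintro ⟨i, b⟩ v
      cases b
      · rw [ltr_false]
        have h1 := hpos i ((x i)⁻¹ • v)
        rw [smul_inv_smul, abs_sub_comm] at h1
        exact h1
      · exact hpos i v) ((1 : K) : K ⧸ L) (by rwa [hstab])
    rw [hstab] at h
    exact ⟨D, t, hD, h⟩

end Pool.Agent.H931
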