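import Pool.Agent.Helper931.C1c
import Pool.Agent.Helper931.C3
import Pool.Agent.Helper931.D4
import Pool.Agent.Helper931.E1

set_option autoImplicit false

namespace Pool.Agent.H931

open Set

theorem ev_hom {ι K G : Type} [Group K] [Group G] (x : ι → K) (f : K →* G)
    (w : List (ι × Bool)) : f (ev x w) = ev (fun i => f (x i)) w := by
  induction w with
  | nil => simp
  | cons l w ih =>
    rw [ev_cons, ev_cons, map_mul, ih]
    congr 1
    rcases l with ⟨i, b⟩
    cases b <;> simp [ltr]

/-- the map of coset spaces induced by a homomorphism -/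
def cosMap {K G : Type} [Group K] [Group G] (f : K →* G) (M : Subgroup G) :
    K ⧸ M.comap f → G ⧸ M :=
  Quotient.lift (fun k => (QuotientGroup.mk (f k) : G ⧸ M)) (by
    intro a b hab
    have h1 : a⁻¹ * b ∈ M.comap f := QuotientGroup.leftRel_apply.1 hab
    rw [QuotientGroup.eq]
    rw [Subgroup.mem_comap, map_mul, map_inv] at h1
    exact h1)

theorem cosMap_mk {K G : Type} [Group K] [Group G] (f : K →* G) (M : Subgroup G) (k : K) :
    cosMap f M (QuotientGroup.mk k) = QuotientGroup.mk (f k) := rfl

theorem cosMap_smul {K G : Type} [Group K] [Group G] (f : K →* G) (M : Subgroup G) (k : K)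
    (v : K ⧸ M.comap f) : cosMap f M (k • v) = f k • cosMap f M v := by
  induction v using QuotientGroup.induction_on with
  | H a =>
    show (QuotientGroup.mk (f (k * a)) : G ⧸ M) = QuotientGroup.mk (f k * f a)
    rw [map_mul]

theorem cosMap_inj {K G : Type} [Group K] [Group G] (f : K →* G) (M : Subgroup G) :
    Function.Injective (cosMap f M) := by
  intro u v huv
  induction u using QuotientGroup.induction_on with
  | H a =>
    induction v using QuotientGroup.induction_on with
    | H b =>
      rw [cosMap_mk, cosMap_mk, QuotientGroup.eq] at huv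
      rw [QuotientGroup.eq, Subgroup.mem_comap, map_mul, map_inv]
      exact huv

theorem cosMap_surj {K G : Type} [Group K] [Group G] (f : K →* G) (hf : Function.Surjective f)
    (M : Subgroup G) : Function.Surjective (cosMap f M) := by
  intro u
  induction u using QuotientGroup.induction_on with
  | H a =>
    obtain ⟨k, rfl⟩ := hf a
    exact ⟨QuotientGroup.mk k, rfl⟩

theorem bdd_comap {ι K G : Type} [Group K] [Group G] (x : ι → K) (R : ℕ) (f : K →* G)
    (M : Subgroup G) (h : Bdd (fun i => f (x i)) R M) : Bdd x R (M.comap f) := by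
  obtain ⟨pos, hp1, hp2⟩ := h
  refine ⟨fun v => pos (cosMap f M v), hp1.comp (cosMap_inj f M), fun i v => ?_⟩
  show |pos (cosMap f M (x i • v)) - pos (cosMap f M v)| ≤ R
  rw [cosMap_smul]
  exact hp2 i _

theorem bdd_of_comap {ι K G : Type} [Group K] [Group G] (x : ι → K) (R : ℕ) (f : K →* G)
    (hf : Function.Surjective f)
    (M : Subgroup G) (h : Bdd x R (M.comap f)) : Bdd (fun i => f (x i)) R M := by
  obtain ⟨pos, hp1, hp2⟩ := h
  let e := Equiv.ofBijective (cosMap f M) ⟨cosMap_inj f M, cosMap_surj f hf M⟩
  refine ⟨fun v => pos (e.symm v), hp1.comp e.symm.injective, fun i v => ?_⟩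
  obtain ⟨u, rfl⟩ := e.surjective v
  have h1 : f (x i) • e u = e (x i • u) := (cosMap_smul f M (x i) u).symm
  show |pos (e.symm (f (x i) • e u)) - pos (e.symm (e u))| ≤ R
  rw [h1, Equiv.symm_apply_apply, Equiv.symm_apply_apply]
  exact hp2 i u

theorem disp_word {ι K : Type} [Group K] (x : ι → K) (R : ℕ) (L : Subgroup K)
    (pos : K ⧸ L → ℤ) (hpos : ∀ (i : ι) (v : K ⧸ L), |pos (x i • v) - pos v| ≤ R)
    (w : List (ι × Bool)) : ∀ v : K ⧸ L, |pos (ev x w • v) - pos v| ≤ R * w.length := by
  induction w with
  | nil => intro v; simp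
  | cons l w ih =>
    intro v
    have h1 := ih v
    have h2 : |pos (ltr x l • (ev x w • v)) - pos (ev x w • v)| ≤ R := by
      rcases l with ⟨i, b⟩
      cases b with
      | true => exact hpos i _
      | false =>
        rw [ltr_false]
        have h3 := hpos i ((x i)⁻¹ • (ev x w • v))
        rw [smul_inv_smul, abs_sub_comm] at h3
        exact h3
    rw [ev_cons, mul_smul, List.length_cons]
    have h3 : pos (ltr x l • (ev x w • v)) - pos v =
        (pos (ltr x l • (ev x w • v)) - pos (ev x w • v)) + (pos (ev x w • v) - pos v) := by ring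
    rw [h3]
    refine (abs_add_le _ _).trans ?_
    push_cast
    linarith

/-- the map from the quotient of the normalizer to the coset space -/
def norMap {G : Type} [Group G] (M : Subgroup G) :
    (↥(Subgroup.normalizer (M : Set G)) ⧸ M.subgroupOf (Subgroup.normalizer (M : Set G))) → G ⧸ M :=
  Quotient.lift (fun k => (QuotientGroup.mk (k : G) : G ⧸ M)) (by
    intro a b hab
    have h1 : a⁻¹ * b ∈ M.subgroupOf (Subgroup.normalizer (M : Set G)) :=
      QuotientGroup.leftRel_apply.1 hab
    rw [QuotientGroup.eq]
    rw [Subgroup.mem_subgroupOf] at h1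
    exact h1)

theorem norMap_mk {G : Type} [Group G] (M : Subgroup G)
    (k : ↥(Subgroup.normalizer (M : Set G))) :
    norMap M (QuotientGroup.mk k) = QuotientGroup.mk (k : G) := rfl

theorem norMap_inj {G : Type} [Group G] (M : Subgroup G) : Function.Injective (norMap M) := by
  intro u v huv
  induction u using QuotientGroup.induction_on with
  | H a =>
    induction v using QuotientGroup.induction_on with
    | H b =>
      rw [norMap_mk, norMap_mk, QuotientGroup.eq] at huv
      rw [QuotientGroup.eq, Subgroup.mem_subgroupOf]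
      exact huv

theorem norMap_mul {G : Type} [Group G] (M : Subgroup G)
    (k : ↥(Subgroup.normalizer (M : Set G)))
    (u : ↥(Subgroup.normalizer (M : Set G)) ⧸ M.subgroupOf (Subgroup.normalizer (M : Set G))) :
    norMap M (QuotientGroup.mk k * u) = (k : G) • norMap M u := by
  induction u using QuotientGroup.induction_on with
  | H a => rfl

theorem thmA (P : ∀ (G : Type) [Group G], Prop) (hP : EAClass P) {m : ℕ} {K : Type} [Group K]
    (x : Fin m → K) (n : ℕ)
    (hn : 1 ≤ n) (hp : Pres x n) (hg : Gens x) (hF : NoF2 K) (R : ℕ)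
    (G : Type) [Group G] (f : K →* G) (hf : Function.Surjective f)
    (hker : ∀ g, f g = 1 ↔ ∀ L : Subgroup K, Bdd x R L → g ∈ L) : P G := by
  have hgy : Gens (fun i => f (x i)) := by
    intro g
    obtain ⟨k, rfl⟩ := hf g
    obtain ⟨w, rfl⟩ := hg k
    exact ⟨w, (ev_hom x f w).symm⟩
  apply lemmaE P hP G {M : Subgroup G | Bdd (fun i => f (x i)) R M}
  · apply Set.countable_of_injective_of_countable_image (f := fun M : Subgroup G => M.comap f)
    · exact (Subgroup.comap_injective hf).injOn
    · apply (countable_bdd x n hn hp hg hF R).mono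
      rintro _ ⟨M, hM, rfl⟩
      exact bdd_comap x R f M hM
  · exact compact_bdd (fun i => f (x i)) hgy R
  · intro L hL k
    exact bdd_conj (fun i => f (x i)) R L hL k
  · intro M hM
    obtain ⟨pos, hp1, hp2⟩ := hM
    refine ⟨↥(Subgroup.normalizer (M : Set G)) ⧸ M.subgroupOf (Subgroup.normalizer (M : Set G)),
      inferInstance, QuotientGroup.mk' _, ?_, ?_⟩
    · apply lemmaQ P hP _ (fun u => pos (norMap M u)) (hp1.comp (norMap_inj M))
      intro e
      induction e using QuotientGroup.induction_on with
      | H k =>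
        obtain ⟨w, hw⟩ := hgy (k : G)
        refine ⟨R * w.length, fun q => ?_⟩
        show |pos (norMap M (QuotientGroup.mk k * q)) - pos (norMap M q)| ≤ R * w.length
        rw [norMap_mul, ← hw]
        exact disp_word (fun i => f (x i)) R M pos hp2 w _
    · intro g
      rw [← MonoidHom.mem_ker, QuotientGroup.ker_mk', Subgroup.mem_subgroupOf]
  · intro g hall
    obtain ⟨k, rfl⟩ := hf g
    rw [hker]
    intro L hL
    have hkerL : f.ker ≤ L := by
      intro k' hk'
      exact (hker k').1 hk' L hL
    have hcm : (L.map f).comap f = L := Subgroup.comap_map_eq_self hkerL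
    have h1 : Bdd (fun i => f (x i)) R (L.map f) := by
      apply bdd_of_comap x R f hf
      rw [hcm]
      exact hL
    have h2 := hall _ h1
    have h3 : k ∈ (L.map f).comap f := h2
    rwa [hcm] at h3

end Pool.Agent.H931
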