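import Pool.Agent.Helper931.C1a
import Pool.Agent.Helper931.D1
import Pool.Agent.Helper931.D3
import Pool.Agent.Helper931.D4
import Pool.Agent.Helper931.E2

set_option autoImplicit false

namespace Pool.Agent.H931

open Set

section final

lemma ev_eq_lift {ι G : Type} [Group G] (f : ι → G) (w : List (ι × Bool)) :
    ev f w = FreeGroup.lift f (FreeGroup.mk w) := by
  rw [FreeGroup.lift_mk]
  rfl

lemma gens_of {m : ℕ} (rels : Set (FreeGroup (Fin m))) :
    Gens (PresentedGroup.of (rels := rels)) := by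
  intro g
  obtain ⟨y, rfl⟩ := PresentedGroup.mk_surjective rels g
  refine ⟨y.toWord, ?_⟩
  rw [ev_eq_lift, FreeGroup.mk_toWord]
  have : (FreeGroup.lift (PresentedGroup.of (rels := rels))) = PresentedGroup.mk rels := by
    ext i
    simp [PresentedGroup.of]
  rw [this]

lemma pres_of {m : ℕ} (rels : Set (FreeGroup (Fin m))) (hrels : rels.Finite) :
    ∃ N : ℕ, 1 ≤ N ∧ Pres (PresentedGroup.of (rels := rels)) N := by
  obtain ⟨N, hN⟩ : ∃ N : ℕ, ∀ r ∈ rels, r.toWord.length ≤ N := by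
    obtain ⟨N, hN⟩ := (hrels.image (fun r => r.toWord.length)).bddAbove
    exact ⟨N, fun r hr => hN ⟨r, hr, rfl⟩⟩
  refine ⟨N + 1, by omega, ?_⟩
  intro G _ f hf
  have hlift : ∀ r ∈ rels, FreeGroup.lift f r = 1 := by
    intro r hr
    have h1 : ev f r.toWord = FreeGroup.lift f r := by
      rw [ev_eq_lift, FreeGroup.mk_toWord]
    rw [← h1]
    apply hf
    · exact (hN r hr).trans (by omega)
    · rw [ev_eq_lift, FreeGroup.mk_toWord]
      have : (FreeGroup.lift (PresentedGroup.of (rels := rels))) = PresentedGroup.mk rels := by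
        ext i
        simp [PresentedGroup.of]
      rw [this]
      exact PresentedGroup.one_of_mem hr
  refine ⟨PresentedGroup.toGroup hlift, fun i => ?_⟩
  simp



/-- the shift as a permutation of a shift-invariant set -/
def shiftPerm {n : ℕ} (Ω : Set (ℤ → Fin n))
    (hshift : ∀ x : ℤ → Fin n, x ∈ Ω ↔ (fun i => x (i + 1)) ∈ Ω) : Equiv.Perm ↥Ω where
  toFun y := ⟨fun i => (y : ℤ → Fin n) (i + 1), (hshift _).1 y.2⟩
  invFun y := ⟨fun i => (y : ℤ → Fin n) (i - 1), by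
    rw [hshift]
    simp⟩
  left_inv y := by
    ext i
    simp
  right_inv y := by
    ext i
    simp

lemma shiftPerm_zpow {n : ℕ} (Ω : Set (ℤ → Fin n))
    (hshift : ∀ x : ℤ → Fin n, x ∈ Ω ↔ (fun i => x (i + 1)) ∈ Ω) (m : ℤ) (y : ↥Ω) :
    (((shiftPerm Ω hshift ^ m) y : ↥Ω) : ℤ → Fin n) = fun i => (y : ℤ → Fin n) (i + m) := by
  induction m using Int.induction_on generalizing y with
  | zero => simp
  | succ k ih =>
    rw [zpow_add, zpow_one, Equiv.Perm.mul_apply, ih]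
    funext i
    simp only [shiftPerm, Equiv.coe_fn_mk]
    ring_nf
  | pred k ih =>
    rw [zpow_sub, zpow_one, Equiv.Perm.mul_apply, ih]
    funext i
    simp only [shiftPerm, Equiv.Perm.inv_def, Equiv.coe_fn_symm_mk]
    ring_nf

theorem main_proof (P : ∀ (G : Type) [Group G], Prop) (hP : EAClass P)
    (n : ℕ) (Ω : Set (ℤ → Fin n))
    (hshift : ∀ x : ℤ → Fin n, x ∈ Ω ↔ (fun i => x (i + 1)) ∈ Ω)
    (hclosed : ∀ x : ℤ → Fin n,
      (∀ N : ℕ, ∃ y ∈ Ω, ∀ i : ℤ, |i| ≤ (N : ℤ) → y i = x i) → x ∈ Ω)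
    (H : Subgroup (Equiv.Perm ↥Ω))
    (hloc : ∀ g ∈ H, ∀ x : ↥Ω, ∃ N : ℕ, ∃ m : ℤ, ∀ y : ↥Ω,
        (∀ i : ℤ, |i| ≤ (N : ℤ) → (y : ℤ → Fin n) i = (x : ℤ → Fin n) i) →
          ((g y : ↥Ω) : ℤ → Fin n) = fun i => (y : ℤ → Fin n) (i + m))
    (m : ℕ) (rels : Set (FreeGroup (Fin m))) (hrels : rels.Finite)
    (φ : PresentedGroup rels →* ↥H) (hφ : Function.Surjective φ)
    (hF : NoF2 (PresentedGroup rels)) : P ↥H := by
  classical
  let K := PresentedGroup rels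
  let x : Fin m → K := PresentedGroup.of
  have hg : Gens x := gens_of rels
  obtain ⟨N, hN1, hp⟩ := pres_of rels hrels
  -- displacement bound
  obtain ⟨R, hR⟩ : ∃ R : ℕ, ∀ (i : Fin m) (y : ↥Ω), ∃ k : ℤ, |k| ≤ R ∧
      ((((φ (x i) : ↥H) : Equiv.Perm ↥Ω) y : ↥Ω) : ℤ → Fin n) =
        fun j => (y : ℤ → Fin n) (j + k) := by
    have h1 : ∀ i : Fin m, ∃ R : ℕ, ∀ y : ↥Ω, ∃ k : ℤ, |k| ≤ R ∧
      ((((φ (x i) : ↥H) : Equiv.Perm ↥Ω) y : ↥Ω) : ℤ → Fin n) =
        fun j => (y : ℤ → Fin n) (j + k) := fun i =>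
      bounded_shift n Ω hclosed (φ (x i)).1 (hloc _ (φ (x i)).2)
    choose r hr using h1
    refine ⟨Finset.univ.sup r, fun i y => ?_⟩
    obtain ⟨k, hk, hk'⟩ := hr i y
    refine ⟨k, hk.trans ?_, hk'⟩
    exact_mod_cast Finset.le_sup (f := r) (Finset.mem_univ i)
  let T := shiftPerm Ω hshift
  let _ : MulAction K ↥Ω := MulAction.compHom ↥Ω (H.subtype.comp φ)
  have hact : ∀ (g : K) (y : ↥Ω), g • y = ((φ g : ↥H) : Equiv.Perm ↥Ω) y := fun g y => rfl
  have hb : ∀ (i : Fin m) (y : ↥Ω), ∃ k : ℤ, |k| ≤ R ∧ x i • y = (T ^ k) y := by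
    intro i y
    obtain ⟨k, hk, hk'⟩ := hR i y
    refine ⟨k, hk, ?_⟩
    apply Subtype.ext
    rw [hact, hk', shiftPerm_zpow]
  let bad : Set ↥Ω := {y | ∃ k : ℕ, 1 ≤ k ∧ k ≤ N * R ∧ (T ^ k) y = y}
  have hbad : bad.Finite := by
    have h1 := finite_periodic n (N * R)
    refine Set.Finite.of_finite_image (f := Subtype.val) (h1.subset ?_)
      (Subtype.val_injective.injOn)
    rintro _ ⟨y, ⟨k, hk1, hk2, hk3⟩, rfl⟩
    refine ⟨k, hk1, hk2, fun i => ?_⟩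
    have h2 := shiftPerm_zpow Ω hshift (k : ℤ) y
    rw [zpow_natCast] at h2
    have h3 : (((T ^ k) y : ↥Ω) : ℤ → Fin n) = (y : ℤ → Fin n) := by rw [hk3]
    have h4 := congrFun (h2.symm.trans h3) i
    exact h4
  let 𝒩 : Subgroup K := sInf {L | Bdd x R L}
  have hNmem : ∀ g : K, g ∈ 𝒩 ↔ ∀ L : Subgroup K, Bdd x R L → g ∈ L := by
    intro g
    simp [𝒩, Subgroup.mem_sInf]
  have hNn : 𝒩.Normal := by
    constructor
    intro g hgN k
    rw [hNmem] at hgN ⊢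
    intro L hL
    have h1 := hgN _ (bdd_conj x R L hL k⁻¹)
    rw [Subgroup.mem_map] at h1
    obtain ⟨l, hl, hl'⟩ := h1
    have : l = k * g * k⁻¹ := by
      rw [← hl']
      simp [mul_assoc]
    rwa [← this]
  have hPG : P (K ⧸ 𝒩) := by
    refine thmA P hP x N hN1 hp hg hF R (K ⧸ 𝒩) (QuotientGroup.mk' 𝒩)
      (QuotientGroup.mk'_surjective 𝒩) ?_
    intro g
    rw [← hNmem]
    simp
  have hfix : ∀ g ∈ 𝒩, ∀ y : ↥Ω, y ∉ bad → g • y = y := by
    intro g hgN y hy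
    obtain ⟨L, hL1, hL2⟩ := orbit_bdd x N hp hg T R hb y (by
      intro k hk1 hk2 hk3
      exact hy ⟨k, hk1, hk2, hk3⟩)
    exact hL2 g ((hNmem g).1 hgN L hL1)
  let M : Subgroup ↥H := 𝒩.map φ
  have hMn : M.Normal := hNn.map φ hφ
  have : Finite ↥M := by
    have : Finite ↥bad := hbad
    have hmap : ∀ h : ↥M, ∀ y : ↥bad, ((h : ↥H) : Equiv.Perm ↥Ω) y.1 ∈ bad := by
      rintro ⟨h, hh⟩ ⟨y, hy⟩
      obtain ⟨g, hgN, rfl⟩ := hh
      by_contra hcon
      have h1 := hfix g hgN _ hcon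
      rw [hact] at h1
      have h2 := (((φ g : ↥H) : Equiv.Perm ↥Ω)).injective h1
      apply hcon
      simp only at h2 ⊢
      rw [h2]
      exact hy
    let F : ↥M → (↥bad → ↥bad) := fun h y => ⟨_, hmap h y⟩
    refine Finite.of_injective F ?_
    intro h h' hhh
    apply Subtype.ext
    apply Subtype.ext
    ext1 y
    by_cases hy : y ∈ bad
    · have := congrFun hhh ⟨y, hy⟩
      exact congrArg Subtype.val this
    · obtain ⟨h, g, hgN, rfl⟩ := h
      obtain ⟨h', g', hgN', rfl⟩ := h'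
      have e1 := hfix g hgN y hy
      have e2 := hfix g' hgN' y hy
      rw [hact] at e1 e2
      simp only
      rw [e1, e2]
  have hPM : P ↥M := hP.fin ↥M
  have hPQ : P (↥H ⧸ M) := by
    refine EAClass.of_surj hP (QuotientGroup.map 𝒩 M φ (fun g hgN => ⟨g, hgN, rfl⟩)) ?_ hPG
    intro y
    obtain ⟨h, rfl⟩ := QuotientGroup.mk_surjective y
    obtain ⟨g, rfl⟩ := hφ h
    exact ⟨(g : K ⧸ 𝒩), rfl⟩
  exact hP.ext ↥H M hPM hPQ

end final

end Pool.Agent.H931
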