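import Pool.Agent.Helper931.S1
import Pool.Agent.Helper931.WinDef

set_option autoImplicit false

namespace Pool.Agent.H931

open Set

theorem gs_pos_ev {ι K V : Type} [Group K] [MulAction K V] (x : ι → K)
    (pos : V → ℤ) (R : ℕ) (hpos : ∀ l v, |pos (ltr x l • v) - pos v| ≤ R)
    (w : List (ι × Bool)) (v : V) : |pos (ev x w • v) - pos v| ≤ w.length * R := by
  induction w with
  | nil => simp
  | cons l w ih =>
    rw [ev_cons, mul_smul]
    have h1 := hpos l (ev x w • v)
    have h2 : pos (ltr x l • ev x w • v) - pos v =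
        (pos (ltr x l • ev x w • v) - pos (ev x w • v)) + (pos (ev x w • v) - pos v) := by ring
    rw [h2]
    refine (abs_add_le _ _).trans ?_
    rw [List.length_cons]
    push_cast
    linarith

theorem gs_reach {ι K V : Type} [Group K] [MulAction K V] (x : ι → K) (T : Set V) (n : ℕ) (v : V)
    (h : ball x n v ⊆ T) (w : List (ι × Bool)) (hw : w.length ≤ n) : Reach x T v (ev x w) := by
  induction w with
  | nil => exact Reach.one (h (mem_ball_self n v))
  | cons l w ih =>
    rw [ev_cons]
    refine Reach.step l _ (ih (by rw [List.length_cons] at hw; omega)) ?_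
    exact h ⟨l :: w, hw, by rw [ev_cons]⟩

theorem geo_slice {ι K V : Type} [Finite ι] [Group K] [MulAction K V]
    [MulAction.IsPretransitive K V] (x : ι → K) (n : ℕ)
    (hn : 1 ≤ n) (hp : Pres x n) (hg : Gens x) (hF : NoF2 K)
    (pos : V → ℤ) (hinj : Function.Injective pos) (R : ℕ)
    (hpos : ∀ l v, |pos (ltr x l • v) - pos v| ≤ R) (w : ℤ) (hw : 2 * n * R ≤ w)
    (z : ℤ) (q : V) (hq : q ∈ win pos w z) (hL : ¬ (MulAction.stabilizer K q).FG) :
    ∃ B : Set V, (∀ v ∈ cmp x pos w z q, (v ∈ B ↔ pos v < z)) ∧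
      (∀ v l, ¬ (v ∈ cmp x pos w z q ∧ ltr x l • v ∈ cmp x pos w z q) →
        (v ∈ B ↔ ltr x l • v ∈ B)) ∧
      (Light x (B ∪ cmp x pos w z q) (Bᶜ ∪ cmp x pos w z q) (cmp x pos w z q) q ∨
        Light x (Bᶜ ∪ cmp x pos w z q) (B ∪ cmp x pos w z q) (cmp x pos w z q) q) := by
  have hsub : cmp x pos w z q ⊆ win pos w z := by
    rintro v ⟨g, hg, rfl⟩
    exact hg.mem
  have hwin : (win pos w z).Finite := by
    have : win pos w z = pos ⁻¹' (Set.Ico (z - w) (z + w)) := rfl
    rw [this]
    exact (Set.finite_Ico _ _).preimage hinj.injOn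
  have hqc : q ∈ cmp x pos w z q := ⟨1, Reach.one hq, one_smul _ _⟩
  have hconn : ∀ v ∈ cmp x pos w z q, ∃ g : K, Reach x (cmp x pos w z q) q g ∧ g • q = v := by
    rintro v ⟨g, hg, rfl⟩
    refine ⟨g, ?_, rfl⟩
    induction hg with
    | one _ => exact Reach.one hqc
    | step l g h hm ih => exact Reach.step l g ih ⟨_, Reach.step l g h hm, rfl⟩
  have hb : ∀ v u : V, u ∈ ball x n v → |pos u - pos v| ≤ n * R := by
    rintro v u ⟨w', hw', rfl⟩
    refine (gs_pos_ev x pos R hpos w' v).trans ?_
    have h1 : (w'.length : ℤ) ≤ n := by exact_mod_cast hw'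
    exact mul_le_mul_of_nonneg_right h1 (by positivity)
  refine slice_side x n hn hp hg hF {v | pos v < z} (cmp x pos w z q) q hqc (hwin.subset hsub)
    hconn ?_ hL
  intro v
  by_cases h1 : z + n * R ≤ pos v
  · right; left
    intro u hu
    have h2 := abs_le.mp (hb v u hu)
    intro h3
    have h4 : pos u < z := h3
    linarith
  · push Not at h1
    by_cases h2 : pos v < z - n * R
    · left
      intro u hu
      have h3 := abs_le.mp (hb v u hu)
      change pos u < z
      linarith
    · push Not at h2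
      right; right
      have hball : ball x n v ⊆ win pos w z := by
        intro u hu
        have h3 := abs_le.mp (hb v u hu)
        constructor
        · linarith
        · linarith
      by_cases hv : v ∈ cmp x pos w z q
      · left
        obtain ⟨g, hg', rfl⟩ := hv
        rintro u ⟨w', hw', rfl⟩
        refine ⟨ev x w' * g, hg'.mul (gs_reach x _ n _ hball w' hw'), ?_⟩
        rw [mul_smul]
      · right
        rw [Set.disjoint_left]
        rintro u ⟨w', hw', rfl⟩ ⟨g, hg', hgu⟩
        apply hv
        have h3 := (gs_reach x _ n _ hball w' hw').inv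
        rw [← hgu] at h3
        refine ⟨(ev x w')⁻¹ * g, hg'.mul h3, ?_⟩
        rw [mul_smul, hgu, inv_smul_smul]

end Pool.Agent.H931
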