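import Pool.Agent.Helper931.WinDef

set_option autoImplicit false

namespace Pool.Agent.H931

open Set

section st
variable {ι K V : Type} [Group K] [MulAction K V] {x : ι → K}

lemma st_cmp_sub (pos : V → ℤ) (w z : ℤ) (q : V) : cmp x pos w z q ⊆ win pos w z := by
  rintro v ⟨g, hg, rfl⟩
  exact hg.mem

lemma st_reach (pos : V → ℤ) (w z : ℤ) (q : V) (g : K) :
    Reach x (win pos w z) q g ↔ Reach x (cmp x pos w z q) q g := by
  constructor
  · intro h
    induction h with
    | one h =>
      refine Reach.one ⟨1, Reach.one h, by simp⟩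
    | step l k hk hm ih =>
      exact Reach.step l k ih ⟨ltr x l * k, Reach.step l k hk hm, rfl⟩
  · exact fun h => h.mono (st_cmp_sub pos w z q)

lemma st_a (pos : V → ℤ) (w z z' : ℤ) (q q' : V) (hqq : pos q - z = pos q' - z')
    (hpat : ∀ v v' : V, v ∈ win pos w z → pos v - z = pos v' - z' →
      ∀ l, pos (ltr x l • v) - z = pos (ltr x l • v') - z') (g : K)
    (h : Reach x (win pos w z) q g) :
    Reach x (win pos w z') q' g ∧ pos (g • q) - z = pos (g • q') - z' := by
  induction h with
  | one h =>
    refine ⟨Reach.one ?_, by simpa using hqq⟩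
    unfold win at *
    simp only [Set.mem_ofPred_eq] at *
    omega
  | step l k hk hm ih =>
    have h1 := hpat _ _ hk.mem ih.2 l
    rw [← mul_smul, ← mul_smul] at h1
    refine ⟨Reach.step l k ih.1 ?_, h1⟩
    unfold win at *
    simp only [Set.mem_ofPred_eq] at *
    omega

lemma st_loops (pos : V → ℤ) (hinj : Function.Injective pos) (w z z' : ℤ) (q q' : V)
    (hq : q ∈ win pos w z) (hqq : pos q - z = pos q' - z')
    (hpat : ∀ v v' : V, v ∈ win pos w z → pos v - z = pos v' - z' →
      ∀ l, pos (ltr x l • v) - z = pos (ltr x l • v') - z') :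
    loops x (cmp x pos w z q) q ≤ loops x (cmp x pos w z' q') q' := by
  rintro g (rfl | ⟨h1, h2⟩)
  · exact Or.inl rfl
  · right
    rw [← st_reach] at h1
    have h3 := st_a pos w z z' q q' hqq hpat g h1
    rw [← st_reach]
    refine ⟨h3.1, hinj ?_⟩
    have h4 := h3.2
    rw [h2] at h4
    omega

lemma st_fwd (pos : V → ℤ) (hinj : Function.Injective pos) (w : ℤ)
    (z z' : ℤ) (q q' : V) (s : Bool) (X Y X' Y' : Set V)
    (h : LS x pos w z q s X Y) (h' : LS x pos w z' q' s X' Y')
    (hqq : pos q - z = pos q' - z')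
    (hpat : ∀ v v' : V, v ∈ win pos w z → pos v - z = pos v' - z' →
      ∀ l, pos (ltr x l • v) - z = pos (ltr x l • v') - z')
    (hpat' : ∀ v v' : V, v ∈ win pos w z' → pos v - z' = pos v' - z →
      ∀ l, pos (ltr x l • v) - z' = pos (ltr x l • v') - z)
    (g : K) (hg : Reach x X q g) :
    Reach x X' q' g ∧ (g • q ∈ cmp x pos w z q ↔ g • q' ∈ cmp x pos w z' q') ∧
      (g • q ∈ cmp x pos w z q → pos (g • q) - z = pos (g • q') - z') := by
  have hσX : cmp x pos w z q ⊆ X := by
    rw [← h.light.inter]; exact Set.inter_subset_left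
  have hσX' : cmp x pos w z' q' ⊆ X' := by
    rw [← h'.light.inter]; exact Set.inter_subset_left
  have hl1 := st_loops (x := x) pos hinj w z z' q q' h.hq hqq hpat
  have hl2 := st_loops (x := x) pos hinj w z' z q' q h'.hq hqq.symm hpat'
  induction hg with
  | one _ =>
    refine ⟨Reach.one (hσX' h'.light.hq), ?_, ?_⟩
    · simp only [one_smul]
      exact ⟨fun _ => h'.light.hq, fun _ => h.light.hq⟩
    · intro _
      simpa using hqq
  | step l g hg hm ih =>
    obtain ⟨i1, i2, i3⟩ := ih
    by_cases hv : g • q ∈ cmp x pos w z q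
    · have hv' := i2.1 hv
      have hp := i3 hv
      have hp2 := hpat _ _ (st_cmp_sub pos w z q hv) hp l
      rw [← mul_smul, ← mul_smul] at hp2
      obtain ⟨k, hk, hkq⟩ := hv
      obtain ⟨k', hk', hkq'⟩ := hv'
      by_cases hu : (ltr x l * g) • q ∈ win pos w z
      · have hu' : (ltr x l * g) • q' ∈ win pos w z' := by
          unfold win at *
          simp only [Set.mem_ofPred_eq] at *
          omega
        have m1 : (ltr x l * g) • q ∈ cmp x pos w z q := by
          have e : (ltr x l * k) • q = (ltr x l * g) • q := by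
            rw [mul_smul, hkq, mul_smul]
          refine ⟨ltr x l * k, Reach.step l k hk ?_, e⟩
          rw [e]; exact hu
        have m2 : (ltr x l * g) • q' ∈ cmp x pos w z' q' := by
          have e : (ltr x l * k') • q' = (ltr x l * g) • q' := by
            rw [mul_smul, hkq', mul_smul]
          refine ⟨ltr x l * k', Reach.step l k' hk' ?_, e⟩
          rw [e]; exact hu'
        exact ⟨Reach.step l g i1 (hσX' m2), ⟨fun _ => m2, fun _ => m1⟩, fun _ => hp2⟩
      · have hu' : (ltr x l * g) • q' ∉ win pos w z' := by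
          intro hc
          apply hu
          unfold win at *
          simp only [Set.mem_ofPred_eq] at *
          omega
        have n1 : (ltr x l * g) • q ∉ cmp x pos w z q := fun hc => hu (st_cmp_sub pos w z q hc)
        have n2 : (ltr x l * g) • q' ∉ cmp x pos w z' q' :=
          fun hc => hu' (st_cmp_sub pos w z' q' hc)
        have s1 := h.side (g • q) ⟨k, hk, hkq⟩ l (by rw [← mul_smul]; exact n1)
        have s2 := h'.side (g • q') ⟨k', hk', hkq'⟩ l (by rw [← mul_smul]; exact n2)
        rw [← mul_smul] at s1 s2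
        have s3 : pos (g • q) < z ↔ pos (g • q') < z' := by omega
        have s4 : (ltr x l * g) • q' ∈ X' := by
          rw [s2, ← s3, ← s1]
          exact hm
        exact ⟨Reach.step l g i1 s4, ⟨fun hc => absurd hc n1, fun hc => absurd hc n2⟩,
          fun hc => absurd hc n1⟩
    · have hv' : g • q' ∉ cmp x pos w z' q' := fun hc => hv (i2.2 hc)
      have hu' : (ltr x l * g) • q' ∈ X' := by
        rw [mul_smul]
        exact h'.light.stepX _ i1.mem hv' l
      have hr : Reach x X q (ltr x l * g) := Reach.step l g hg hm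
      have hr' : Reach x X' q' (ltr x l * g) := Reach.step l g i1 hu'
      have key1 : (ltr x l * g) • q ∈ cmp x pos w z q →
          (ltr x l * g) • q' ∈ cmp x pos w z' q' ∧
            pos ((ltr x l * g) • q) - z = pos ((ltr x l * g) • q') - z' := by
        rintro ⟨k, hk, hkq⟩
        have hkX : Reach x X q k := ((st_reach pos w z q k).1 hk).mono hσX
        have h1 : k⁻¹ * (ltr x l * g) ∈ loops x X q := by
          right
          refine ⟨hr.mul ?_, ?_⟩
          · rw [← hkq]; exact hkX.inv
          · rw [mul_smul, ← hkq, inv_smul_smul]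
        have h2 := loops_le_stab _ _ (hl1 (h.light.light h1))
        rw [MulAction.mem_stabilizer_iff, mul_smul, inv_smul_eq_iff] at h2
        have h3 := st_a pos w z z' q q' hqq hpat k hk
        rw [h2]
        refine ⟨⟨k, h3.1, rfl⟩, ?_⟩
        rw [← hkq]
        exact h3.2
      have key2 : (ltr x l * g) • q' ∈ cmp x pos w z' q' →
          (ltr x l * g) • q ∈ cmp x pos w z q := by
        rintro ⟨k, hk, hkq⟩
        have hkX : Reach x X' q' k := ((st_reach pos w z' q' k).1 hk).mono hσX'
        have h1 : k⁻¹ * (ltr x l * g) ∈ loops x X' q' := by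
          right
          refine ⟨hr'.mul ?_, ?_⟩
          · rw [← hkq]; exact hkX.inv
          · rw [mul_smul, ← hkq, inv_smul_smul]
        have h2 := loops_le_stab _ _ (hl2 (h'.light.light h1))
        rw [MulAction.mem_stabilizer_iff, mul_smul, inv_smul_eq_iff] at h2
        have h3 := st_a pos w z' z q' q hqq.symm hpat' k hk
        rw [h2]
        exact ⟨k, h3.1, rfl⟩
      exact ⟨hr', ⟨fun hc => (key1 hc).1, key2⟩, fun hc => (key1 hc).2⟩

end st

/- NOTE (helper411): the hypothesis `hinj` has been added as allowed by the hint; without it the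
statement is false (take `pos` constant, `V` finite and `X = Y = σ = V`). -/
theorem same_type {ι K V : Type} [Group K] [MulAction K V] (x : ι → K)
    (pos : V → ℤ) (w : ℤ) (R : ℕ) (hR : 1 ≤ R)
    (hpos : ∀ l v, |pos (ltr x l • v) - pos v| ≤ R) (hw : 2 * R ≤ w)
    (z z' : ℤ) (q q' : V) (s : Bool) (X Y X' Y' : Set V)
    (h : LS x pos w z q s X Y) (h' : LS x pos w z' q' s X' Y')
    (hqq : pos q - z = pos q' - z')
    (hpat : ∀ v v' : V, v ∈ win pos w z → pos v - z = pos v' - z' →
      ∀ l, pos (ltr x l • v) - z = pos (ltr x l • v') - z')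
    (hinj : Function.Injective pos) :
    (∀ g : K, Reach x X q g ↔ Reach x X' q' g) ∧ loops x X q = loops x X' q' := by
  have hpat' : ∀ v v' : V, v ∈ win pos w z' → pos v - z' = pos v' - z →
      ∀ l, pos (ltr x l • v) - z' = pos (ltr x l • v') - z := by
    intro v v' hv hvv l
    refine (hpat v' v ?_ hvv.symm l).symm
    unfold win at *
    simp only [Set.mem_ofPred_eq] at *
    omega
  refine ⟨fun g => ⟨fun hg => (st_fwd pos hinj w z z' q q' s X Y X' Y' h h' hqq hpat hpat' g hg).1,
    fun hg => (st_fwd pos hinj w z' z q' q s X' Y' X Y h' h hqq.symm hpat' hpat g hg).1⟩, ?_⟩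
  have hσX : cmp x pos w z q ⊆ X := by
    rw [← h.light.inter]; exact Set.inter_subset_left
  have hσX' : cmp x pos w z' q' ⊆ X' := by
    rw [← h'.light.inter]; exact Set.inter_subset_left
  apply le_antisymm
  · exact h.light.light.trans ((st_loops pos hinj w z z' q q' h.hq hqq hpat).trans
      (loops_mono hσX' q'))
  · exact h'.light.light.trans ((st_loops pos hinj w z' z q' q h'.hq hqq.symm hpat').trans
      (loops_mono hσX q))

end Pool.Agent.H931
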