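import Pool.Agent.Helper931.Basic

set_option autoImplicit false

namespace Pool.Agent.H931

open Set

/-- `X` is a light side with finite connected separator `σ` based at `q`; `Y` is the heavy side. -/
structure Light {ι K V : Type} [Group K] [MulAction K V] (x : ι → K) (X Y σ : Set V) (q : V) :
    Prop where
  hq : q ∈ σ
  fin : σ.Finite
  conn : ∀ v ∈ σ, ∃ g : K, Reach x σ q g ∧ g • q = v
  inter : X ∩ Y = σ
  union : X ∪ Y = univ
  stepX : ∀ v ∈ X, v ∉ σ → ∀ l, ltr x l • v ∈ X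
  stepY : ∀ v ∈ Y, v ∉ σ → ∀ l, ltr x l • v ∈ Y
  connX : ∀ v ∈ X, ∃ g : K, Reach x X q g ∧ g • q = v
  connY : ∀ v ∈ Y, ∃ g : K, Reach x Y q g ∧ g • q = v
  light : loops x X q ≤ loops x σ q
  heavy : MulAction.stabilizer K q ≤ loops x Y q

end Pool.Agent.H931
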