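import Pool.Agent.Helper931.Basic

set_option autoImplicit false

namespace Pool.Agent.H931

open Set

theorem per_conj {K : Type} [Group K] (D : Subgroup K) (w : K)
    (hDw : ∀ d ∈ D, w⁻¹ * d * w ∈ D) (j : ℕ) : ∀ d ∈ D, (w ^ j)⁻¹ * d * w ^ j ∈ D := by
  induction j with
  | zero => intro d hd; simpa using hd
  | succ j ih =>
    intro d hd
    have h1 := hDw _ (ih d hd)
    have h2 : (w ^ (j + 1))⁻¹ * d * w ^ (j + 1) = w⁻¹ * ((w ^ j)⁻¹ * d * w ^ j) * w := by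
      rw [pow_succ]; group
    rw [h2]
    exact h1

theorem per_pow {K : Type} [Group K] (𝓡 : Set K) (w : K)
    (hw : ∀ g ∈ 𝓡, g * w ∈ 𝓡) (j : ℕ) : ∀ g ∈ 𝓡, g * w ^ j ∈ 𝓡 := by
  induction j with
  | zero => intro g hg; simpa using hg
  | succ j ih =>
    intro g hg
    rw [pow_succ, ← mul_assoc]
    exact hw _ (ih g hg)

theorem periodic_alg {ι K : Type} [Group K] (x : ι → K) (𝓡 : Set K) (D : Subgroup K) (w : K)
    (h1 : (1 : K) ∈ 𝓡) (hRD : ∀ g ∈ 𝓡, ∀ d ∈ D, g * d ∈ 𝓡)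
    (hpath : ∀ (Q : Set K), (1 : K) ∈ Q →
      (∀ g ∈ Q, ∀ l, g ∈ 𝓡 → ltr x l * g ∈ 𝓡 → ltr x l * g ∈ Q) → 𝓡 ⊆ Q)
    (hw : ∀ g ∈ 𝓡, g * w ∈ 𝓡) (hDw : ∀ d ∈ D, w⁻¹ * d * w ∈ D)
    (Φ : Set K)
    (hcov : ∀ g ∈ 𝓡, (∃ g' ∈ 𝓡, ∃ d ∈ D, g = g' * w * d) ∨ (∃ f ∈ Φ, ∃ d ∈ D, g = f * d))
    (hno : ¬ ∃ g' ∈ 𝓡, ∃ d ∈ D, (1 : K) = g' * w * d)
    (Ψ : Set K) (hΨ : Ψ.Finite)
    (hbd : ∀ k ∈ 𝓡, (∃ l, ltr x l * k ∉ 𝓡) → ∃ f ∈ Ψ, ∃ d ∈ D, k = f * d) :
    ∀ g ∈ 𝓡, ∃ j : ℕ, ∃ f ∈ Φ, ∃ d ∈ D, g = f * w ^ j * d := by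
  classical
  have hconj := per_conj D w hDw
  have hpow := per_pow 𝓡 w hw
  -- no infinitely divisible element
  have hb : ∀ g ∈ 𝓡, ¬ ∀ j : ℕ, ∃ g' ∈ 𝓡, ∃ d ∈ D, g = g' * w ^ j * d := by
    have hsub := hpath {g | g ∈ 𝓡 ∧ ¬ ∀ j : ℕ, ∃ g' ∈ 𝓡, ∃ d ∈ D, g = g' * w ^ j * d} (by
      refine ⟨h1, fun h => ?_⟩
      obtain ⟨g', hg', d, hd, he⟩ := h 1
      rw [pow_one] at he
      exact hno ⟨g', hg', d, hd, he⟩) (by
      rintro h ⟨hh𝓡, hh⟩ l _ hsh
      refine ⟨hsh, fun hinf => ?_⟩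
      push Not at hh
      obtain ⟨j₀, hj₀⟩ := hh
      have hj : ∀ i : ℕ, ∀ g' ∈ 𝓡, ∀ d ∈ D, h ≠ g' * w ^ (j₀ + i) * d := by
        intro i g' hg' d hd he
        refine hj₀ (g' * w ^ i) (hpow i g' hg') d hd ?_
        rw [he, mul_assoc g' (w ^ i), ← pow_add, add_comm i j₀]
      choose kk hkk dd hdd hkd using fun i : ℕ => hinf (j₀ + i)
      have hnot : ∀ i, ltr x (linv l) * kk i ∉ 𝓡 := by
        intro i hmem
        apply hj i _ hmem (dd i) (hdd i)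
        rw [ltr_linv, mul_assoc, mul_assoc, ← mul_assoc (kk i), ← hkd i, inv_mul_cancel_left]
      choose ff hff ee hee hke using fun i : ℕ => hbd (kk i) (hkk i) ⟨linv l, hnot i⟩
      have hninj : ¬ Function.Injective (fun i : ℕ => (⟨ff i, hff i⟩ : Ψ)) := by
        intro hinj
        haveI : Finite Ψ := hΨ
        exact not_finite_iff_infinite.2 (inferInstance : Infinite ℕ) (Finite.of_injective _ hinj)
      rw [Function.Injective] at hninj
      push Not at hninj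
      obtain ⟨a, b, hab, hne⟩ := hninj
      have key : ∀ a b : ℕ, a < b → ff a = ff b → False := by
        intro a b hab hfab
        have e1 : ff a * ee a * w ^ (j₀ + a) * dd a = ff b * ee b * w ^ (j₀ + b) * dd b := by
          rw [← hke a, ← hke b, ← hkd a, ← hkd b]
        obtain ⟨c, rfl⟩ : ∃ c, b = a + c + 1 := ⟨b - a - 1, by omega⟩
        rw [hfab] at e1
        have e2 : w ^ (c + 1) = ((w ^ (j₀ + a))⁻¹ * ((ee (a + c + 1))⁻¹ * ee a) * w ^ (j₀ + a)) *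
            dd a * (dd (a + c + 1))⁻¹ := by
          have e3 : w ^ (j₀ + (a + c + 1)) = w ^ (j₀ + a) * w ^ (c + 1) := by
            rw [← pow_add]; congr 1; omega
          rw [e3] at e1
          have e4 : ee a * w ^ (j₀ + a) * dd a =
              ee (a + c + 1) * (w ^ (j₀ + a) * w ^ (c + 1)) * dd (a + c + 1) := by
            apply mul_left_cancel (a := ff (a + c + 1))
            simpa only [mul_assoc] using e1
          have e5 : w ^ (c + 1) = (w ^ (j₀ + a))⁻¹ * (ee (a + c + 1))⁻¹ *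
              (ee (a + c + 1) * (w ^ (j₀ + a) * w ^ (c + 1)) * dd (a + c + 1)) *
              (dd (a + c + 1))⁻¹ := by group
          rw [← e4] at e5
          rw [e5]
          group
        have e6 : w ^ (c + 1) ∈ D := by
          rw [e2]
          apply D.mul_mem _ (D.inv_mem (hdd _))
          apply D.mul_mem _ (hdd _)
          exact hconj _ _ (D.mul_mem (D.inv_mem (hee _)) (hee _))
        apply hno
        refine ⟨1 * w ^ c, hpow c 1 h1, (w ^ (c + 1))⁻¹, D.inv_mem e6, ?_⟩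
        rw [one_mul, ← pow_succ, mul_inv_cancel]
      have hab' : ff a = ff b := congrArg Subtype.val hab
      rcases lt_trichotomy a b with h | h | h
      · exact key a b h hab'
      · exact hne h
      · exact key b a h hab'.symm)
    intro g hg
    exact (hsub hg).2
  intro g hg
  by_contra hcon
  push Not at hcon
  apply hb g hg
  intro j
  induction j with
  | zero => exact ⟨g, hg, 1, D.one_mem, by simp⟩
  | succ j ih =>
    obtain ⟨g', hg', d, hd, he⟩ := ih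
    rcases hcov g' hg' with ⟨g'', hg'', d', hd', he'⟩ | ⟨f, hf, d', hd', he'⟩
    · refine ⟨g'', hg'', ((w ^ j)⁻¹ * d' * w ^ j) * d, D.mul_mem (hconj j d' hd') hd, ?_⟩
      rw [he, he', pow_succ']
      group
    · exfalso
      apply hcon j f hf (((w ^ j)⁻¹ * d' * w ^ j) * d) (D.mul_mem (hconj j d' hd') hd)
      rw [he, he']
      group

end Pool.Agent.H931
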