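import Pool.Agent.Helper931.A5
import Pool.Agent.Helper931.LightDef

set_option autoImplicit false

namespace Pool.Agent.H931

open Set

theorem slice_side {ι K V : Type} [Finite ι] [Group K] [MulAction K V]
    [MulAction.IsPretransitive K V] (x : ι → K) (n : ℕ)
    (hn : 1 ≤ n) (hp : Pres x n) (hg : Gens x) (hF : NoF2 K) (A σ : Set V) (q : V) (hq : q ∈ σ)
    (hfin : σ.Finite)
    (hconn : ∀ v ∈ σ, ∃ g : K, Reach x σ q g ∧ g • q = v)
    (tri : ∀ v, ball x n v ⊆ A ∨ ball x n v ⊆ Aᶜ ∨ ball x n v ⊆ σ ∨ Disjoint (ball x n v) σ)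
    (hL : ¬ (MulAction.stabilizer K q).FG) :
    ∃ B : Set V, (∀ v ∈ σ, (v ∈ B ↔ v ∈ A)) ∧
      (∀ v l, ¬ (v ∈ σ ∧ ltr x l • v ∈ σ) → (v ∈ B ↔ ltr x l • v ∈ B)) ∧
      (Light x (B ∪ σ) (Bᶜ ∪ σ) σ q ∨ Light x (Bᶜ ∪ σ) (B ∪ σ) σ q) := by
  classical
  obtain ⟨c, hc, hc1, hc0⟩ := exists_cut_cocycle x n hp hg A σ tri
  have hz : ∀ t : K, t • q = q → c t q = 0 := by
    intro t ht
    by_contra hne
    exact hL (nonsep x n hn hp hg hF A σ q hq hfin hconn tri c hc hc1 hc0 t ht hne)
  have hone : ∀ v, c 1 v = 0 := by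
    intro v
    have h := hc 1 1 v
    rw [one_smul, one_mul] at h
    linarith
  have hdep : ∀ g h : K, g • q = h • q → c g q = c h q := by
    intro g h hgh
    have ht : (g⁻¹ * h) • q = q := by
      rw [mul_smul, ← hgh, inv_smul_smul]
    have h1 := hc g (g⁻¹ * h) q
    rw [ht, hz _ ht, mul_inv_cancel_left] at h1
    linarith
  -- the height
  have hNreach : ∀ g : K, Reach x σ q g → c g q + ind A q = ind A (g • q) := by
    intro g hr
    induction hr with
    | one h => rw [hone, one_smul, zero_add]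
    | step l k hk hm ih =>
      have hk' := hk.mem
      have hm' : ltr x l • (k • q) ∈ σ := by rw [← mul_smul]; exact hm
      rw [hc, hc1 l (k • q) hk' hm', mul_smul]
      linarith
  have hN01 : ∀ g : K, c g q + ind A q = 0 ∨ c g q + ind A q = 1 := by
    have hw : ∀ w : List (ι × Bool), c (ev x w) q + ind A q = 0 ∨ c (ev x w) q + ind A q = 1 := by
      intro w
      induction w with
      | nil =>
        rw [ev_nil, hone, zero_add]
        rcases ind_cases A q with h | h
        · exact Or.inl h.1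
        · exact Or.inr h.1
      | cons l w ih =>
        rw [ev_cons]
        by_cases hb : (ev x w) • q ∈ σ ∧ ltr x l • ((ev x w) • q) ∈ σ
        · obtain ⟨h, hr, hh⟩ := hconn _ hb.2
          have h1 : c (ltr x l * ev x w) q = c h q := by
            apply hdep
            rw [mul_smul, hh]
          rw [h1, hNreach h hr]
          rcases ind_cases A (h • q) with h | h
          · exact Or.inl h.1
          · exact Or.inr h.1
        · rw [hc, hc0 l _ hb, zero_add]
          exact ih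
    intro g
    obtain ⟨w, rfl⟩ := hg g
    exact hw w
  obtain ⟨B, hB⟩ : ∃ B : Set V, B = {v | ∃ g : K, g • q = v ∧ c g q + ind A q = 0} := ⟨_, rfl⟩
  have hmemB : ∀ g : K, g • q ∈ B ↔ c g q + ind A q = 0 := by
    intro g
    rw [hB]
    constructor
    · rintro ⟨h, hh, h0⟩
      rw [hdep g h hh.symm]
      exact h0
    · intro h
      exact ⟨g, rfl, h⟩
  have hBσ : ∀ v ∈ σ, (v ∈ B ↔ v ∈ A) := by
    intro v hv
    obtain ⟨h, hr, rfl⟩ := hconn v hv
    rw [hmemB, hNreach h hr]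
    rcases ind_cases A (h • q) with h | h
    · simp [h.1, h.2]
    · simp [h.1, h.2]
  have hstep : ∀ v l, ¬ (v ∈ σ ∧ ltr x l • v ∈ σ) → (v ∈ B ↔ ltr x l • v ∈ B) := by
    intro v l hnb
    obtain ⟨g, rfl⟩ := MulAction.exists_smul_eq K q v
    rw [← mul_smul, hmemB, hmemB, hc, hc0 l _ hnb, zero_add]
  have htri : ∀ v, ball x n v ⊆ B ∨ ball x n v ⊆ Bᶜ ∨ ball x n v ⊆ σ := by
    intro v
    by_cases hσ : ball x n v ⊆ σ
    · exact Or.inr (Or.inr hσ)
    have hconst : ∀ u ∈ ball x n v, ∀ u' ∈ ball x n v, u ∈ σ → u' ∈ σ → ind A u = ind A u' := by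
      intro u hu u' hu' hs hs'
      rcases tri v with h | h | h | h
      · rw [ind_of_mem (h hu), ind_of_mem (h hu')]
      · rw [ind_of_notMem (h hu), ind_of_notMem (h hu')]
      · exact absurd h hσ
      · exact absurd hs (Set.disjoint_left.mp h hu)
    have hzero : ∀ w : List (ι × Bool), w.length ≤ n → c (ev x w) v = 0 := by
      intro w
      induction w with
      | nil => intro _; rw [ev_nil, hone]
      | cons l w ih =>
        intro hlen
        rw [List.length_cons] at hlen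
        rw [ev_cons, hc, ih (by omega), add_zero]
        by_cases hb : (ev x w) • v ∈ σ ∧ ltr x l • ((ev x w) • v) ∈ σ
        · rw [hc1 l _ hb.1 hb.2]
          have h1 : ltr x l • (ev x w • v) ∈ ball x n v :=
            ⟨l :: w, by rw [List.length_cons]; omega, by rw [ev_cons, mul_smul]⟩
          have h2 : ev x w • v ∈ ball x n v := ⟨w, by omega, rfl⟩
          rw [hconst _ h1 _ h2 hb.2 hb.1, sub_self]
        · exact hc0 l _ hb
    have hiff : ∀ u ∈ ball x n v, (u ∈ B ↔ v ∈ B) := by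
      rintro u ⟨w, hw, rfl⟩
      obtain ⟨g, hgv⟩ := MulAction.exists_smul_eq K q v
      have h0 := hzero w hw
      subst hgv
      rw [← mul_smul, hmemB, hmemB, hc, h0, zero_add]
    by_cases hv : v ∈ B
    · exact Or.inl (fun u hu => (hiff u hu).2 hv)
    · exact Or.inr (Or.inl (fun u hu hu' => hv ((hiff u hu).1 hu')))
  have htri' : ∀ v, ball x n v ⊆ Bᶜ ∨ ball x n v ⊆ Bᶜᶜ ∨ ball x n v ⊆ σ := by
    intro v
    rw [compl_compl]
    rcases htri v with h | h | h
    · exact Or.inr (Or.inl h)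
    · exact Or.inl h
    · exact Or.inr (Or.inr h)
  have hstepc : ∀ v l, ¬ (v ∈ σ ∧ ltr x l • v ∈ σ) → (v ∈ Bᶜ ↔ ltr x l • v ∈ Bᶜ) := by
    intro v l hnb
    rw [Set.mem_compl_iff, Set.mem_compl_iff, hstep v l hnb]
  have hconnX : ∀ v ∈ B ∪ σ, ∃ g : K, Reach x (B ∪ σ) q g ∧ g • q = v := by
    intro v hv
    obtain ⟨g, rfl⟩ := MulAction.exists_smul_eq K q v
    exact conn_side x n hn hg B σ q hq hconn htri g hv
  have hconnY : ∀ v ∈ Bᶜ ∪ σ, ∃ g : K, Reach x (Bᶜ ∪ σ) q g ∧ g • q = v := by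
    intro v hv
    obtain ⟨g, rfl⟩ := MulAction.exists_smul_eq K q v
    exact conn_side x n hn hg Bᶜ σ q hq hconn htri' g hv
  have hsup := stab_le_sup x n hn hg B σ q hq hconn htri
  have hinter : (B ∪ σ) ∩ (Bᶜ ∪ σ) = σ := by
    ext v
    constructor
    · rintro ⟨h1 | h1, h2 | h2⟩
      · exact absurd h1 h2
      · exact h2
      · exact h1
      · exact h1
    · intro h
      exact ⟨Or.inr h, Or.inr h⟩
  have hunion : (B ∪ σ) ∪ (Bᶜ ∪ σ) = univ := by
    ext v
    by_cases h : v ∈ B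
    · simp [h]
    · simp [h]
  have hsX : ∀ v ∈ B ∪ σ, v ∉ σ → ∀ l, ltr x l • v ∈ B ∪ σ := by
    intro v hv hvσ l
    rcases hv with hv | hv
    · exact Or.inl ((hstep v l (fun h => hvσ h.1)).1 hv)
    · exact absurd hv hvσ
  have hsY : ∀ v ∈ Bᶜ ∪ σ, v ∉ σ → ∀ l, ltr x l • v ∈ Bᶜ ∪ σ := by
    intro v hv hvσ l
    rcases hv with hv | hv
    · exact Or.inl ((hstepc v l (fun h => hvσ h.1)).1 hv)
    · exact absurd hv hvσ
  refine ⟨B, hBσ, hstep, ?_⟩
  rcases engine x n hn hp hg hF B σ q hq htri (loops_fg x σ hfin q) with h | h | ⟨h1, h2⟩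
  · left
    refine ⟨hq, hfin, hconn, hinter, hunion, hsX, hsY, hconnX, hconnY, h, ?_⟩
    refine hsup.trans (sup_le ?_ le_rfl)
    exact h.trans (loops_mono Set.subset_union_right q)
  · right
    refine ⟨hq, hfin, hconn, ?_, ?_, hsY, hsX, hconnY, hconnX, h, ?_⟩
    · rw [Set.inter_comm]; exact hinter
    · rw [Set.union_comm]; exact hunion
    · refine hsup.trans (sup_le le_rfl ?_)
      exact h.trans (loops_mono Set.subset_union_right q)
  · exfalso
    apply hL
    have heq : MulAction.stabilizer K q = loops x (B ∪ σ) q ⊔ loops x (Bᶜ ∪ σ) q :=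
      le_antisymm hsup (sup_le (loops_le_stab _ _) (loops_le_stab _ _))
    rw [heq]
    exact h1.sup h2

end Pool.Agent.H931
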